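import Mathlib
import Pool.Agent.H667R2.FG.OpDefs
import Pool.Agent.H667R2.FG.TL2

/-! Definitions for MP_76068a_an: two non-isomorphic torsion-free simple groups with isomorphic
reduced group C*-algebras. -/

set_option autoImplicit false

namespace Pool.Agent.H678SG

open Pool.Agent.H667R2.FG (Ell permOp lam rho delta LG EltG tau)

/-- bounded operators on `ℓ²(G)` -/
abbrev Op (G : Type) : Type := Ell G →L[ℂ] Ell G

/-- the reduced group C*-algebra -/
noncomputable def CR (G : Type) [Group G] : StarSubalgebra ℂ (Op G) :=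
  (StarAlgebra.adjoin ℂ (Set.range (lam : G → Op G))).topologicalClosure

theorem lam_mem_CR {G : Type} [Group G] (g : G) : (lam g : Op G) ∈ CR G :=
  StarSubalgebra.le_topologicalClosure _ (StarAlgebra.subset_adjoin ℂ _ ⟨g, rfl⟩)

instance {G : Type} [Group G] : IsClosed (CR G : Set (Op G)) :=
  StarSubalgebra.isClosed_topologicalClosure _

/-- the canonical unitaries -/
noncomputable def lamC (G : Type) [Group G] : G →* unitary (CR G) where
  toFun g := ⟨⟨lam g, lam_mem_CR g⟩, by
    have h := Pool.Agent.H667R2.FG.TL2.lam_unitary g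
    rw [Unitary.mem_iff] at h ⊢
    exact ⟨Subtype.ext h.1, Subtype.ext h.2⟩⟩
  map_one' := Subtype.ext (Subtype.ext Pool.Agent.H667R2.FG.TL2.lam_one)
  map_mul' g h := Subtype.ext (Subtype.ext (Pool.Agent.H667R2.FG.TL2.lam_mul g h))

/-- the canonical unitary of `g` as an element of the algebra -/
noncomputable abbrev lc {G : Type} [Group G] (g : G) : CR G := (lamC G g : CR G)

/-- the canonical trace -/
noncomputable def tr {G : Type} [Group G] (x : CR G) : ℂ := tau (x : Op G)

/-- trace preserving isomorphisms of reduced group C*-algebras -/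
structure TI (G G' : Type) [Group G] [Group G'] where
  e : CR G ≃⋆ₐ[ℂ] CR G'
  tr_e : ∀ x, tr (e x) = tr x

/-- the group generated by the exponentials `exp (i k)`, `k` self-adjoint of trace zero -/
noncomputable def DU (G : Type) [Group G] : Subgroup (unitary (CR G)) :=
  Subgroup.closure {U | ∃ k : CR G, IsSelfAdjoint k ∧ tr k = 0 ∧
    (U : CR G) = NormedSpace.exp (Complex.I • k)}

/-- `J : C*_r(G) → C*_r(G')` extends the group homomorphism `ι` -/
def IsJ {G G' : Type} [Group G] [Group G'] (ι : G →* G') (J : CR G →⋆ₐ[ℂ] CR G') : Prop :=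
  (∀ g, J (lc g) = lc (ι g)) ∧ Isometry J ∧ ∀ x, tr (J x) = tr x

/-- the free product `H * ℤ` -/
abbrev PZ (H : Type) [Group H] : Type := HNNExtension H ⊥ ⊥ (MulEquiv.refl (⊥ : Subgroup H))

/-- the free product `H * F(s, t)` -/
abbrev P2 (H : Type) [Group H] : Type := PZ (PZ H)

/-- the inclusion `H → H * F(s, t)` -/
noncomputable def i2 (H : Type) [Group H] : H →* P2 H := HNNExtension.of.comp HNNExtension.of

/-- the letters `s = l2 H false` and `t = l2 H true` -/
noncomputable def l2 (H : Type) [Group H] : Bool → P2 H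
  | false => HNNExtension.of HNNExtension.t
  | true => HNNExtension.t

/-- the word `y(u) = s u s⁻¹ t u t⁻¹` -/
noncomputable def yy {H : Type} [Group H] (u : H) : P2 H :=
  l2 H false * i2 H u * (l2 H false)⁻¹ * (l2 H true * i2 H u * (l2 H true)⁻¹)

/-- the free product `H * F(t₂, t₃, t₄, t₅)` -/
abbrev P4 (H : Type) [Group H] : Type := P2 (P2 H)

/-- the inclusion `H → H * F(t₂, t₃, t₄, t₅)` -/
noncomputable def i4 (H : Type) [Group H] : H →* P4 H := (i2 (P2 H)).comp (i2 H)

/-- the four letters of `P4 H` -/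
noncomputable def l4 (H : Type) [Group H] : Bool ⊕ Bool → P4 H
  | .inl b => i2 (P2 H) (l2 H b)
  | .inr b => l2 (P2 H) b

/-- the word `w · t₂ u t₂⁻¹ · t₃ u t₃⁻¹ · t₄ u t₄⁻¹ · t₅ u t₅⁻¹` -/
noncomputable def zz {H : Type} [Group H] (w u : H) : P4 H :=
  i2 (P2 H) (i2 H w * yy u) * yy (i2 H u)

/-- the word `c · t₂ e t₂⁻¹ · t₃ e t₃⁻¹` -/
noncomputable def z0 {H : Type} [Group H] (c e : H) : P4 H := i2 (P2 H) (i2 H c * yy e)

/-- torsion-free -/
def TF (G : Type) [Group G] : Prop := ∀ g : G, g ≠ 1 → ¬ IsOfFinOrder g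

/-- `x` is `p`-divisible: it has `p^n`-th roots for all `n` -/
def PD (p : ℕ) {G : Type} [Group G] (x : G) : Prop := ∀ n : ℕ, ∃ y : G, y ^ p ^ n = x

/-- there are nontrivial 2-divisible elements whose product is nontrivial and 3-divisible -/
def Pi2 (G : Type) [Group G] : Prop :=
  ∃ x y : G, x ≠ 1 ∧ y ≠ 1 ∧ x * y ≠ 1 ∧ PD 2 x ∧ PD 2 y ∧ PD 3 (x * y)

/-- malnormal homomorphisms -/
def Mal {H G : Type} [Group H] [Group G] (j : H →* G) : Prop :=
  ∀ (h h' : H) (g : G), h ≠ 1 → g * j h * g⁻¹ = j h' → g ∈ j.range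

/-- `z` is conjugate to an element of the image of `j` -/
def Con {H G : Type} [Group H] [Group G] (j : H →* G) (x : G) : Prop :=
  ∃ (h : H) (g : G), x = g * j h * g⁻¹

end Pool.Agent.H678SG
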