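import Pool.Agent.H678SG.Top

/-! Statements of the tasks. -/

set_option autoImplicit false

namespace Pool.Agent.H678SG

open Pool.Agent.H667R2.FG (Ell permOp lam rho delta LG EltG tau)

/-! ### A. preliminaries on `C*_r(G)` and `DU` -/

/-- every element of `C*_r(G)` commutes with the right translations -/
def S_COM : Prop := ∀ (G : Type) [Group G] (x : CR G) (g : G),
  (x : Op G) * rho g = rho g * (x : Op G)

/-- basic properties of the trace -/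
def S_TRC : Prop := ∀ (G : Type) [Group G],
  (∀ x y : CR G, tr (x + y) = tr x + tr y) ∧ (∀ (s : ℂ) (x : CR G), tr (s • x) = s * tr x) ∧
  (∀ x y : CR G, tr (x * y) = tr (y * x)) ∧ tr (1 : CR G) = 1 ∧ Continuous (tr : CR G → ℂ) ∧
  (∀ g : G, g ≠ 1 → tr (lc g) = 0) ∧
  (∀ x : CR G, tr (star x * x) = (‖(x : Op G) (delta 1)‖ ^ 2 : ℝ)) ∧
  (∀ x : CR G, (x : Op G) (delta 1) = 0 → x = 0) ∧
  (∀ (x : CR G) (g : G), ((x : Op G) (delta 1)) g = tr (lc g⁻¹ * x))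

/-- `DU` is normal -/
def S_DUN : Prop := ∀ (G : Type) [Group G], (DU G).Normal

/-- embeddings map `DU` into `DU` -/
def S_DUJ : Prop := ∀ (G G' : Type) [Group G] [Group G'] (ι : G →* G') (J : CR G →⋆ₐ[ℂ] CR G'),
  IsJ ι J → ∀ D ∈ DU G, ∃ D' ∈ DU G', (D' : CR G') = J (D : CR G)

/-- isomorphisms map `DU` into `DU` -/
def S_DUT : Prop := ∀ (G G' : Type) [Group G] [Group G'] (P : TI G G'),
  ∀ D ∈ DU G, ∃ D' ∈ DU G', (D' : CR G') = P.e (D : CR G)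

/-- uniqueness and composition of the embeddings -/
def S_JU : Prop := (∀ (G G' : Type) [Group G] [Group G'] (ι : G →* G')
    (J J' : CR G →⋆ₐ[ℂ] CR G'), IsJ ι J → IsJ ι J' → J = J') ∧
  (∀ (G G' G'' : Type) [Group G] [Group G'] [Group G''] (ι : G →* G') (ι' : G' →* G'')
    (J : CR G →⋆ₐ[ℂ] CR G') (J' : CR G' →⋆ₐ[ℂ] CR G''), IsJ ι J → IsJ ι' J' →
    IsJ (ι'.comp ι) (J'.comp J)) ∧
  (∀ (G G' : Type) [Group G] [Group G'] (ι : G →* G') (J : CR G →⋆ₐ[ℂ] CR G'), IsJ ι J →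
    Function.Injective ι)

/-- isomorphisms of groups give isomorphisms of the algebras -/
def S_TG : Prop := ∀ (G G' : Type) [Group G] [Group G'] (e : G ≃* G'),
  ∃ P : TI G G', ∀ g, P.e (lc g) = lc (e g)

/-- inverse and composition of trace preserving isomorphisms -/
def S_TC : Prop := (∀ (G G' : Type) [Group G] [Group G'] (P : TI G G'),
    ∃ Q : TI G' G, (∀ x, Q.e (P.e x) = x) ∧ ∀ x, P.e (Q.e x) = x) ∧
  ∀ (G G' G'' : Type) [Group G] [Group G'] [Group G''] (P : TI G G') (Q : TI G' G''),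
    ∃ R : TI G G'', ∀ x, R.e x = Q.e (P.e x)

/-- support lemma: if `x δ₁` is supported on `S` and `ξ` on `X`, then `x ξ` is supported on `S X` -/
def S_SUP : Prop := ∀ (G : Type) [Group G] (x : CR G) (S X : Set G) (ξ : Ell G),
  (∀ h, h ∉ S → ((x : Op G) (delta 1)) h = 0) → (∀ h, h ∉ X → ξ h = 0) →
  ∀ h, (∀ s ∈ S, ∀ y ∈ X, h ≠ s * y) → ((x : Op G) ξ) h = 0

/-! ### B. isomorphisms of free products and HNN extensions -/

/-- free products with `F(s, t)` -/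
def S_P2F : Prop := ∀ (H H' : Type) [Group H] [Group H'] (P : TI H H'),
  ∃ Q : TI (P2 H) (P2 H'), (∀ b, Q.e (lc (l2 H b)) = lc (l2 H' b)) ∧
    ∀ J J', IsJ (i2 H) J → IsJ (i2 H') J' → ∀ x, Q.e (J x) = J' (P.e x)

/-- free products with `F(t₂, t₃, t₄, t₅)` -/
def S_P4F : Prop := ∀ (H H' : Type) [Group H] [Group H'] (P : TI H H'),
  ∃ Q : TI (P4 H) (P4 H'), (∀ i, Q.e (lc (l4 H i)) = lc (l4 H' i)) ∧
    ∀ J J', IsJ (i4 H) J → IsJ (i4 H') J' → ∀ x, Q.e (J x) = J' (P.e x)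

/-- the automorphism exchanging the two pairs of letters -/
def S_SW : Prop := ∀ (H : Type) [Group H], ∃ e : P4 H ≃* P4 H, (∀ h, e (i4 H h) = i4 H h) ∧
  ∀ b, e (l4 H (.inl b)) = l4 H (.inr b) ∧ e (l4 H (.inr b)) = l4 H (.inl b)

/-- conjugates `T J(u) T*` -/
noncomputable def cjg {H : Type} [Group H] (J : CR H →⋆ₐ[ℂ] CR (P4 H)) (i : Bool ⊕ Bool)
    (v : CR H) : CR (P4 H) := lc (l4 H i) * J v * star (lc (l4 H i))

/-- first change -/
def S_LA : Prop := ∀ (H : Type) [Group H] (w u : H) (w₁ u₁ : unitary (CR H)),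
  ¬ IsOfFinOrder u → w₁ * (lamC H w)⁻¹ ∈ DU H → u₁ * (lamC H u)⁻¹ ∈ DU H →
  ∃ Θ : TI (P4 H) (P4 H), (∀ i, Mt Θ (l4 H i) (l4 H i)) ∧
    ∀ J, IsJ (i4 H) J → (∀ x, Θ.e (J x) = J x) ∧
      Θ.e (lc (zz w u)) = J (w₁ : CR H) * (cjg J (.inl false) u₁ * cjg J (.inl true) u₁) *
        (cjg J (.inr false) (lc u) * cjg J (.inr true) (lc u))

/-- second change -/
def S_LB : Prop := ∀ (H : Type) [Group H] (w u : H) (u₁ : unitary (CR H)),
  ¬ IsOfFinOrder u → u₁ * (lamC H u)⁻¹ ∈ DU H →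
  ∃ (Θ : TI (P4 H) (P4 H)) (Y : unitary (CR (P4 H))), Y ∈ DU (P4 H) ∧
    (∀ i, Mt Θ (l4 H i) (l4 H i)) ∧
    ∀ J, IsJ (i4 H) J → (∀ x, Θ.e (J x) = J x) ∧
      Θ.e (lc (zz w u)) = (Y : CR (P4 H)) *
        (J (lc w) * (cjg J (.inl false) (lc u) * cjg J (.inl true) (lc u)) *
          (cjg J (.inr false) u₁ * cjg J (.inr true) u₁)) * star (Y : CR (P4 H))

/-- the base case -/
def S_BAS : Prop := ∀ (H : Type) [Group H] (c e : H), lamC H c ∈ DU H → ¬ IsOfFinOrder e →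
  ∃ Q : TI (P4 H) (P4 H), Q.e (lc (z0 1 e)) = lc (z0 c e) ∧ (∀ i, Mt Q (l4 H i) (l4 H i)) ∧
    ∀ J, IsJ (i4 H) J → ∀ x, Q.e (J x) = J x

/-- extension to the HNN extensions -/
def S_EXT : Prop := ∀ (H H' : Type) [Group H] [Group H'] (P : TI H H') (f : H) (f' : H')
  (z : P4 H) (z' : P4 H') (Q : TI (P4 H) (P4 H')) (Y : unitary (CR (P4 H'))),
  P.e (lc f) = lc f' → Y ∈ DU (P4 H') →
  Q.e (lc z) = (Y : CR (P4 H')) * lc z' * star (Y : CR (P4 H')) →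
  (∀ i, Mt Q (l4 H i) (l4 H' i)) →
  (∀ J J', IsJ (i4 H) J → IsJ (i4 H') J' → ∀ x, Q.e (J x) = J' (P.e x)) →
  ∀ (φ : Subgroup.zpowers (i4 H f) ≃* Subgroup.zpowers z)
    (φ' : Subgroup.zpowers (i4 H' f') ≃* Subgroup.zpowers z'),
  (φ ⟨i4 H f, Subgroup.mem_zpowers _⟩ : P4 H) = z →
  (φ' ⟨i4 H' f', Subgroup.mem_zpowers _⟩ : P4 H') = z' →
  ¬ IsOfFinOrder f → ¬ IsOfFinOrder f' →
  ∃ R : TI (HNNExtension (P4 H) _ _ φ) (HNNExtension (P4 H') _ _ φ'),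
    Mt R HNNExtension.t HNNExtension.t ∧
    (∀ i, Mt R (HNNExtension.of (l4 H i)) (HNNExtension.of (l4 H' i))) ∧
    ∀ J J', IsJ ((HNNExtension.of : P4 H →* HNNExtension (P4 H) _ _ φ).comp (i4 H)) J →
      IsJ ((HNNExtension.of : P4 H' →* HNNExtension (P4 H') _ _ φ').comp (i4 H')) J' →
      ∀ x, R.e (J x) = J' (P.e x)

/-! ### C. the Klein bottle -/

/-- exponential of a square root -/
def S_EXQ : Prop := ∀ (A : Type) [CStarAlgebra A] (x y : A), IsSelfAdjoint x →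
  IsSelfAdjoint y → Commute x y → x * x = y * y →
  NormedSpace.exp (Complex.I • x) =
    cfc Real.cos y + Complex.I • (x * cfc Real.sinc y)

/-! ### D. groups -/

/-- cyclic groups generated by elements of infinite order -/
def S_ZEQ : Prop := ∀ (G G' : Type) [Group G] [Group G'] (a : G) (b : G'),
  ¬ IsOfFinOrder a → ¬ IsOfFinOrder b →
  ∃ φ : Subgroup.zpowers a ≃* Subgroup.zpowers b, (φ ⟨a, Subgroup.mem_zpowers _⟩ : G') = b

/-- direct limits of sequences of groups -/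
def S_DL : Prop := ∀ (H : ℕ → Type) [∀ n, Group (H n)] (j : ∀ n, H n →* H (n + 1)),
  (∀ n, Function.Injective (j n)) → ∃ (G : Type) (_ : Group G) (ι : ∀ n, H n →* G),
    (∀ n, Function.Injective (ι n)) ∧ (∀ n h, ι (n + 1) (j n h) = ι n h) ∧
    ∀ g, ∃ n h, ι n h = g

/-- generation of the HNN extension -/
def S_GEN : Prop := ∀ (H : Type) [Group H] (f : H) (z : P4 H)
  (φ : Subgroup.zpowers (i4 H f) ≃* Subgroup.zpowers z),
  Subgroup.closure (Set.range ((HNNExtension.of : P4 H →* HNNExtension (P4 H) _ _ φ).comp (i4 H))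
    ∪ Set.range (fun i => (HNNExtension.of (l4 H i) : HNNExtension (P4 H) _ _ φ)) ∪
    {HNNExtension.t}) = ⊤

/-- the base group `H₀ = (ℤ[1/2] ⋊ ℤ) × ℤ[1/3]` -/
def S_H0 : Prop := ∃ (H : Type) (_ : Group H) (_ : Countable H) (a b f : H), TF H ∧
  b * a * b⁻¹ = a⁻¹ ∧ (∀ i j : ℤ, a ^ i * b ^ j = 1 → i = 0 ∧ j = 0) ∧ a ≠ 1 ∧ f ≠ 1 ∧
  PD 2 a ∧ PD 3 f ∧ (∀ i : ℤ, i ≠ 0 → ¬ PD 2 (f ^ i)) ∧ ¬ Pi2 H

/-- the words -/
abbrev Wd (H0 : Type) : Type := FreeGroup (H0 ⊕ ℕ × Option (Bool ⊕ Bool))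

/-- the letters -/
def lt {H0 : Type} (n : ℕ) (i : Option (Bool ⊕ Bool)) : Wd H0 := FreeGroup.of (.inr (n, i))

/-- the state after `n` steps -/
structure St (H0 : Type) [Group H0] (f c : H0) (n : ℕ) where
  H : Type
  H' : Type
  gH : Group H
  gH' : Group H'
  P : TI H H'
  b : H0 →* H
  b' : H0 →* H'
  ib : Function.Injective b
  ib' : Function.Injective b'
  ev : Wd H0 →* H
  ev' : Wd H0 →* H'
  eb : ∀ h, ev (FreeGroup.of (.inl h)) = b h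
  eb' : ∀ h, ev' (FreeGroup.of (.inl h)) = b' h
  sur : Function.Surjective ev
  sur' : Function.Surjective ev'
  kil : ∀ m i, n ≤ m → ev (lt m i) = 1
  kil' : ∀ m i, n ≤ m → ev' (lt m i) = 1
  mt : ∀ x, Mt P (ev x) (ev' x)
  fx : ∀ h, P.e (lc (b h)) = lc (b' h)
  cD : lamC H (b c) ∈ DU H
  cD' : lamC H' (b' c) ∈ DU H'
  tf : TF H
  tf' : TF H'
  np : ¬ Pi2 H'
  nf : ∀ i : ℤ, i ≠ 0 → ¬ PD 2 ((b' f) ^ i)

attribute [instance] St.gH St.gH'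

/-- `u`, or `c` if `u = 1` -/
noncomputable def orc {H : Type} [Group H] (c u : H) : H := by
  classical exact if u = 1 then c else u

/-- the relation of one step -/
def Rel {H E : Type} [Group H] [Group E] (j : H →* E) (f w u : H) : Prop :=
  ∃ t t2 t3 t4 t5 : E, t * j f * t⁻¹ = j w * (t2 * j u * t2⁻¹) * (t3 * j u * t3⁻¹) *
    (t4 * j u * t4⁻¹) * (t5 * j u * t5⁻¹)

/-- one step -/
structure Lk {H0 : Type} [Group H0] {f c : H0} {n : ℕ} (x y : Wd H0) (S : St H0 f c n)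
    (T : St H0 f c (n + 1)) where
  j : S.H →* T.H
  j' : S.H' →* T.H'
  ij : Function.Injective j
  ij' : Function.Injective j'
  mal : Mal j'
  bj : ∀ h, T.b h = j (S.b h)
  bj' : ∀ h, T.b' h = j' (S.b' h)
  ej : ∀ m i, m < n → T.ev (lt m i) = j (S.ev (lt m i))
  ej' : ∀ m i, m < n → T.ev' (lt m i) = j' (S.ev' (lt m i))
  rel : Rel j (S.b f) (S.ev x) (orc (S.b c) (S.ev y))
  rel' : Rel j' (S.b' f) (S.ev' x) (orc (S.b' c) (S.ev' y))
  cmp : ∀ J J', IsJ j J → IsJ j' J' → ∀ z, T.P.e (J z) = J' (S.P.e z)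

/-- the next state -/
def S_NXT : Prop := ∀ (H0 : Type) [Group H0] (f c : H0), f ≠ 1 → c ≠ 1 → ∀ (n : ℕ)
  (S : St H0 f c n) (x y : Wd H0), ∃ T : St H0 f c (n + 1), Nonempty (Lk x y S T)

/-- the first state -/
def S_FST : Prop := ∀ (H0 : Type) [Group H0] (f c e : H0), TF H0 → f ≠ 1 → c ≠ 1 → e ≠ 1 →
  lamC H0 c ∈ DU H0 → (∀ i : ℤ, i ≠ 0 → ¬ PD 2 (f ^ i)) → ¬ Pi2 H0 →
  ∃ S : St H0 f c 1, ∃ t t2 t3 : S.H,
    t * S.b f * t⁻¹ = (t2 * S.b e * t2⁻¹) * (t3 * S.b e * t3⁻¹)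

/-- the sequence of states -/
def S_SQ : Prop := ∀ (H0 : Type) [Group H0] (f c : H0) (p : ℕ → Wd H0 × Wd H0)
  (S1 : St H0 f c 1), (∀ (n : ℕ) (S : St H0 f c n) (x y : Wd H0), ∃ T : St H0 f c (n + 1),
    Nonempty (Lk x y S T)) → ∃ F : ∀ n, St H0 f c (n + 1), F 0 = S1 ∧
    ∀ n, Nonempty (Lk (p n).1 (p n).2 (F n) (F (n + 1)))

/-- an enumeration in which every pair occurs infinitely often -/
def S_ENU : Prop := ∀ (X : Type) [Countable X] [Nonempty X], ∃ p : ℕ → X, ∀ x n, ∃ m, n ≤ m ∧ p m = x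

/-- simplicity of the limit -/
def S_SIM : Prop := ∀ (H0 : Type) [Group H0] (f c : H0) (p : ℕ → Wd H0 × Wd H0),
  f ≠ 1 → (∀ x n, ∃ m, n ≤ m ∧ p m = x) → ∀ (F : ∀ n, St H0 f c (n + 1))
  (L : ∀ n, Lk (p n).1 (p n).2 (F n) (F (n + 1))),
  (∀ (G : Type) [Group G] (ι : ∀ n, (F n).H →* G), (∀ n, Function.Injective (ι n)) →
    (∀ n h, ι (n + 1) ((L n).j h) = ι n h) → (∀ g, ∃ n h, ι n h = g) → IsSimpleGroup G) ∧
  (∀ (G : Type) [Group G] (ι : ∀ n, (F n).H' →* G), (∀ n, Function.Injective (ι n)) →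
    (∀ n h, ι (n + 1) ((L n).j' h) = ι n h) → (∀ g, ∃ n h, ι n h = g) → IsSimpleGroup G)

/-- limits of malnormal inclusions -/
def S_NPL : Prop := ∀ (H : ℕ → Type) [∀ n, Group (H n)] (j : ∀ n, H n →* H (n + 1)),
  (∀ n, Function.Injective (j n)) → (∀ n, Mal (j n)) → (∀ n, ¬ Pi2 (H n)) → ∀ (G : Type) [Group G]
  (ι : ∀ n, H n →* G), (∀ n, Function.Injective (ι n)) → (∀ n h, ι (n + 1) (j n h) = ι n h) →
  (∀ g, ∃ n h, ι n h = g) → ¬ Pi2 G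

/-- the final form of the isomorphism -/
def S_FIN : Prop := ∀ (G G' : Type) [Group G] [Group G'], Nonempty (TI G G') →
  Nonempty
        (↥((StarAlgebra.adjoin ℂ
              {T : lp (fun _ : G => ℂ) 2 →L[ℂ] lp (fun _ : G => ℂ) 2 |
                ∃ g : G, ∀ (f : lp (fun _ : G => ℂ) 2) (h : G),
                  T f h = f (g⁻¹ * h)}).topologicalClosure)
          ≃⋆ₐ[ℂ]
         ↥((StarAlgebra.adjoin ℂ
              {T : lp (fun _ : G' => ℂ) 2 →L[ℂ] lp (fun _ : G' => ℂ) 2 |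
                ∃ g : G', ∀ (f : lp (fun _ : G' => ℂ) 2) (h : G'),
                  T f h = f (g⁻¹ * h)}).topologicalClosure))

end Pool.Agent.H678SG
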