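import Pool.Agent.H678SG.Stubs

/-! Statements of the tasks: trees and groups. -/

set_option autoImplicit false

namespace Pool.Agent.H678SG

/-! ### E. groups acting on trees -/

/-- action on a tree by automorphisms and without inversions -/
structure Act (E V : Type) [Group E] [MulAction E V] (T : SimpleGraph V) : Prop where
  tree : T.IsTree
  adj : ∀ (g : E) (v w : V), T.Adj v w → T.Adj (g • v) (g • w)
  inv : ∀ (g : E) (v w : V), T.Adj v w → ¬ (g • v = w ∧ g • w = v)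

/-- Serre's lemma -/
def S_GT1 : Prop := ∀ (E V : Type) [Group E] [MulAction E V] (T : SimpleGraph V), Act E V T →
  ∀ x y : E, (∃ v : V, x • v = v) → (∃ v : V, y • v = v) → (∃ v : V, (x * y) • v = v) →
  ∃ v : V, x • v = v ∧ y • v = v

/-- powers with a fixed vertex -/
def S_GT2 : Prop := ∀ (E V : Type) [Group E] [MulAction E V] (T : SimpleGraph V), Act E V T →
  ∀ (x : E) (n : ℕ), n ≠ 0 → (∃ v : V, x ^ n • v = v) → ∃ v : V, x • v = v

/-- divisible elements have a fixed vertex -/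
def S_GT3 : Prop := ∀ (E V : Type) [Group E] [MulAction E V] (T : SimpleGraph V), Act E V T →
  ∀ (p : ℕ) (x : E), 2 ≤ p → PD p x → ∃ v : V, x • v = v

/-- the normaliser of a translation preserves the axis -/
def S_GT4 : Prop := ∀ (E V : Type) [Group E] [MulAction E V] (T : SimpleGraph V), Act E V T →
  ∀ (q : ℤ → V), (∀ k, T.Adj (q k) (q (k + 1))) → (∀ k, q k ≠ q (k + 2)) →
  ∀ z : E, (∀ k, z • q k = q (k + 2)) → ∀ (g : E) (i j : ℤ), i ≠ 0 → g * z ^ i * g⁻¹ = z ^ j →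
  ∃ c : ℤ, (∀ k, g • q k = q (k + c)) ∨ (∀ k, g • q k = q (-k + c))

/-- the Bass–Serre tree of an HNN extension -/
def S_TREE : Prop := ∀ (G : Type) [Group G] (A B : Subgroup G) (φ : A ≃* B),
  ∃ (V : Type) (_ : MulAction (HNNExtension G A B φ) V) (T : SimpleGraph V) (v0 : V),
    Act (HNNExtension G A B φ) V T ∧ (∀ v, ∃ g : HNNExtension G A B φ, g • v0 = v) ∧
    (∀ g : HNNExtension G A B φ, g • v0 = v0 ↔ ∃ x, HNNExtension.of x = g) ∧
    ∀ w, T.Adj v0 w ↔ ∃ x : G, w = (HNNExtension.of x * HNNExtension.t :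
      HNNExtension G A B φ) • v0 ∨ w = (HNNExtension.of x * HNNExtension.t⁻¹ :
      HNNExtension G A B φ) • v0

/-- edge stabilisers -/
def S_EDG : Prop := ∀ (G : Type) [Group G] (A B : Subgroup G) (φ : A ≃* B) (x : G),
  ((∃ y, (HNNExtension.t⁻¹ * HNNExtension.of x * HNNExtension.t : HNNExtension G A B φ) =
    HNNExtension.of y) ↔ x ∈ B) ∧
  ((∃ y, (HNNExtension.t * HNNExtension.of x * HNNExtension.t⁻¹ : HNNExtension G A B φ) =
    HNNExtension.of y) ↔ x ∈ A)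

/-- Serre's lemma for HNN extensions -/
def S_T1 : Prop := ∀ (G : Type) [Group G] (A B : Subgroup G) (φ : A ≃* B)
  (x y : HNNExtension G A B φ), Con HNNExtension.of x → Con HNNExtension.of y →
  Con HNNExtension.of (x * y) → ∃ (g : HNNExtension G A B φ) (x' y' : G),
    x = g * HNNExtension.of x' * g⁻¹ ∧ y = g * HNNExtension.of y' * g⁻¹

/-- powers -/
def S_T2 : Prop := ∀ (G : Type) [Group G] (A B : Subgroup G) (φ : A ≃* B)
  (x : HNNExtension G A B φ) (n : ℕ), n ≠ 0 → Con HNNExtension.of (x ^ n) → Con HNNExtension.of x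

/-- divisible elements -/
def S_T3 : Prop := ∀ (G : Type) [Group G] (A B : Subgroup G) (φ : A ≃* B) (p : ℕ)
  (x : HNNExtension G A B φ), 2 ≤ p → PD p x → Con HNNExtension.of x

/-- `B` is malnormal and meets no conjugate of `A` -/
def Cnd {G : Type} [Group G] (A B : Subgroup G) : Prop :=
  (∀ b ∈ B, b ≠ 1 → ∀ g : G, g * b * g⁻¹ ∈ B → g ∈ B) ∧
  ∀ b ∈ B, b ≠ 1 → ∀ g : G, g * b * g⁻¹ ∉ A

/-- fixed sets are stars -/
def S_STAR : Prop := ∀ (G : Type) [Group G] (A B : Subgroup G) (φ : A ≃* B), Cnd A B →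
  ∀ x : G, x ≠ 1 → (∀ g, g * x * g⁻¹ ∉ B) → ∀ (g : HNNExtension G A B φ) (x' : G),
  (HNNExtension.of x : HNNExtension G A B φ) = g * HNNExtension.of x' * g⁻¹ →
  (∃ y, g = HNNExtension.of y) ∨ ∃ y y' : G, y⁻¹ * x * y ∈ A ∧
    g = HNNExtension.of y * HNNExtension.t⁻¹ * HNNExtension.of y'

/-- centralisers -/
def S_CEN : Prop := ∀ (G : Type) [Group G] (A B : Subgroup G) (φ : A ≃* B), Cnd A B →
  ∀ x : G, x ≠ 1 → (∀ g, g * x * g⁻¹ ∉ B) → ∀ y : HNNExtension G A B φ,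
  y * HNNExtension.of x = HNNExtension.of x * y → ∃ y', y = HNNExtension.of y'

/-- malnormality -/
def S_MALE : Prop := ∀ (H G : Type) [Group H] [Group G] (j : H →* G) (A B : Subgroup G)
  (φ : A ≃* B), Cnd A B → Function.Injective j → Mal j → (∀ b ∈ B, b ≠ 1 → ¬ Con j b) →
  Mal ((HNNExtension.of : G →* HNNExtension G A B φ).comp j)

/-- `H` is malnormal in `P4 H`, and `P2 H` as well -/
def S_M4 : Prop := ∀ (H : Type) [Group H], Function.Injective (i2 H) ∧ Function.Injective (i4 H) ∧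
  Mal (i2 H) ∧ Mal (i4 H)

/-- `P2 H` and `P4 H` are torsion-free -/
def S_TF4 : Prop := ∀ (H : Type) [Group H], TF H → TF (P2 H) ∧ TF (P4 H)

/-- divisible elements of `P4 H` -/
def S_FPD : Prop := ∀ (H : Type) [Group H] (p : ℕ) (x : P4 H), 2 ≤ p → x ≠ 1 → PD p x →
  ∃ (h : H) (g : P4 H), x = g * i4 H h * g⁻¹ ∧ PD p h

/-- Serre's lemma for `P4 H` -/
def S_FSE : Prop := ∀ (H : Type) [Group H] (x y : P4 H), Con (i4 H) x → Con (i4 H) y →
  Con (i4 H) (x * y) → x ≠ 1 → y ≠ 1 → x * y ≠ 1 → ∃ (g : P4 H) (x' y' : H),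
    x = g * i4 H x' * g⁻¹ ∧ y = g * i4 H y' * g⁻¹

/-- powers of the words are not products of two conjugates of elements of `H` -/
def S_Z1 : Prop := ∀ (H : Type) [Group H], TF H → ∀ z : P4 H,
  ((∃ w u : H, u ≠ 1 ∧ z = zz w u) ∨ (∃ c e : H, c ≠ 1 ∧ e ≠ 1 ∧ z = z0 c e)) →
  ∀ i : ℤ, i ≠ 0 → ∀ x y : P4 H, Con (i4 H) x → Con (i4 H) y → z ^ i ≠ x * y

/-- malnormality of `β t u t⁻¹` -/
def S_MAL : Prop := ∀ (G : Type) [Group G], TF G → ∀ b u : G, b ≠ 1 → u ≠ 1 → ∀ (g : PZ G) (i : ℤ),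
  i ≠ 0 → g * (HNNExtension.of b * (HNNExtension.t * HNNExtension.of u * HNNExtension.t⁻¹)) ^ i *
    g⁻¹ ∈ Subgroup.zpowers
      (HNNExtension.of b * (HNNExtension.t * HNNExtension.of u * HNNExtension.t⁻¹) : PZ G) →
  g ∈ Subgroup.zpowers
      (HNNExtension.of b * (HNNExtension.t * HNNExtension.of u * HNNExtension.t⁻¹) : PZ G)

/-- malnormality of the words -/
def S_MZ : Prop := ∀ (H : Type) [Group H], TF H → ∀ z : P4 H,
  ((∃ w u : H, u ≠ 1 ∧ z = zz w u) ∨ (∃ c e : H, c ≠ 1 ∧ e ≠ 1 ∧ z = z0 c e)) →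
  ∀ (g : P4 H) (i : ℤ), i ≠ 0 → g * z ^ i * g⁻¹ ∈ Subgroup.zpowers z → g ∈ Subgroup.zpowers z

end Pool.Agent.H678SG
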