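import Pool.Agent.H678SG.Stubs

set_option autoImplicit false

namespace Pool.Agent.H678SG.TBAS

open Pool.Agent.H678SG

theorem i2_inj (H : Type) [Group H] : Function.Injective (i2 H) := by
  intro x y h
  exact HNNExtension.of_injective _ (HNNExtension.of_injective _ h)

theorem lc_mul {G : Type} [Group G] (g h : G) : lc (g * h) = lc g * lc h := by
  unfold lc
  rw [map_mul]
  rfl

theorem t_BAS (hFL : S_FL) (hP2F : S_P2F) (hI : S_INJ) (hJU : S_JU) (hDUJ : S_DUJ) : S_BAS := by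
  intro H _ c e hc he
  obtain ⟨hJ1, hJ2, -⟩ := hJU
  obtain ⟨Θ, hΘ1, hΘ2⟩ := hFL H e he _ hc
  obtain ⟨Q, hQ, hQJ⟩ := hP2F (P2 H) (P2 H) Θ
  obtain ⟨J2, hJ2'⟩ := hI _ _ (i2 (P2 H)) (i2_inj _)
  obtain ⟨J1, hJ1'⟩ := hI _ _ (i2 H) (i2_inj _)
  have hz : ∀ g : P2 H, Q.e (lc (i2 (P2 H) g)) = J2 (Θ.e (lc g)) := by
    intro g
    have h1 : Q.e (J2 (lc g)) = J2 (Θ.e (lc g)) := hQJ J2 J2 hJ2' hJ2' (lc g)
    exact (congrArg Q.e (hJ2'.1 g).symm).trans h1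
  refine ⟨Q, ?_, ?_, ?_⟩
  · have h1 := (hΘ2 J1 hJ1').2
    have h2 : J1 (lamC H c : CR H) * lc (yy e) = lc (i2 H c * yy e) := by
      rw [lc_mul]
      exact congrArg (· * lc (yy e)) (hJ1'.1 c)
    have h3 : i2 H 1 * yy e = yy e := by rw [map_one, one_mul]
    have h4 : Q.e (lc (i2 (P2 H) (i2 H 1 * yy e))) = J2 (Θ.e (lc (i2 H 1 * yy e))) := hz _
    have h5 : Θ.e (lc (i2 H 1 * yy e)) = lc (i2 H c * yy e) := by
      rw [h3, h1, h2]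
    have h6 : J2 (Θ.e (lc (i2 H 1 * yy e))) = lc (i2 (P2 H) (i2 H c * yy e)) :=
      (congrArg J2 h5).trans (hJ2'.1 _)
    exact h4.trans h6
  · rintro (b | b)
    · obtain ⟨W, hW, hW2⟩ := hΘ1 b
      obtain ⟨D, hD, hD2⟩ := hDUJ _ _ _ J2 hJ2' W hW
      refine ⟨D, hD, ?_⟩
      have h1 : Q.e (lc (i2 (P2 H) (l2 H b))) = J2 (Θ.e (lc (l2 H b))) := hz _
      have h2 : J2 (Θ.e (lc (l2 H b))) = J2 ((W : CR (P2 H)) * lc (l2 H b)) :=
        congrArg J2 hW2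
      have h3 : J2 ((W : CR (P2 H)) * lc (l2 H b)) = J2 (W : CR (P2 H)) * J2 (lc (l2 H b)) :=
        map_mul J2 _ _
      have h4 : J2 (W : CR (P2 H)) * J2 (lc (l2 H b)) =
          (D : CR (P2 (P2 H))) * lc (i2 (P2 H) (l2 H b)) :=
        congrArg₂ (· * ·) hD2.symm (hJ2'.1 _)
      exact h1.trans (h2.trans (h3.trans h4))
    · refine ⟨1, one_mem _, ?_⟩
      have h1 : Q.e (lc (l2 (P2 H) b)) = lc (l2 (P2 H) b) := hQ b
      have h2 : (lc (l2 (P2 H) b) : CR (P2 (P2 H))) =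
          ((1 : unitary (CR (P2 (P2 H)))) : CR (P2 (P2 H))) * lc (l2 (P2 H) b) :=
        (one_mul _).symm
      exact h1.trans h2
  · intro J hJ x
    have e1 : J = J2.comp J1 := hJ1 _ _ _ _ _ hJ (hJ2 _ _ _ _ _ _ _ hJ1' hJ2')
    have e3 : J x = J2 (J1 x) := DFunLike.congr_fun e1 x
    have e4 : Q.e (J2 (J1 x)) = J2 (Θ.e (J1 x)) := hQJ J2 J2 hJ2' hJ2' (J1 x)
    have e5 : J2 (Θ.e (J1 x)) = J2 (J1 x) := congrArg J2 ((hΘ2 J1 hJ1').1 x)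
    exact (congrArg Q.e e3).trans (e4.trans (e5.trans e3.symm))

end Pool.Agent.H678SG.TBAS
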