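import Pool.Agent.H678SG.Stubs2

set_option autoImplicit false

namespace Pool.Agent.H678SG.TCEN

open Pool.Agent.H678SG

theorem t_CEN : S_STAR → S_CEN := by
  intro hS G _ A B φ hc x hx1 hx y hy
  have key : ∀ z : HNNExtension G A B φ,
      z * HNNExtension.of x = HNNExtension.of x * z →
      (∃ y, z = HNNExtension.of y) ∨ ∃ y y' : G,
        z = HNNExtension.of y * HNNExtension.t⁻¹ * HNNExtension.of y' := by
    intro z hz
    have h1 : (HNNExtension.of x : HNNExtension G A B φ) = z * HNNExtension.of x * z⁻¹ := by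
      rw [hz, mul_assoc, mul_inv_cancel, mul_one]
    rcases hS G A B φ hc x hx1 hx z x h1 with h | ⟨a, b, _, h⟩
    · exact Or.inl h
    · exact Or.inr ⟨a, b, h⟩
  let e : HNNExtension G A B φ →* Multiplicative ℤ :=
    HNNExtension.lift 1 (Multiplicative.ofAdd (1 : ℤ)) (by intro a; simp)
  have he : ∀ g : G, e (HNNExtension.of g) = 1 := by
    intro g
    simp [e]
  have het : e HNNExtension.t = Multiplicative.ofAdd (1 : ℤ) := by
    simp [e]
  rcases key y hy with h | ⟨a, b, hab⟩
  · exact h
  have hy' : y⁻¹ * HNNExtension.of x = HNNExtension.of x * y⁻¹ := by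
    have h2 : y * HNNExtension.of x * y⁻¹ = HNNExtension.of x := by
      rw [hy, mul_assoc, mul_inv_cancel, mul_one]
    calc y⁻¹ * HNNExtension.of x = y⁻¹ * (y * HNNExtension.of x * y⁻¹) := by rw [h2]
      _ = HNNExtension.of x * y⁻¹ := by group
  rcases key y⁻¹ hy' with ⟨c, hc'⟩ | ⟨c, d, hcd⟩
  · exact ⟨c⁻¹, by rw [map_inv, ← hc', inv_inv]⟩
  · exfalso
    have h3 := congrArg e hab
    have h4 := congrArg e hcd
    rw [map_mul, map_mul, map_inv, he, he, het] at h3
    rw [map_inv, map_mul, map_mul, map_inv, he, he, het, h3] at h4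
    have h5 := congrArg Multiplicative.toAdd h4
    simp at h5

end Pool.Agent.H678SG.TCEN
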