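import Pool.Agent.H678SG.Stubs

/-! Task COM: elements of the reduced group C*-algebra commute with the right translations. -/

set_option autoImplicit false

namespace Pool.Agent.H678SG.TCOM

open Pool.Agent.H667R2.FG (Ell permOp lam rho delta LG EltG tau)
open Pool.Agent.H667R2.FG.TL2

theorem t_COM : S_COM := by
  intro G _ x g
  have hle : CR G ≤ StarSubalgebra.centralizer ℂ (Set.range (rho (G := G))) := by
    refine StarSubalgebra.topologicalClosure_minimal ?_ ?_
    · refine StarAlgebra.adjoin_le ?_
      rintro _ ⟨h, rfl⟩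
      rw [SetLike.mem_coe, StarSubalgebra.mem_centralizer_iff]
      rintro _ ⟨k, rfl⟩
      exact ⟨(lam_rho h k).symm, by rw [star_rho]; exact (lam_rho h k⁻¹).symm⟩
    · rw [StarSubalgebra.coe_centralizer]
      exact Set.isClosed_centralizer _
  have h := hle x.2
  rw [StarSubalgebra.mem_centralizer_iff] at h
  exact ((h (rho g) ⟨g, rfl⟩).1).symm

end Pool.Agent.H678SG.TCOM
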