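import Pool.Agent.H678SG.Stubs

/-! Task DL: direct limits of sequences of groups. -/

set_option autoImplicit false

namespace Pool.Agent.H678SG.TDL

open Pool.Agent.H678SG

section

variable {H : ℕ → Type} [∀ n, Group (H n)] (j : ∀ n, H n →* H (n + 1))

/-- the composed maps `H m → H n` -/
noncomputable def jj (m n : ℕ) (h : m ≤ n) : H m →* H n :=
  Nat.leRecOn (C := fun n => H m →* H n) h (fun {k} g => (j k).comp g) (MonoidHom.id (H m))

theorem jj_self (m : ℕ) : jj j m m le_rfl = MonoidHom.id (H m) := Nat.leRecOn_self _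

theorem jj_succ (m n : ℕ) (h : m ≤ n) : jj j m (n + 1) (Nat.le_succ_of_le h) =
    (j n).comp (jj j m n h) := Nat.leRecOn_succ h _

theorem jj_trans (a b c : ℕ) (hab : a ≤ b) (hbc : b ≤ c) (x : H a) :
    jj j b c hbc (jj j a b hab x) = jj j a c (hab.trans hbc) x := by
  induction c, hbc using Nat.le_induction with
  | base => rw [jj_self]; rfl
  | succ n hn ih =>
    rw [jj_succ j b n hn, jj_succ j a n (hab.trans hn)]
    exact congrArg (j n) ih

theorem jj_inj (hj : ∀ n, Function.Injective (j n)) (m n : ℕ) (h : m ≤ n) :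
    Function.Injective (jj j m n h) := by
  induction n, h using Nat.le_induction with
  | base => rw [jj_self]; exact fun _ _ h => h
  | succ n hn ih =>
    rw [jj_succ j m n hn]
    exact (hj n).comp ih

end

theorem t_DL : S_DL := by
  intro H _ j hj
  have hds : DirectedSystem H (fun m n h => (jj j m n h : H m → H n)) :=
    ⟨fun m x => by rw [jj_self]; rfl, fun m n k h1 h2 x => jj_trans j _ _ _ _ _ x⟩
  let D := DirectLimit H (fun m n h => jj j m n h)
  refine ⟨D, inferInstance, fun n =>
    { toFun := fun h => (⟦⟨n, h⟩⟧ : D)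
      map_one' := (DirectLimit.one_def n).symm
      map_mul' := fun x y => (DirectLimit.mul_def n x y).symm }, ?_, ?_, ?_⟩
  · intro n
    exact DirectLimit.mk_injective _ (fun m n h => jj_inj j hj m n h) n
  · intro n h
    have h1 := DirectLimit.mk_apply (f := fun m n h => jj j m n h) n (n + 1) h (Nat.le_succ n)
    rw [jj_succ j n n le_rfl, jj_self] at h1
    exact h1
  · intro g
    obtain ⟨n, x, hx⟩ := DirectLimit.exists_eq_mk (fun m n h => jj j m n h) g
    exact ⟨n, x, hx.symm⟩

end Pool.Agent.H678SG.TDL
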