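import Pool.Agent.H678SG.Stubs

set_option autoImplicit false

namespace Pool.Agent.H678SG.TDUJ

open Pool.Agent.H678SG
open Pool.Agent.H667R2.FG (Ell permOp lam rho delta LG EltG tau)

theorem t_DUJ : S_DUJ := by
  intro G G' _ _ ι J hJ D hD
  obtain ⟨-, hiso, htr⟩ := hJ
  haveI : CompleteSpace (CR G) := (inferInstance : IsClosed (CR G : Set (Op G))).completeSpace_coe
  letI : NormedAlgebra ℚ (CR G) := NormedAlgebra.restrictScalars ℚ ℂ (CR G)
  letI : NormedAlgebra ℚ (CR G') := NormedAlgebra.restrictScalars ℚ ℂ (CR G')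
  let Js : CR G →⋆* CR G' :=
    { toFun := J, map_one' := map_one J, map_mul' := map_mul J, map_star' := map_star J }
  let Ju : unitary (CR G) →⋆* unitary (CR G') := Unitary.map Js
  refine ⟨Ju D, ?_, rfl⟩
  have hle : DU G ≤ (DU G').comap (Ju : unitary (CR G) →* unitary (CR G')) := by
    unfold DU
    rw [Subgroup.closure_le]
    rintro U ⟨k, hk, htk, hU⟩
    refine Subgroup.subset_closure ⟨J k, hk.map J, ?_, ?_⟩
    · rw [htr, htk]
    · show J (U : CR G) = _
      rw [hU, NormedSpace.map_exp J hiso.continuous, map_smul]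
  exact hle hD

end Pool.Agent.H678SG.TDUJ
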