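import Pool.Agent.H678SG.Stubs

set_option autoImplicit false

namespace Pool.Agent.H678SG.TDUN

open Pool.Agent.H678SG
open Pool.Agent.H667R2.FG (Ell permOp lam rho delta LG EltG tau)

theorem t_DUN (hT : S_TRC) : S_DUN := by
  intro G _
  obtain ⟨-, -, htr, -⟩ := hT G
  haveI : CompleteSpace (CR G) := (inferInstance : IsClosed (CR G : Set (Op G))).completeSpace_coe
  letI : NormedAlgebra ℚ (CR G) := NormedAlgebra.restrictScalars ℚ ℂ (CR G)
  have key : ∀ (V U : unitary (CR G)), U ∈ {U : unitary (CR G) | ∃ k : CR G,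
      IsSelfAdjoint k ∧ tr k = 0 ∧ (U : CR G) = NormedSpace.exp (Complex.I • k)} →
      V * U * V⁻¹ ∈ {U : unitary (CR G) | ∃ k : CR G,
      IsSelfAdjoint k ∧ tr k = 0 ∧ (U : CR G) = NormedSpace.exp (Complex.I • k)} := by
    rintro V U ⟨k, hk, htk, hU⟩
    refine ⟨(V : CR G) * k * star (V : CR G), ?_, ?_, ?_⟩
    · rw [IsSelfAdjoint, star_mul, star_mul, star_star, hk.star_eq, mul_assoc]
    · rw [htr, ← mul_assoc, Unitary.coe_star_mul_self, one_mul]
      exact htk
    · have h1 := NormedSpace.exp_units_conj (Unitary.toUnits V) (Complex.I • k)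
      have h2 : ((Unitary.toUnits V : (CR G)ˣ) : CR G) = (V : CR G) := rfl
      have h3 : (((Unitary.toUnits V)⁻¹ : (CR G)ˣ) : CR G) = star (V : CR G) := rfl
      rw [h2, h3] at h1
      rw [show Complex.I • ((V : CR G) * k * star (V : CR G)) =
        (V : CR G) * (Complex.I • k) * star (V : CR G) by
          rw [mul_smul_comm, smul_mul_assoc], h1, ← hU]
      rfl
  refine ⟨fun U hU V => ?_⟩
  unfold DU at hU ⊢
  induction hU using Subgroup.closure_induction with
  | mem x hx => exact Subgroup.subset_closure (key V x hx)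
  | one => rw [mul_one, mul_inv_cancel]; exact Subgroup.one_mem _
  | mul x y _ _ hx hy =>
    have : V * (x * y) * V⁻¹ = (V * x * V⁻¹) * (V * y * V⁻¹) := by group
    rw [this]
    exact Subgroup.mul_mem _ hx hy
  | inv x _ hx =>
    have : V * x⁻¹ * V⁻¹ = (V * x * V⁻¹)⁻¹ := by group
    rw [this]
    exact Subgroup.inv_mem _ hx

end Pool.Agent.H678SG.TDUN
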