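import Pool.Agent.H678SG.Stubs
set_option autoImplicit false
namespace Pool.Agent.H678SG.TDUT
open Pool.Agent.H678SG

theorem map_exp' {G G' : Type} [Group G] [Group G'] (P : TI G G') (x : CR G) :
    P.e (NormedSpace.exp x) = NormedSpace.exp (P.e x) := by
  let _ : NormedAlgebra ℚ (CR G) := NormedAlgebra.restrictScalars ℚ ℂ (CR G)
  let _ : NormedAlgebra ℚ (CR G') := NormedAlgebra.restrictScalars ℚ ℂ (CR G')
  exact NormedSpace.map_exp P.e (StarAlgEquiv.isometry P.e).continuous x

theorem t_DUT : S_DUT := by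
  intro G G' _ _ P
  have key : ∀ D ∈ DU G, (∃ D' ∈ DU G', (D' : CR G') = P.e (D : CR G)) := by
    intro D hD
    unfold DU at hD
    induction hD using Subgroup.closure_induction with
    | mem U hU =>
      obtain ⟨k, hk, htr, hU⟩ := hU
      have hmem : P.e (U : CR G) ∈ unitary (CR G') := by
        have h := U.2
        rw [Unitary.mem_iff] at h ⊢
        rw [← map_star, ← map_mul, ← map_mul, h.1, h.2, map_one]
        exact ⟨rfl, rfl⟩
      refine ⟨⟨P.e (U : CR G), hmem⟩, Subgroup.subset_closure ?_, rfl⟩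
      refine ⟨P.e k, ?_, ?_, ?_⟩
      · have : star (P.e k) = P.e k := by rw [← map_star, hk.star_eq]
        exact this
      · rw [P.tr_e, htr]
      · show P.e (U : CR G) = _
        rw [hU, map_exp', map_smul]
    | one => exact ⟨1, Subgroup.one_mem _, by simp⟩
    | mul U V _ _ hU hV =>
      obtain ⟨U', hU', eU⟩ := hU
      obtain ⟨V', hV', eV⟩ := hV
      refine ⟨U' * V', Subgroup.mul_mem _ hU' hV', ?_⟩
      show (U' : CR G') * (V' : CR G') = P.e ((U : CR G) * (V : CR G))
      rw [map_mul, eU, eV]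
    | inv U _ hU =>
      obtain ⟨U', hU', eU⟩ := hU
      refine ⟨U'⁻¹, Subgroup.inv_mem _ hU', ?_⟩
      show star (U' : CR G') = P.e (star (U : CR G))
      rw [map_star, eU]
  exact key

end Pool.Agent.H678SG.TDUT
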