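import Pool.Agent.H678SG.Stubs2

set_option autoImplicit false

namespace Pool.Agent.H678SG.TEDG

open Pool.Agent.H678SG HNNExtension

/-- edge stabilisers -/
theorem t_EDG : S_EDG := by
  intro G _ A B φ x
  refine ⟨⟨?_, ?_⟩, ⟨?_, ?_⟩⟩
  · rintro ⟨y, hy⟩
    by_contra hx
    let w : NormalWord.ReducedWord G A B :=
      ⟨1, [(-1, x), (1, 1)], by simp [hx]⟩
    have h1 : w.prod φ = (t⁻¹ * of x * t : HNNExtension G A B φ) := by
      simp [w, NormalWord.ReducedWord.prod, mul_assoc]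
    have h2 := ReducedWord.toList_eq_nil_of_mem_of_range φ w ⟨y, by rw [h1, hy]⟩
    simp [w] at h2
  · intro hx
    exact ⟨φ.symm ⟨x, hx⟩, (equiv_symm_eq_conj (φ := φ) ⟨x, hx⟩).symm⟩
  · rintro ⟨y, hy⟩
    by_contra hx
    let w : NormalWord.ReducedWord G A B :=
      ⟨1, [(1, x), (-1, 1)], by simp [hx]⟩
    have h1 : w.prod φ = (t * of x * t⁻¹ : HNNExtension G A B φ) := by
      simp [w, NormalWord.ReducedWord.prod, mul_assoc]
    have h2 := ReducedWord.toList_eq_nil_of_mem_of_range φ w ⟨y, by rw [h1, hy]⟩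
    simp [w] at h2
  · intro hx
    exact ⟨φ ⟨x, hx⟩, (equiv_eq_conj (φ := φ) ⟨x, hx⟩).symm⟩

end Pool.Agent.H678SG.TEDG
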