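import Pool.Agent.H678SG.Stubs

set_option autoImplicit false

namespace Pool.Agent.H678SG.TENU

theorem t_ENU : S_ENU := by
  intro X _ _
  obtain ⟨q, hq⟩ := exists_surjective_nat (X × ℕ)
  refine ⟨fun m => (q m).1, fun x n => ?_⟩
  by_contra hcon
  push Not at hcon
  -- the preimages of `(x, k)` are all `< n`
  have hsur : ∀ k : ℕ, ∃ m, q m = (x, k) := fun k => hq (x, k)
  choose r hr using hsur
  have hinj : Function.Injective r := by
    intro a b hab
    have h1 := hr a
    rw [hab, hr b] at h1
    exact (Prod.mk.inj h1).2.symm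
  have hlt : ∀ k, r k < n := by
    intro k
    by_contra hk
    exact hcon (r k) (not_lt.mp hk) (by simp [hr k])
  exact Set.infinite_range_of_injective hinj
    ((Set.finite_lt_nat n).subset (by rintro _ ⟨k, rfl⟩; exact hlt k))

end Pool.Agent.H678SG.TENU
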