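import Pool.Agent.H678SG.Stubs

set_option autoImplicit false

namespace Pool.Agent.H678SG.TEXQ

open Pool.Agent.H678SG Filter Topology

/-- power series and the functional calculus -/
theorem series {A : Type} [CStarAlgebra A] (y : A) (hy : IsSelfAdjoint y) (g : ℝ → ℝ)
    (hg : Continuous g) (a : ℕ → ℝ) (p : ℕ → ℕ) (hs : ∀ r : ℝ, Summable fun n => |a n| * |r| ^ p n)
    (h : ∀ t : ℝ, HasSum (fun n => a n * t ^ p n) (g t)) :
    HasSum (fun n => a n • y ^ p n) (cfc g y) := by
  set φ := cfcHom (R := ℝ) (a := y) (p := IsSelfAdjoint) hy with hφ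
  have hcont : Continuous φ := cfcHom_continuous hy
  set Y : C(spectrum ℝ y, ℝ) := ContinuousMap.restrict (spectrum ℝ y) (ContinuousMap.id ℝ) with hY
  have hφY : φ Y = y := cfcHom_id hy
  have hsum : Summable fun n => a n • Y ^ p n := by
    refine Summable.of_norm_bounded (hs ‖Y‖) fun n => ?_
    rw [norm_smul, Real.norm_eq_abs, abs_of_nonneg (norm_nonneg Y)]
    refine mul_le_mul_of_nonneg_left ?_ (abs_nonneg _)
    rcases Nat.eq_zero_or_pos (p n) with h0 | h0
    · rw [h0, pow_zero, pow_zero]
      rw [ContinuousMap.norm_le _ zero_le_one]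
      intro x
      simp
    · exact norm_pow_le' Y h0
  have hval : (∑' n, a n • Y ^ p n) = ⟨_, hg.continuousOn.domRestrict (s := spectrum ℝ y)⟩ := by
    ext k
    have h1 := hsum.hasSum.map (ContinuousMap.evalCLM ℝ k) (ContinuousMap.evalCLM ℝ k).continuous
    exact h1.unique (h k)
  have h2 := hsum.hasSum.map φ hcont
  rw [hval] at h2
  rw [cfc_apply g y hy hg.continuousOn]
  refine h2.congr_fun ?_
  intro n
  simp only [Function.comp_apply, map_smul, map_pow, hφY]

theorem cos_series {A : Type} [CStarAlgebra A] (y : A) (hy : IsSelfAdjoint y) :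
    HasSum (fun n : ℕ => ((-1 : ℝ) ^ n / ((2 * n).factorial : ℝ)) • y ^ (2 * n))
      (cfc Real.cos y) := by
  refine series y hy Real.cos Real.continuous_cos _ (fun n => 2 * n) ?_ ?_
  · intro r
    refine (Real.hasSum_cosh |r|).summable.congr fun n => ?_
    rw [abs_div, abs_pow, abs_neg, abs_one, one_pow, Nat.abs_cast]
    ring
  · intro t
    refine (Real.hasSum_cos t).congr_fun ?_
    intro n
    ring

theorem sinc_series {A : Type} [CStarAlgebra A] (y : A) (hy : IsSelfAdjoint y) :
    HasSum (fun n : ℕ => ((-1 : ℝ) ^ n / ((2 * n + 1).factorial : ℝ)) • y ^ (2 * n))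
      (cfc Real.sinc y) := by
  refine series y hy Real.sinc Real.continuous_sinc _ (fun n => 2 * n) ?_ ?_
  · intro r
    refine Summable.of_nonneg_of_le (fun n => by positivity) (fun n => ?_)
      (Real.hasSum_cosh |r|).summable
    rw [abs_div, abs_pow, abs_neg, abs_one, one_pow, Nat.abs_cast]
    have h1 : ((2 * n).factorial : ℝ) ≤ ((2 * n + 1).factorial : ℝ) := by
      exact_mod_cast Nat.factorial_le (by omega)
    have h2 : (0 : ℝ) < ((2 * n).factorial : ℝ) := by exact_mod_cast Nat.factorial_pos _
    rw [div_mul_eq_mul_div, one_mul]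
    exact div_le_div_of_nonneg_left (by positivity) h2 h1
  · intro t
    by_cases ht : t = 0
    · rw [ht, Real.sinc_zero]
      have := hasSum_single (f := fun n : ℕ => (-1 : ℝ) ^ n / ((2 * n + 1).factorial : ℝ) *
        (0 : ℝ) ^ (2 * n)) 0 (fun n hn => by
          rw [zero_pow (by omega), mul_zero])
      simpa using this
    · rw [Real.sinc_of_ne_zero ht]
      refine ((Real.hasSum_sin t).div_const t).congr_fun ?_
      intro n
      field_simp
      ring

theorem t_EXQ : S_EXQ := by
  intro A _ x y hx hy _ hxy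
  have hexp := NormedSpace.exp_series_hasSum_exp' (𝕂 := ℂ) (Complex.I • x)
  have hIx : (Complex.I • x) ^ 2 = -(y ^ 2) := by
    rw [smul_pow, Complex.I_sq, sq x, hxy, sq y, neg_smul, one_smul]
  have hcos := cos_series y hy
  have hsin := ((sinc_series y hy).mul_left x).const_smul Complex.I
  have key : HasSum (fun n : ℕ => ((n.factorial : ℂ)⁻¹) • (Complex.I • x) ^ n)
      (cfc Real.cos y + Complex.I • (x * cfc Real.sinc y)) := by
    refine HasSum.even_add_odd ?_ ?_
    · refine hcos.congr_fun ?_
      intro n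
      rw [pow_mul, hIx, neg_pow, ← pow_mul, ← Complex.coe_smul]
      push_cast
      rw [← neg_one_smul ℂ (1 : A)]
      simp only [smul_pow, one_pow, smul_mul_assoc, one_mul, smul_smul]
      congr 1
      ring
    · refine hsin.congr_fun ?_
      intro n
      rw [pow_succ', pow_mul, hIx, neg_pow, ← pow_mul, ← Complex.coe_smul]
      push_cast
      rw [← neg_one_smul ℂ (1 : A)]
      simp only [smul_pow, one_pow, smul_mul_assoc, mul_smul_comm, one_mul, smul_smul]
      congr 1
      ring
  exact hexp.unique key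

end Pool.Agent.H678SG.TEXQ
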