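import Pool.Agent.H678SG.Stubs

set_option autoImplicit false

namespace Pool.Agent.H678SG.TEXT

open Pool.Agent.H678SG

theorem i2_inj (H : Type) [Group H] : Function.Injective (i2 H) := by
  intro x y h
  exact HNNExtension.of_injective _ (HNNExtension.of_injective _ h)

theorem i4_inj (H : Type) [Group H] : Function.Injective (i4 H) :=
  (i2_inj (P2 H)).comp (i2_inj H)

theorem hom_zp {G M : Type} [Group G] [Group M] (a : G) (h1 h2 : Subgroup.zpowers a →* M)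
    (h : h1 ⟨a, Subgroup.mem_zpowers _⟩ = h2 ⟨a, Subgroup.mem_zpowers _⟩) : ∀ x, h1 x = h2 x := by
  rintro ⟨x, hx⟩
  obtain ⟨n, rfl⟩ := Subgroup.mem_zpowers_iff.1 hx
  have e : (⟨a ^ n, hx⟩ : Subgroup.zpowers a) = ⟨a, Subgroup.mem_zpowers _⟩ ^ n := by
    apply Subtype.ext
    simp
  rw [e, map_zpow, map_zpow, h]

/-- the homomorphism of unitary groups -/
noncomputable def UQ {G G' : Type} [Group G] [Group G'] (Q : TI G G') :
    unitary (CR G) →* unitary (CR G') where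
  toFun U := ⟨Q.e (U : CR G), by
    rw [Unitary.mem_iff]
    constructor
    · rw [← map_star, ← map_mul, (Unitary.mem_iff.1 U.2).1, map_one]
    · rw [← map_star, ← map_mul, (Unitary.mem_iff.1 U.2).2, map_one]⟩
  map_one' := Subtype.ext (by simp)
  map_mul' U V := Subtype.ext (by simp)

/-- general form, for an abstract pair of groups -/
theorem ext_gen (hH : S_HNNF) (hI : S_INJ) (hJU : S_JU) (hDUJ : S_DUJ) (hZ : S_ZEQ)
    (H H' K K' : Type) [Group H] [Group H'] [Group K] [Group K'] (P : TI H H') (i : H →* K)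
    (i' : H' →* K') (hi : Function.Injective i) (hi' : Function.Injective i') (f : H) (f' : H')
    (z : K) (z' : K') (Q : TI K K') (Y : unitary (CR K')) (hP : P.e (lc f) = lc f')
    (hY : Y ∈ DU K') (hz : Q.e (lc z) = (Y : CR K') * lc z' * star (Y : CR K'))
    (X : Type) (l : X → K) (l' : X → K') (hl : ∀ x, Mt Q (l x) (l' x))
    (hJc : ∀ J J', IsJ i J → IsJ i' J' → ∀ x, Q.e (J x) = J' (P.e x))
    (φ : Subgroup.zpowers (i f) ≃* Subgroup.zpowers z)
    (φ' : Subgroup.zpowers (i' f') ≃* Subgroup.zpowers z')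
    (hφ : (φ ⟨i f, Subgroup.mem_zpowers _⟩ : K) = z)
    (hφ' : (φ' ⟨i' f', Subgroup.mem_zpowers _⟩ : K') = z')
    (hf : ¬ IsOfFinOrder f) (hf' : ¬ IsOfFinOrder f') :
    ∃ R : TI (HNNExtension K _ _ φ) (HNNExtension K' _ _ φ'),
      Mt R HNNExtension.t HNNExtension.t ∧
      (∀ x, Mt R (HNNExtension.of (l x)) (HNNExtension.of (l' x))) ∧
      ∀ J J', IsJ ((HNNExtension.of : K →* HNNExtension K _ _ φ).comp i) J →
        IsJ ((HNNExtension.of : K' →* HNNExtension K' _ _ φ').comp i') J' →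
        ∀ x, R.e (J x) = J' (P.e x) := by
  obtain ⟨hJ1, hJ2, -⟩ := hJU
  have hf4 : ¬ IsOfFinOrder (i f) := fun h => hf (hi.isOfFinOrder_iff.1 h)
  have hf4' : ¬ IsOfFinOrder (i' f') := fun h => hf' (hi'.isOfFinOrder_iff.1 h)
  obtain ⟨α, hα⟩ := hZ K K' (i f) (i' f') hf4 hf4'
  have hα' : α ⟨i f, Subgroup.mem_zpowers _⟩ = ⟨i' f', Subgroup.mem_zpowers _⟩ :=
    Subtype.ext hα
  obtain ⟨J4, hJ4⟩ := hI _ _ i hi
  obtain ⟨K4, hK4⟩ := hI _ _ i' hi'
  have hQf : Q.e (lc (i f)) = lc (i' f') := by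
    have h1 := hJc J4 K4 hJ4 hK4 (lc f)
    rw [hJ4.1, hP, hK4.1] at h1
    exact h1
  have c1 : ∀ a : Subgroup.zpowers (i f), Q.e (lc (a : K)) = lc ((α a : _) : K') := by
    intro a
    have h1 := hom_zp (i f) ((UQ Q).comp ((lamC K).comp (Subgroup.subtype _)))
      ((lamC K').comp ((Subgroup.subtype _).comp α.toMonoidHom)) (by
        apply Subtype.ext
        change Q.e (lc (i f)) = lc ((α ⟨i f, Subgroup.mem_zpowers _⟩ : _) : K')
        rw [hα, hQf]) a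
    exact congrArg Subtype.val h1
  have c2 : ∀ a : Subgroup.zpowers (i f), Q.e (lc ((φ a : _) : K)) =
      (Y : CR K') * lc ((φ' (α a) : _) : K') * star (Y : CR K') := by
    intro a
    have h1 := hom_zp (i f)
      ((UQ Q).comp ((lamC K).comp ((Subgroup.subtype _).comp φ.toMonoidHom)))
      ((MulAut.conj Y).toMonoidHom.comp ((lamC K').comp ((Subgroup.subtype _).comp
        (φ'.toMonoidHom.comp α.toMonoidHom)))) (by
        apply Subtype.ext
        change Q.e (lc ((φ ⟨i f, Subgroup.mem_zpowers _⟩ : _) : K)) =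
          (Y : CR K') * lc ((φ' (α ⟨i f, Subgroup.mem_zpowers _⟩) : _) : K') *
            star (Y : CR K')
        rw [hφ, hα', hφ', hz]) a
    exact congrArg Subtype.val h1
  obtain ⟨R, hR⟩ := hH _ _ _ _ φ _ _ φ' α Q Y c1 c2
  obtain ⟨J, hJ⟩ := hI _ _ (HNNExtension.of : K →* HNNExtension K _ _ φ)
    (HNNExtension.of_injective _)
  obtain ⟨L, hL⟩ := hI _ _ (HNNExtension.of : K' →* HNNExtension K' _ _ φ')
    (HNNExtension.of_injective _)
  obtain ⟨hR1, hR2⟩ := hR J L hJ hL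
  refine ⟨R, ?_, ?_, ?_⟩
  · obtain ⟨D, hD, hD2⟩ := hDUJ _ _ _ L hL Y hY
    exact ⟨D, hD, by rw [hR2, hD2]⟩
  · intro x
    obtain ⟨W, hW, hW2⟩ := hl x
    obtain ⟨D, hD, hD2⟩ := hDUJ _ _ _ L hL W hW
    refine ⟨D, hD, ?_⟩
    rw [← hJ.1, hR1, hW2, map_mul, hL.1, hD2]
  · intro M M' hM hM' x
    have e1 : M = J.comp J4 := hJ1 _ _ _ _ _ hM (hJ2 _ _ _ _ _ _ _ hJ4 hJ)
    have e2 : M' = L.comp K4 := hJ1 _ _ _ _ _ hM' (hJ2 _ _ _ _ _ _ _ hK4 hL)
    have e3 : M x = J (J4 x) := DFunLike.congr_fun e1 x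
    have e4 : M' (P.e x) = L (K4 (P.e x)) := DFunLike.congr_fun e2 (P.e x)
    rw [e3, e4, hR1, hJc J4 K4 hJ4 hK4]

theorem t_EXT (hH : S_HNNF) (hI : S_INJ) (hJU : S_JU) (hDUJ : S_DUJ) (hZ : S_ZEQ) : S_EXT := by
  intro H H' _ _ P f f' z z' Q Y hP hY hz hl hJc φ φ' hφ hφ' hf hf'
  exact ext_gen hH hI hJU hDUJ hZ H H' (P4 H) (P4 H') P (i4 H) (i4 H') (i4_inj H) (i4_inj H') f f'
    z z' Q Y hP hY hz _ (l4 H) (l4 H') hl hJc φ φ' hφ hφ' hf hf'

end Pool.Agent.H678SG.TEXT
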