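import Pool.Agent.H678SG.Stubs

/-!
# The final form of the isomorphism
-/

set_option autoImplicit false

namespace Pool.Agent.H678SG.TFIN

open Pool.Agent.H678SG
open Pool.Agent.H667R2.FG (Ell permOp lam rho delta LG EltG tau)

/-- The set of the left translations is the range of the left regular representation. -/
theorem range_lam (G : Type) [Group G] :
    {T : lp (fun _ : G => ℂ) 2 →L[ℂ] lp (fun _ : G => ℂ) 2 |
      ∃ g : G, ∀ (f : lp (fun _ : G => ℂ) 2) (h : G), T f h = f (g⁻¹ * h)} =
    Set.range (lam : G → Op G) := by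
  ext T
  constructor
  · rintro ⟨g, hg⟩
    refine ⟨g, ?_⟩
    refine ContinuousLinearMap.ext (fun f => ?_)
    refine lp.ext (funext (fun h => ?_))
    rw [hg f h]
    rfl
  · rintro ⟨g, rfl⟩
    exact ⟨g, fun f h => rfl⟩

theorem t_FIN : S_FIN := by
  intro G G' _ _ hP
  obtain ⟨P⟩ := hP
  rw [range_lam G, range_lam G']
  exact ⟨P.e⟩

end Pool.Agent.H678SG.TFIN
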