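import Pool.Agent.H678SG.Stubs2

set_option autoImplicit false

namespace Pool.Agent.H678SG.TFPD

open Pool.Agent.H678SG

theorem pd_conj {G : Type} [Group G] {p : ℕ} {x : G} (h : PD p x) (g : G) :
    PD p (g * x * g⁻¹) := by
  intro n
  obtain ⟨y, hy⟩ := h n
  exact ⟨g * y * g⁻¹, by rw [conj_pow, hy]⟩

theorem step (hT : S_T3) (hC : S_CEN) (G : Type) [Group G] (p : ℕ) (x : PZ G) (hp : 2 ≤ p)
    (hx : x ≠ 1) (hd : PD p x) :
    ∃ (h : G) (g : PZ G), x = g * HNNExtension.of h * g⁻¹ ∧ PD p h ∧ h ≠ 1 := by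
  obtain ⟨h, g, hg⟩ := hT G ⊥ ⊥ (MulEquiv.refl _) p x hp hd
  have h1 : h ≠ 1 := by
    rintro rfl
    apply hx
    rw [hg]
    simp
  refine ⟨h, g, hg, ?_, h1⟩
  have hd' : PD p (HNNExtension.of h : PZ G) := by
    have := pd_conj hd g⁻¹
    rw [hg] at this
    have e : g⁻¹ * (g * HNNExtension.of h * g⁻¹) * g⁻¹⁻¹ = (HNNExtension.of h : PZ G) := by
      group
    rwa [e] at this
  intro n
  obtain ⟨y, hy⟩ := hd' n
  have hc : y * HNNExtension.of h = HNNExtension.of h * y := by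
    rw [← hy]
    exact (pow_succ' y _).symm.trans (pow_succ y _)
  obtain ⟨y', hy'⟩ := hC G ⊥ ⊥ (MulEquiv.refl _)
    ⟨fun b hb hb1 => absurd (Subgroup.mem_bot.1 hb) hb1,
     fun b hb hb1 => absurd (Subgroup.mem_bot.1 hb) hb1⟩ h h1
    (by
      intro g hg
      rw [Subgroup.mem_bot] at hg
      apply h1
      have := conj_eq_one_iff.1 hg
      exact this) y hc
  refine ⟨y', ?_⟩
  apply HNNExtension.of_injective (φ := MulEquiv.refl (⊥ : Subgroup G))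
  rw [map_pow]
  rw [← hy, hy']

theorem t_FPD : S_T3 → S_CEN → S_FPD := by
  intro hT hC H _ p x hp hx hd
  obtain ⟨x1, g1, e1, d1, n1⟩ := step hT hC _ p x hp hx hd
  obtain ⟨x2, g2, e2, d2, n2⟩ := step hT hC _ p x1 hp n1 d1
  obtain ⟨x3, g3, e3, d3, n3⟩ := step hT hC _ p x2 hp n2 d2
  obtain ⟨x4, g4, e4, d4, n4⟩ := step hT hC _ p x3 hp n3 d3
  refine ⟨x4, g1 * HNNExtension.of (g2 * HNNExtension.of (g3 * HNNExtension.of g4)), ?_, d4⟩
  rw [e1, e2, e3, e4]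
  simp only [i4, i2, MonoidHom.comp_apply, map_mul, map_inv, mul_inv_rev, mul_assoc]

end Pool.Agent.H678SG.TFPD
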