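import Pool.Agent.H678SG.Stubs2

/-! Task FSE (author helper234): Serre's lemma for `P4 H`. -/

set_option autoImplicit false

namespace Pool.Agent.H678SG.TFSE

open Pool.Agent.H678SG

/-- Serre's lemma for the homomorphism `j` -/
def FS {H G : Type} [Group H] [Group G] (j : H →* G) : Prop :=
  ∀ x y : G, Con j x → Con j y → Con j (x * y) → x ≠ 1 → y ≠ 1 → x * y ≠ 1 →
    ∃ (g : G) (x' y' : H), x = g * j x' * g⁻¹ ∧ y = g * j y' * g⁻¹

theorem mal_of (hM : S_MALE) (G : Type) [Group G] : Mal (HNNExtension.of : G →* PZ G) := by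
  have h := hM G G (MonoidHom.id G) ⊥ ⊥ (MulEquiv.refl (⊥ : Subgroup G))
    ⟨fun b hb hb1 => absurd (Subgroup.mem_bot.1 hb) hb1,
      fun b hb hb1 => absurd (Subgroup.mem_bot.1 hb) hb1⟩
    (fun a b h => h) (fun h h' g _ _ => ⟨g, rfl⟩)
    (fun b hb hb1 => absurd (Subgroup.mem_bot.1 hb) hb1)
  intro h1 h2 g h3 h4
  obtain ⟨x, hx⟩ := h h1 h2 g h3 h4
  exact ⟨x, hx⟩

theorem con_down (hM : S_MALE) {H G : Type} [Group H] [Group G] (j : H →* G) (x : PZ G) (x1 : G)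
    (g : PZ G) (hx : Con ((HNNExtension.of : G →* PZ G).comp j) x) (hx1 : x ≠ 1)
    (he : x = g * HNNExtension.of x1 * g⁻¹) : Con j x1 := by
  obtain ⟨h, k, hk⟩ := hx
  have hjh : j h ≠ 1 := by
    intro h0
    apply hx1
    rw [hk, MonoidHom.comp_apply, h0, map_one, mul_one, mul_inv_cancel]
  have h2 : (g⁻¹ * k) * (HNNExtension.of (j h) : PZ G) * (g⁻¹ * k)⁻¹ = HNNExtension.of x1 := by
    have h3 : g * HNNExtension.of x1 * g⁻¹ = k * (HNNExtension.of (j h) : PZ G) * k⁻¹ := by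
      rw [← he, hk]; rfl
    have h4 : (HNNExtension.of x1 : PZ G) = g⁻¹ * (g * HNNExtension.of x1 * g⁻¹) * g := by group
    rw [h4, h3]; group
  obtain ⟨k', hk'⟩ := mal_of hM G (j h) x1 (g⁻¹ * k) hjh h2
  refine ⟨h, k', ?_⟩
  rw [← hk', ← map_inv, ← map_mul, ← map_mul] at h2
  exact (HNNExtension.of_injective _ h2).symm

theorem step (hT : S_T1) (hM : S_MALE) {H G : Type} [Group H] [Group G] (j : H →* G)
    (hj : FS j) : FS ((HNNExtension.of : G →* PZ G).comp j) := by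
  intro x y hx hy hxy hx1 hy1 hxy1
  have hup : ∀ z : PZ G, Con ((HNNExtension.of : G →* PZ G).comp j) z →
      Con (HNNExtension.of : G →* PZ G) z := by
    rintro z ⟨h, g, hz⟩
    exact ⟨j h, g, hz⟩
  obtain ⟨g, x', y', e1, e2⟩ := hT G ⊥ ⊥ (MulEquiv.refl (⊥ : Subgroup G)) x y (hup x hx)
    (hup y hy) (hup _ hxy)
  have e3 : x * y = g * HNNExtension.of (x' * y') * g⁻¹ := by
    rw [e1, e2, map_mul]; group
  have n1 : x' ≠ 1 := by
    rintro rfl
    exact hx1 (by rw [e1]; simp)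
  have n2 : y' ≠ 1 := by
    rintro rfl
    exact hy1 (by rw [e2]; simp)
  have n3 : x' * y' ≠ 1 := by
    intro h
    exact hxy1 (by rw [e3, h]; simp)
  obtain ⟨g', x'', y'', f1, f2⟩ := hj x' y' (con_down hM j x x' g hx hx1 e1)
    (con_down hM j y y' g hy hy1 e2) (con_down hM j _ _ g hxy hxy1 e3) n1 n2 n3
  refine ⟨g * HNNExtension.of g', x'', y'', ?_, ?_⟩
  · rw [e1, f1, MonoidHom.comp_apply, map_mul, map_mul, map_inv]; group
  · rw [e2, f2, MonoidHom.comp_apply, map_mul, map_mul, map_inv]; group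

theorem t_FSE (hT : S_T1) (hM : S_MALE) : S_FSE := by
  intro H _
  have h0 : FS (MonoidHom.id H) := fun x y _ _ _ _ _ _ => ⟨1, x, y, by simp, by simp⟩
  have h4 := step hT hM _ (step hT hM _ (step hT hM _ (step hT hM _ h0)))
  intro x y hx hy hxy hx1 hy1 hxy1
  exact h4 x y hx hy hxy hx1 hy1 hxy1

end Pool.Agent.H678SG.TFSE
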