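import Pool.Agent.H678SG.Stubs

/-! Task GEN (author helper234): generation of the HNN extension. -/

set_option autoImplicit false

namespace Pool.Agent.H678SG.TGEN

open Pool.Agent.H678SG

theorem gen_two {H X : Type} [Group H] [Group X] (F : P2 H →* X) (S : Subgroup X)
    (h1 : ∀ h, F (i2 H h) ∈ S) (h2 : ∀ b, F (l2 H b) ∈ S) : ∀ x, F x ∈ S := by
  intro x
  induction x using HNNExtension.induction_on with
  | of y =>
    induction y using HNNExtension.induction_on with
    | of h => exact h1 h
    | t => exact h2 false
    | mul a b ha hb =>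
      rw [map_mul, map_mul]
      exact S.mul_mem ha hb
    | inv a ha =>
      rw [map_inv, map_inv]
      exact S.inv_mem ha
  | t => exact h2 true
  | mul a b ha hb =>
    rw [map_mul]
    exact S.mul_mem ha hb
  | inv a ha =>
    rw [map_inv]
    exact S.inv_mem ha

theorem t_GEN : S_GEN := by
  intro H _ f z φ
  rw [eq_top_iff]
  intro x _
  induction x using HNNExtension.induction_on with
  | of y =>
    refine gen_two (H := P2 H) HNNExtension.of _ (fun h => ?_) (fun b => ?_) y
    · refine gen_two ((HNNExtension.of : P4 H →* HNNExtension (P4 H) _ _ φ).comp (i2 (P2 H))) _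
        (fun h => ?_) (fun b => ?_) h
      · exact Subgroup.subset_closure (Or.inl (Or.inl ⟨h, rfl⟩))
      · exact Subgroup.subset_closure (Or.inl (Or.inr ⟨Sum.inl b, rfl⟩))
    · exact Subgroup.subset_closure (Or.inl (Or.inr ⟨Sum.inr b, rfl⟩))
  | t => exact Subgroup.subset_closure (Or.inr rfl)
  | mul a b ha hb => exact Subgroup.mul_mem _ (ha trivial) (hb trivial)
  | inv a ha => exact Subgroup.inv_mem _ (ha trivial)

end Pool.Agent.H678SG.TGEN
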