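import Pool.Agent.H678SG.Stubs
import Pool.Agent.H678SG.Stubs2

/-! Serre's lemma on trees. -/

set_option autoImplicit false

namespace Pool.Agent.H678SG.TGT1

variable {V : Type} {T : SimpleGraph V}

/-- at most one neighbour of `u` is closer to `v` -/
theorem closer_unique (hT : T.IsTree) {u v w w' : V} (h : T.Adj u w) (h' : T.Adj u w')
    (hd : T.dist w v < T.dist u v) (hd' : T.dist w' v < T.dist u v) : w = w' := by
  classical
  have key : ∀ {w : V} (h : T.Adj u w), T.dist w v < T.dist u v →
      ∃ p : T.Walk w v, (SimpleGraph.Walk.cons h p).IsPath := by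
    intro w h hd
    obtain ⟨p, hp⟩ := hT.1.exists_walk_length_eq_dist w v
    have hpp : p.IsPath := SimpleGraph.Walk.isPath_of_length_eq_dist p hp
    refine ⟨p, ?_⟩
    rw [SimpleGraph.Walk.cons_isPath_iff]
    refine ⟨hpp, fun hu => ?_⟩
    have h1 : T.dist u v ≤ (p.dropUntil u hu).length := SimpleGraph.dist_le _
    have h2 := p.length_dropUntil_le_length hu
    omega
  obtain ⟨p, hp⟩ := key h hd
  obtain ⟨p', hp'⟩ := key h' hd'
  have h1 : SimpleGraph.Walk.cons h p = SimpleGraph.Walk.cons h' p' :=
    congrArg Subtype.val (hT.isAcyclic.path_unique ⟨_, hp⟩ ⟨_, hp'⟩)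
  have h2 := congrArg SimpleGraph.Walk.snd h1
  simpa using h2

/-- a neighbour which is closer -/
theorem exists_closer (hT : T.IsTree) {u v : V} (hne : u ≠ v) :
    ∃ w, T.Adj u w ∧ T.dist u v = T.dist w v + 1 := by
  obtain ⟨p, hp⟩ := hT.1.exists_walk_length_eq_dist u v
  cases p with
  | nil => exact absurd rfl hne
  | @cons _ w _ h p =>
    refine ⟨w, h, ?_⟩
    rw [SimpleGraph.Walk.length_cons] at hp
    have h1 : T.dist w v ≤ p.length := SimpleGraph.dist_le _
    have h2 : T.dist u v ≤ T.dist u w + T.dist w v := hT.1.dist_triangle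
    have h3 : T.dist u w = 1 := SimpleGraph.dist_eq_one_iff_adj.2 h
    omega

theorem dist_step (hT : T.IsTree) {u w : V} (h : T.Adj u w) (v : V) :
    T.dist w v = T.dist u v + 1 ∨ T.dist u v = T.dist w v + 1 := by
  have h1 := hT.dist_eq_dist_add_one_of_adj v h
  rw [SimpleGraph.dist_comm (u := v) (v := u), SimpleGraph.dist_comm (u := v) (v := w)] at h1
  tauto

/-- paths with different directions at `q` can be concatenated -/
theorem concat (hT : T.IsTree) (p s : V) : ∀ (n : ℕ) (q q1 : V), T.dist q s = n → T.Adj q q1 →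
    T.dist q1 p < T.dist q p → T.dist q s < T.dist q1 s →
    T.dist q p + T.dist q s = T.dist p s := by
  intro n
  induction n with
  | zero =>
    intro q q1 h0 _ _ _
    have h1 : q = s := (hT.1.dist_eq_zero_iff).1 h0
    rw [h0, ← h1, SimpleGraph.dist_comm]
    simp
  | succ n ih =>
    intro q q1 hn hadj hq1 hs
    have hne : q ≠ s := by
      rintro rfl
      simp at hn
    obtain ⟨q2, hadj2, hd2⟩ := exists_closer hT hne
    have h12 : q2 ≠ q1 := by
      rintro rfl
      omega
    have h3 : T.dist q2 p = T.dist q p + 1 := by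
      rcases dist_step hT hadj2 p with h | h
      · exact h
      · exfalso
        exact h12 (closer_unique hT hadj2 hadj (by omega) hq1)
    have h4 := ih q2 q (by omega) hadj2.symm (by omega) (by omega)
    omega

theorem dist_smul {E : Type} [Group E] [MulAction E V]
    (hadj : ∀ (g : E) (v w : V), T.Adj v w → T.Adj (g • v) (g • w)) (hT : T.IsTree) (g : E)
    (a b : V) : T.dist (g • a) (g • b) = T.dist a b := by
  have key : ∀ (g : E) (a b : V), T.dist (g • a) (g • b) ≤ T.dist a b := by
    intro g a b
    obtain ⟨p, hp⟩ := hT.1.exists_walk_length_eq_dist a b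
    rw [← hp]
    have h1 := SimpleGraph.dist_le
      (p.map (⟨fun x => g • x, fun {a b} h => hadj g a b h⟩ : T →g T))
    simpa using h1
  apply le_antisymm (key g a b)
  have h1 := key g⁻¹ (g • a) (g • b)
  simpa using h1

theorem t_GT1 : S_GT1 := by
  intro E V _ _ T hact x y hx hy hxy
  have hT := hact.tree
  have hD := fun g a b => dist_smul (E := E) hact.adj hT g a b
  obtain ⟨r, hr⟩ := hxy
  -- minimal distance
  have hex : ∃ n : ℕ, ∃ p q : V, x • p = p ∧ y • q = q ∧ T.dist p q = n := by
    obtain ⟨p, hp⟩ := hx
    obtain ⟨q, hq⟩ := hy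
    exact ⟨T.dist p q, p, q, hp, hq, rfl⟩
  classical
  obtain ⟨p, q, hp, hq, hpq⟩ := Nat.find_spec hex
  have hmin : ∀ p' q' : V, x • p' = p' → y • q' = q' → T.dist p q ≤ T.dist p' q' := by
    intro p' q' hp' hq'
    rw [hpq]
    exact Nat.find_min' hex ⟨p', q', hp', hq', rfl⟩
  by_cases hne : p = q
  · exact ⟨p, hp, by rw [hne]; exact hq⟩
  exfalso
  have hr' : x • (y • r) = r := by rw [← mul_smul]; exact hr
  -- distances
  have d1 : T.dist q (y • r) = T.dist q r := by
    have := hD y q r
    rwa [hq] at this
  have d2 : T.dist p (y • r) = T.dist p r := by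
    have := hD x p (y • r)
    rw [hp, hr'] at this
    exact this.symm
  have hpos : 0 < T.dist p q := hT.1.pos_dist_of_ne hne
  -- at `q`
  have hq2 : T.dist q p + T.dist q r = T.dist p r := by
    obtain ⟨q1, hadj, hd⟩ := exists_closer hT (Ne.symm hne)
    rcases dist_step hT hadj r with h | h
    · exact concat hT p r _ q q1 rfl hadj (by omega) (by omega)
    · exfalso
      rcases dist_step hT hadj (y • r) with h' | h'
      · have h1 := concat hT p (y • r) _ q q1 rfl hadj (by omega) (by omega)
        have h2 : T.dist p r ≤ T.dist p q1 + T.dist q1 r := hT.1.dist_triangle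
        rw [SimpleGraph.dist_comm (u := p) (v := q1)] at h2
        omega
      · have h1 : T.dist (y • q1) (y • r) = T.dist q1 r := hD y q1 r
        have h2 : T.Adj q (y • q1) := by
          have := hact.adj y q q1 hadj
          rwa [hq] at this
        have h3 : y • q1 = q1 := closer_unique hT h2 hadj (v := y • r) (by omega) (by omega)
        have h4 := hmin p q1 hp h3
        rw [SimpleGraph.dist_comm (u := p) (v := q1), SimpleGraph.dist_comm (u := p) (v := q)]
          at h4
        omega
  -- at `p`
  have hp2 : T.dist p q + T.dist p r = T.dist q r := by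
    obtain ⟨p1, hadj, hd⟩ := exists_closer hT hne
    rcases dist_step hT hadj r with h | h
    · exact concat hT q r _ p p1 rfl hadj (by omega) (by omega)
    · exfalso
      rcases dist_step hT hadj (y • r) with h' | h'
      · have h1 := concat hT q (y • r) _ p p1 rfl hadj (by omega) (by omega)
        have h2 : T.dist q r ≤ T.dist q p1 + T.dist p1 r := hT.1.dist_triangle
        rw [SimpleGraph.dist_comm (u := q) (v := p1)] at h2
        omega
      · have h1 : T.dist (x • p1) (x • (y • r)) = T.dist p1 (y • r) := hD x p1 (y • r)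
        rw [hr'] at h1
        have h2 : T.Adj p (x • p1) := by
          have := hact.adj x p p1 hadj
          rwa [hp] at this
        have h3 : x • p1 = p1 := closer_unique hT h2 hadj (v := r) (by omega) (by omega)
        have h4 := hmin p1 q h3 hq
        omega
  rw [SimpleGraph.dist_comm (u := q) (v := p)] at hq2
  omega

end Pool.Agent.H678SG.TGT1
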