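import Pool.Agent.H678SG.Stubs2

set_option autoImplicit false

namespace Pool.Agent.H678SG.TGT4

open SimpleGraph

variable {V : Type} {T : SimpleGraph V}

/-- reachability along a line -/
theorem reach_line {H : SimpleGraph V} (q : ℤ → V) (a b : ℤ) (hab : a ≤ b)
    (h : ∀ l, a ≤ l → l < b → H.Adj (q l) (q (l + 1))) : H.Reachable (q a) (q b) := by
  revert h
  refine Int.le_induction (motive := fun b _ => (∀ l, a ≤ l → l < b → H.Adj (q l) (q (l + 1))) →
    H.Reachable (q a) (q b)) ?_ ?_ b hab
  · intro _
    exact Reachable.refl _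
  · intro n hn ih h
    exact (ih fun l h1 h2 => h l h1 (by omega)).trans (h n hn (by omega)).reachable

theorem bridge (hT : T.IsAcyclic) {u v : V} (h : T.Adj u v) :
    ¬ (T.deleteEdges {s(u, v)}).Reachable u v :=
  (isAcyclic_iff_forall_adj_isBridge.1 hT) h

/-- a line without backtracking in a tree is injective -/
theorem line_ne (hT : T.IsAcyclic) (q : ℤ → V) (h1 : ∀ k, T.Adj (q k) (q (k + 1)))
    (h2 : ∀ k, q k ≠ q (k + 2)) (n : ℕ) : 1 ≤ n → ∀ k : ℤ, q k ≠ q (k + n) := by
  induction n using Nat.strong_induction_on with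
  | _ n ih =>
    intro hn k hk
    rcases Nat.lt_or_ge n 3 with h3 | h3
    · interval_cases n
      · have := h1 k
        exact this.ne (by simpa using hk)
      · exact h2 k (by simpa using hk)
    · apply bridge hT (h1 k)
      have hd : ∀ a b : ℤ, k + 1 ≤ a → a < b → b ≤ k + n → q a ≠ q b := by
        intro a b ha hab hb
        have := ih (b - a).toNat (by omega) (by omega) a
        rw [Int.toNat_of_nonneg (by omega)] at this
        simpa using this
      have hr : (T.deleteEdges {s(q k, q (k + 1))}).Reachable (q (k + 1)) (q (k + n)) := by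
        apply reach_line q
        · omega
        · intro l hl hl'
          rw [deleteEdges_adj, Set.mem_singleton_iff]
          refine ⟨h1 l, ?_⟩
          rw [hk, Sym2.eq_iff]
          rintro (⟨h4, -⟩ | ⟨h4, h5⟩)
          · exact hd l (k + n) hl hl' le_rfl h4
          · rcases eq_or_lt_of_le hl with h6 | h6
            · subst h6
              exact hd (k + 1 + 1) (k + n) (by omega) (by omega) le_rfl h5
            · exact hd (k + 1) l le_rfl h6 hl'.le h4.symm
      rw [← hk] at hr
      exact hr.symm

theorem line_inj (hT : T.IsAcyclic) (q : ℤ → V) (h1 : ∀ k, T.Adj (q k) (q (k + 1)))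
    (h2 : ∀ k, q k ≠ q (k + 2)) : Function.Injective q := by
  intro a b hab
  by_contra hne
  rcases lt_or_gt_of_ne hne with h | h
  · apply line_ne hT q h1 h2 (b - a).toNat (by omega) a
    rw [Int.toNat_of_nonneg (by omega)]
    simpa using hab
  · apply line_ne hT q h1 h2 (a - b).toNat (by omega) b
    rw [Int.toNat_of_nonneg (by omega)]
    simpa using hab.symm

/-- a line all of whose edges are edges of another line -/
theorem line_unique (a b : ℤ → V) (ha : ∀ k, a k ≠ a (k + 2)) (hb : Function.Injective b)
    (h : ∀ k, ∃ l, s(a k, a (k + 1)) = s(b l, b (l + 1))) (l₀ : ℤ) (h0 : a 0 = b l₀)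
    (h1 : a 1 = b (l₀ + 1)) : ∀ k, a k = b (k + l₀) := by
  have up : ∀ k : ℕ, a k = b (k + l₀) ∧ a (k + 1) = b (k + 1 + l₀) := by
    intro k
    induction k with
    | zero =>
      refine ⟨by simpa using h0, ?_⟩
      simp only [Nat.cast_zero, zero_add]
      rw [h1, add_comm]
    | succ k ih =>
      obtain ⟨i1, i2⟩ := ih
      refine ⟨by simpa using i2, ?_⟩
      obtain ⟨m, hm⟩ := h (k + 1)
      rw [Sym2.eq_iff] at hm
      rcases hm with ⟨h3, h4⟩ | ⟨h3, h4⟩
      · have : m = k + 1 + l₀ := hb (by rw [← h3, i2])
        push_cast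
        rw [h4, this]
        congr 1
        ring
      · exfalso
        have : m + 1 = k + 1 + l₀ := hb (by rw [← h3, i2])
        have h5 : m = k + l₀ := by omega
        rw [h5, ← i1] at h4
        apply ha k
        rw [← h4]
        congr 1
  have down : ∀ k : ℕ, a (-k) = b (-k + l₀) ∧ a (-k + 1) = b (-k + 1 + l₀) := by
    intro k
    induction k with
    | zero =>
      refine ⟨by simpa using h0, ?_⟩
      simp only [Nat.cast_zero, neg_zero, zero_add]
      rw [h1, add_comm]
    | succ k ih =>
      obtain ⟨i1, i2⟩ := ih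
      have e1 : (-((k + 1 : ℕ) : ℤ)) + 1 = -k := by push_cast; ring
      rw [e1]
      refine ⟨?_, i1⟩
      obtain ⟨m, hm⟩ := h (-((k + 1 : ℕ) : ℤ))
      rw [e1, Sym2.eq_iff] at hm
      rcases hm with ⟨h3, h4⟩ | ⟨h3, h4⟩
      · have : m + 1 = -k + l₀ := hb (by rw [← h4, i1])
        rw [h3]
        congr 1
        push_cast
        omega
      · exfalso
        have : m = -k + l₀ := hb (by rw [← h4, i1])
        apply ha (-((k + 1 : ℕ) : ℤ))
        rw [h3, this]
        have e2 : (-((k + 1 : ℕ) : ℤ)) + 2 = -k + 1 := by push_cast; ring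
        rw [e2, i2]
        congr 1
        ring
  intro k
  rcases le_total 0 k with hk | hk
  · have := (up k.toNat).1
    rwa [Int.toNat_of_nonneg hk] at this
  · have := (down (-k).toNat).1
    rwa [Int.toNat_of_nonneg (by omega), neg_neg] at this

/-- translates of walks -/
theorem reach_walk {E : Type} [Group E] [MulAction E V] (hadj : ∀ (g : E) (v w : V),
    T.Adj v w → T.Adj (g • v) (g • w)) (h : E) (e : Sym2 V) {u v : V} (p : T.Walk u v)
    (hp : ∀ f ∈ p.edges, Sym2.map (fun x => h • x) f ≠ e) :
    (T.deleteEdges {e}).Reachable (h • u) (h • v) := by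
  induction p with
  | nil => exact Reachable.refl _
  | cons hd p ih =>
    refine Reachable.trans ?_ (ih fun f hf => hp f ?_)
    · apply Adj.reachable
      rw [deleteEdges_adj, Set.mem_singleton_iff]
      refine ⟨hadj _ _ _ hd, ?_⟩
      have := hp s(_, _) (by rw [Walk.edges_cons]; exact List.mem_cons_self)
      simpa using this
    · rw [Walk.edges_cons]
      exact List.mem_cons_of_mem _ hf

/-- iterates of a translation -/
theorem transl {E : Type} [Group E] [MulAction E V] (z : E) (q : ℤ → V) (d : ℤ)
    (hz : ∀ k, z • q k = q (k + d)) (n : ℤ) : ∀ k, z ^ n • q k = q (k + d * n) := by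
  have up : ∀ n : ℕ, ∀ k, z ^ n • q k = q (k + d * n) := by
    intro n
    induction n with
    | zero => intro k; simp
    | succ n ih =>
      intro k
      rw [pow_succ, mul_smul, hz, ih]
      congr 1
      push_cast
      ring
  intro k
  rcases le_total 0 n with hn | hn
  · obtain ⟨m, rfl⟩ := Int.eq_ofNat_of_zero_le hn
    rw [zpow_natCast]
    exact up m k
  · obtain ⟨m, hm⟩ := Int.eq_ofNat_of_zero_le (show 0 ≤ -n by omega)
    have hn' : n = -(m : ℤ) := by omega
    subst hn'
    rw [zpow_neg, zpow_natCast, inv_smul_eq_iff, up m]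
    congr 1
    ring

theorem t_GT4 : S_GT4 := by
  intro E V _ _ T hA q hq1 hq2 z hz g i j hi hg
  have hac : T.IsAcyclic := hA.tree.isAcyclic
  have hqi : Function.Injective q := line_inj hac q hq1 hq2
  set r : ℤ → V := fun k => g • q k with hr
  have hr1 : ∀ k, T.Adj (r k) (r (k + 1)) := fun k => hA.adj g _ _ (hq1 k)
  have hri : Function.Injective r := (MulAction.injective g).comp hqi
  have hzq := transl z q 2 hz
  have hj : j ≠ 0 := by
    rintro rfl
    rw [zpow_zero] at hg
    have h1 : z ^ i = 1 := by
      have : g * z ^ i = g := by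
        have := mul_inv_eq_one.1 hg
        exact this
      simpa using this
    have h2 := hzq i 0
    rw [h1, one_smul] at h2
    have := hqi h2
    omega
  have hzr1 : ∀ k, z ^ j • r k = r (k + 2 * i) := by
    intro k
    rw [← hg, hr]
    simp only [mul_smul, inv_smul_smul]
    rw [hzq]
  have hzr := transl (z ^ j) r (2 * i) hzr1
  have hzq' : ∀ n k, (z ^ j) ^ n • q k = q (k + 2 * j * n) := by
    refine transl (z ^ j) q (2 * j) ?_
    exact hzq j
  obtain ⟨P⟩ : T.Reachable (q 0) (r 0) := hA.tree.connected.preconnected _ _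
  -- every edge of the first line is an edge of the second one
  have hedge : ∀ k, ∃ l, s(q k, q (k + 1)) = s(r l, r (l + 1)) := by
    intro k
    by_contra hcon
    push Not at hcon
    set e : Sym2 V := s(q k, q (k + 1)) with he
    set bad : Set ℤ := {n | ∃ f ∈ P.edges, Sym2.map (fun x => (z ^ j) ^ n • x) f = e} with hbad
    have hfin : bad.Finite := by
      have : bad = ⋃ f ∈ {f | f ∈ P.edges}, {n | Sym2.map (fun x => (z ^ j) ^ n • x) f = e} := by
        ext n
        simp [hbad]
      rw [this]
      refine Set.Finite.biUnion (List.finite_toSet P.edges) fun f _ => ?_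
      apply Set.Subsingleton.finite
      intro n hn m hm
      simp only [Set.mem_setOf_eq] at hn hm
      have h1 : Sym2.map (fun x => (z ^ j) ^ (m - n) • x) e = e := by
        conv_lhs => rw [← hn]
        rw [Sym2.map_map]
        conv_rhs => rw [← hm]
        congr 1
        funext x
        simp only [Function.comp]
        rw [← mul_smul, ← zpow_add]
        congr 2
        ring
      rw [he, Sym2.map_mk, hzq', hzq', Sym2.eq_iff] at h1
      rcases h1 with ⟨h2, -⟩ | ⟨h2, h3⟩
      · have h4 := hqi h2
        have h5 : 2 * j * (m - n) = 0 := by omega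
        rcases mul_eq_zero.1 h5 with h6 | h6
        · omega
        · omega
      · have h4 := hqi h2
        have h5 := hqi h3
        omega
    obtain ⟨B, hB⟩ := hfin.bddAbove
    obtain ⟨B', hB'⟩ := hfin.bddBelow
    -- the times
    have key : ∀ n ∉ bad, (T.deleteEdges {e}).Reachable (q (2 * j * n)) (r (2 * i * n)) := by
      intro n hn
      have := reach_walk hA.adj ((z ^ j) ^ n) e P (fun f hf h => hn ⟨f, hf, h⟩)
      rw [hzq', hzr, zero_add, zero_add] at this
      exact this
    have hrr : ∀ a b, (T.deleteEdges {e}).Reachable (r a) (r b) := by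
      have : ∀ a b, a ≤ b → (T.deleteEdges {e}).Reachable (r a) (r b) := by
        intro a b hab
        refine reach_line r a b hab fun l _ _ => ?_
        rw [deleteEdges_adj, Set.mem_singleton_iff]
        exact ⟨hr1 l, fun h => hcon l h.symm⟩
      intro a b
      rcases le_total a b with h | h
      · exact this a b h
      · exact (this b a h).symm
    set M : ℤ := |B| + |B'| + |k| + 2 with hM
    have hB1 := le_abs_self B
    have hB2 := abs_nonneg B
    have hB3 := neg_abs_le B'
    have hB4 := abs_nonneg B'
    have hk1 := le_abs_self k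
    have hk2 := neg_abs_le k
    have hk3 := abs_nonneg k
    have hn1 : ∀ n, M ≤ |n| → n ∉ bad := by
      intro n hn hb
      have h1 := hB hb
      have h2 := hB' hb
      rcases abs_cases n with ⟨h3, _⟩ | ⟨h3, _⟩ <;> omega
    have hjj : 1 ≤ j * j := by
      have : 0 < j * j := mul_self_pos.2 hj
      omega
    have hj1 : 1 ≤ |j| := Int.one_le_abs hj
    have hM0 : 0 ≤ M := by omega
    have hMj : M ≤ |j * M| := by
      rw [abs_mul, abs_of_nonneg hM0]
      nlinarith
    have hMj' : M ≤ |-(j * M)| := by rwa [abs_neg]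
    have hp1 : M ≤ 2 * j * (j * M) := by nlinarith
    have hp2 : 2 * j * (-(j * M)) ≤ -M := by nlinarith
    have hleft : (T.deleteEdges {e}).Reachable (q (2 * j * (-(j * M)))) (q k) := by
      refine reach_line q _ _ (by omega) fun l _ hl => ?_
      rw [deleteEdges_adj, Set.mem_singleton_iff, he, Sym2.eq_iff]
      refine ⟨hq1 l, ?_⟩
      rintro (⟨h1, -⟩ | ⟨h1, h2⟩)
      · have := hqi h1; omega
      · have := hqi h1; omega
    have hright : (T.deleteEdges {e}).Reachable (q (k + 1)) (q (2 * j * (j * M))) := by
      refine reach_line q _ _ (by omega) fun l hl _ => ?_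
      rw [deleteEdges_adj, Set.mem_singleton_iff, he, Sym2.eq_iff]
      refine ⟨hq1 l, ?_⟩
      rintro (⟨h1, -⟩ | ⟨h1, h2⟩)
      · have := hqi h1; omega
      · have := hqi h2; omega
    apply bridge hac (hq1 k)
    refine hleft.symm.trans ((key _ (hn1 _ hMj')).trans ((hrr _ _).trans
      ((key _ (hn1 _ hMj)).symm.trans hright.symm)))
  obtain ⟨l, hl⟩ := hedge 0
  rw [Sym2.eq_iff, zero_add] at hl
  rcases hl with ⟨h1, h2⟩ | ⟨h1, h2⟩
  · have h3 := line_unique q r hq2 hri hedge l h1 h2
    refine ⟨-l, Or.inl fun k => ?_⟩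
    have := h3 (k + -l)
    rw [this]
    change r k = _
    congr 1
    ring
  · set r' : ℤ → V := fun k => r (-k) with hr'
    have hri' : Function.Injective r' := hri.comp neg_injective
    have hedge' : ∀ k, ∃ l, s(q k, q (k + 1)) = s(r' l, r' (l + 1)) := by
      intro k
      obtain ⟨l, hl⟩ := hedge k
      refine ⟨-l - 1, ?_⟩
      rw [hl, Sym2.eq_swap]
      have e1 : r' (-l - 1) = r (l + 1) := by
        rw [hr']; simp only; congr 1; ring
      have e2 : r' (-l - 1 + 1) = r l := by
        rw [hr']; simp only; congr 1; ring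
      rw [e1, e2]
    have e3 : q 0 = r' (-l - 1) := by
      rw [h1, hr']; simp only; congr 1; ring
    have e4 : q 1 = r' (-l - 1 + 1) := by
      rw [h2, hr']; simp only; congr 1; ring
    have h3 := line_unique q r' hq2 hri' hedge' (-l - 1) e3 e4
    refine ⟨l + 1, Or.inr fun k => ?_⟩
    have := h3 (-k + (l + 1))
    rw [this]
    change r k = r _
    congr 1
    ring

end Pool.Agent.H678SG.TGT4
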