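import Pool.Agent.H678SG.Stubs

set_option autoImplicit false

namespace Pool.Agent.H678SG.TH0

/-- rationals whose denominator divides a power of `p` -/
def A (p : ℕ) : AddSubgroup ℚ where
  carrier := {x | ∃ (n : ℕ) (k : ℤ), x * (p : ℚ) ^ n = k}
  zero_mem' := ⟨0, 0, by simp⟩
  add_mem' := by
    rintro x y ⟨n, k, h⟩ ⟨m, l, h'⟩
    refine ⟨n + m, k * p ^ m + l * p ^ n, ?_⟩
    push_cast
    rw [← h, ← h']
    ring
  neg_mem' := by
    rintro x ⟨n, k, h⟩
    exact ⟨n, -k, by push_cast; rw [← h]; ring⟩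

theorem dvd_all {q : ℕ} (hq : 2 ≤ q) {k : ℤ} (h : ∀ n : ℕ, ((q : ℤ) ^ n) ∣ k) : k = 0 := by
  by_contra hk
  have h2 := h k.natAbs
  have h3 : q ^ k.natAbs ∣ k.natAbs := by
    have := Int.natAbs_dvd_natAbs.mpr h2
    rwa [Int.natAbs_pow, Int.natAbs_natCast] at this
  have h4 := Nat.le_of_dvd (Int.natAbs_pos.mpr hk) h3
  have h5 : k.natAbs < q ^ k.natAbs := Nat.lt_pow_self (by omega)
  omega

theorem div_all {p q : ℕ} (hp : 1 ≤ p) (hq : 2 ≤ q) (hc : Nat.Coprime q p) {x : A p}
    (h : ∀ n : ℕ, ∃ y : A p, (q ^ n : ℕ) • y = x) : x = 0 := by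
  obtain ⟨x, hx⟩ := x
  obtain ⟨m, k, hk⟩ := hx
  have hk0 : k = 0 := by
    apply dvd_all hq
    intro n
    obtain ⟨⟨y, hy'⟩, hyx⟩ := h n
    have hyx' : (q ^ n : ℕ) • y = x := congrArg Subtype.val hyx
    obtain ⟨l, k', hy⟩ := hy'
    have h1 : ((q : ℤ) ^ n) * (k' * p ^ m) = k * p ^ l := by
      have : ((q : ℚ) ^ n) * (k' * p ^ m) = k * p ^ l := by
        rw [← hk, ← hy, ← hyx', nsmul_eq_mul]
        push_cast
        ring
      exact_mod_cast this
    have h2 : ((q : ℤ) ^ n) ∣ k * p ^ l := ⟨_, h1.symm⟩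
    have hco : IsCoprime ((q : ℤ) ^ n) ((p : ℤ) ^ l) := (Nat.isCoprime_iff_coprime.mpr hc).pow
    exact hco.dvd_of_dvd_mul_right h2
  rw [hk0, Int.cast_zero] at hk
  have hp' : (p : ℚ) ^ m ≠ 0 := pow_ne_zero _ (by positivity)
  have : x = 0 := (mul_eq_zero.mp hk).resolve_right hp'
  exact Subtype.ext this

/-- `1 / p ^ n` -/
def ip (p : ℕ) (hp : 1 ≤ p) (n : ℕ) : A p :=
  ⟨1 / (p : ℚ) ^ n, n, 1, by
    have hp' : (p : ℚ) ^ n ≠ 0 := pow_ne_zero _ (by positivity)
    field_simp
    simp⟩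

theorem ip_spec (p : ℕ) (hp : 1 ≤ p) (n : ℕ) : (p ^ n : ℕ) • ip p hp n = ip p hp 0 := by
  apply Subtype.ext
  have hp' : (p : ℚ) ^ n ≠ 0 := pow_ne_zero _ (by positivity)
  change (p ^ n : ℕ) • (1 / (p : ℚ) ^ n) = 1 / (p : ℚ) ^ 0
  rw [nsmul_eq_mul]
  push_cast
  field_simp

theorem smul_ip {p : ℕ} {hp : 1 ≤ p} {i : ℤ} (h : i • ip p hp 0 = 0) : i = 0 := by
  have := congrArg Subtype.val h
  change i • (1 / (p : ℚ) ^ 0) = 0 at this
  simpa using this

theorem ip_ne (p : ℕ) (hp : 1 ≤ p) : ip p hp 0 ≠ 0 := by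
  intro h
  have := smul_ip (i := 1) (by rw [h, smul_zero])
  exact one_ne_zero this

/-- the action -/
def φ : Multiplicative ℤ →* MulAut (Multiplicative (A 2)) :=
  zpowersHom _ (MulEquiv.inv (Multiplicative (A 2)))

/-- `ℤ[1/2] ⋊ ℤ` -/
abbrev K : Type := Multiplicative (A 2) ⋊[φ] Multiplicative ℤ

/-- the group -/
abbrev H : Type := K × Multiplicative (A 3)

/-- the second coordinate -/
def mH : H →* Multiplicative ℤ := SemidirectProduct.rightHom.comp (MonoidHom.fst _ _)

/-- the third coordinate -/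
def rH : H →* Multiplicative (A 3) := MonoidHom.snd _ _

/-- the inclusion of the first coordinate -/
def jH : Multiplicative (A 2) →* H :=
  (MonoidHom.inl K (Multiplicative (A 3))).comp SemidirectProduct.inl

theorem jH_inj : Function.Injective jH := by
  intro x y h
  have h1 : (SemidirectProduct.inl x : K) = SemidirectProduct.inl y := congrArg Prod.fst h
  exact SemidirectProduct.inl_injective h1

theorem exists_jH {x : H} (h1 : mH x = 1) (h2 : rH x = 1) : ∃ q, x = jH q := by
  obtain ⟨k, r⟩ := x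
  refine ⟨k.left, Prod.ext ?_ ?_⟩
  · apply SemidirectProduct.ext
    · rfl
    · exact h1
  · exact h2

theorem z_div {q : ℕ} (hq : 2 ≤ q) {m : Multiplicative ℤ}
    (h : ∀ n : ℕ, ∃ y : Multiplicative ℤ, y ^ q ^ n = m) : m = 1 := by
  have : Multiplicative.toAdd m = 0 := by
    apply dvd_all hq
    intro n
    obtain ⟨y, hy⟩ := h n
    refine ⟨Multiplicative.toAdd y, ?_⟩
    rw [← hy, toAdd_pow, nsmul_eq_mul]
    push_cast
    ring
  exact this

theorem a_div {p q : ℕ} (hp : 1 ≤ p) (hq : 2 ≤ q) (hc : Nat.Coprime q p)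
    {x : Multiplicative (A p)} (h : ∀ n : ℕ, ∃ y : Multiplicative (A p), y ^ q ^ n = x) :
    x = 1 := by
  have : Multiplicative.toAdd x = 0 := by
    apply div_all hp hq hc
    intro n
    obtain ⟨y, hy⟩ := h n
    exact ⟨Multiplicative.toAdd y, by rw [← hy, toAdd_pow]⟩
  exact this

theorem pd_map {G G' : Type} [Group G] [Group G'] (g : G →* G') {p : ℕ} {x : G} (h : PD p x) :
    PD p (g x) := fun n => by
  obtain ⟨y, hy⟩ := h n
  exact ⟨g y, by rw [← map_pow, hy]⟩

theorem tf_A (p : ℕ) {x : Multiplicative (A p)} {n : ℕ} (hn : 0 < n) (h : x ^ n = 1) :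
    x = 1 := by
  have h1 : n • (Multiplicative.toAdd x) = 0 := by
    rw [← toAdd_pow, h]; rfl
  have h2 : n • ((Multiplicative.toAdd x : A p) : ℚ) = 0 := congrArg Subtype.val h1
  have h3 : ((Multiplicative.toAdd x : A p) : ℚ) = 0 := by
    rw [nsmul_eq_mul] at h2
    rcases mul_eq_zero.mp h2 with h | h
    · exact absurd h (by positivity)
    · exact h
  exact Subtype.ext h3

theorem t_H0 : S_H0 := by
  refine ⟨H, inferInstance, ?_, jH (Multiplicative.ofAdd (ip 2 (by norm_num) 0)),
    (SemidirectProduct.inr (Multiplicative.ofAdd 1), 1),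
    (1, Multiplicative.ofAdd (ip 3 (by norm_num) 0)), ?_, ?_, ?_, ?_, ?_, ?_, ?_, ?_, ?_⟩
  · have hA : ∀ p, Countable (Multiplicative (A p)) := fun p => inferInstanceAs (Countable (A p))
    have hZ : Countable (Multiplicative ℤ) := inferInstanceAs (Countable ℤ)
    have : Countable K := Countable.of_equiv _ (SemidirectProduct.equivProd (φ := φ)).symm
    infer_instance
  · -- torsion-free
    intro g hg hf
    obtain ⟨n, hn, h⟩ := isOfFinOrder_iff_pow_eq_one.mp hf
    apply hg
    have h1 : mH g = 1 := by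
      have : mH g ^ n = 1 := by rw [← map_pow, h, map_one]
      have h2 : n • Multiplicative.toAdd (mH g) = 0 := by rw [← toAdd_pow, this]; rfl
      have h3 : Multiplicative.toAdd (mH g) = 0 := by
        rw [nsmul_eq_mul] at h2
        rcases mul_eq_zero.mp h2 with h | h
        · exact absurd h (by positivity)
        · exact h
      exact h3
    have h2 : rH g = 1 := by
      apply tf_A 3 hn
      rw [← map_pow, h, map_one]
    obtain ⟨q, rfl⟩ := exists_jH h1 h2
    have h3 : q ^ n = 1 := jH_inj (by rw [map_pow, h, map_one])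
    rw [tf_A 2 hn h3, map_one]
  · refine Prod.ext ?_ ?_
    · change (SemidirectProduct.inr (Multiplicative.ofAdd 1) : K) * SemidirectProduct.inl _ *
        (SemidirectProduct.inr (Multiplicative.ofAdd 1))⁻¹ = (SemidirectProduct.inl _)⁻¹
      rw [← map_inv SemidirectProduct.inr, ← SemidirectProduct.inl_aut, ← map_inv]
      congr 1
    · simp [jH]
  · intro i j hij
    have hj : j = 0 := by
      have := congrArg mH hij
      rw [map_mul, map_zpow, map_zpow, map_one mH] at this
      have h1 : mH (jH (Multiplicative.ofAdd (ip 2 (by norm_num) 0))) = 1 := by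
        simp [mH, jH]
      have h2 : mH ((SemidirectProduct.inr (Multiplicative.ofAdd 1) : K), 1) =
          Multiplicative.ofAdd 1 := by simp [mH]
      rw [h1, h2, one_zpow, one_mul, ← ofAdd_zsmul] at this
      have h3 : j • (1 : ℤ) = 0 := this
      simpa using h3
    subst hj
    rw [zpow_zero, mul_one, ← map_zpow] at hij
    have h1 := jH_inj (hij.trans (map_one jH).symm)
    rw [← ofAdd_zsmul] at h1
    have h2 : i • ip 2 (by norm_num) 0 = 0 := h1
    exact ⟨smul_ip h2, rfl⟩
  · intro h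
    have h1 := jH_inj (h.trans (map_one jH).symm)
    exact ip_ne 2 (by norm_num) h1
  · intro h
    have h1 : Multiplicative.ofAdd (ip 3 (by norm_num) 0) = 1 := congrArg Prod.snd h
    exact ip_ne 3 (by norm_num) h1
  · intro n
    refine ⟨jH (Multiplicative.ofAdd (ip 2 (by norm_num) n)), ?_⟩
    rw [← map_pow, ← ofAdd_nsmul, ip_spec]
  · intro n
    refine ⟨(1, Multiplicative.ofAdd (ip 3 (by norm_num) n)), ?_⟩
    rw [Prod.pow_mk, one_pow, ← ofAdd_nsmul, ip_spec]
  · intro i hi h
    have h1 : PD 2 (rH (((1 : K), Multiplicative.ofAdd (ip 3 (by norm_num) 0)) ^ i)) :=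
      pd_map rH h
    have h2 := a_div (by norm_num) (by norm_num) (by norm_num) h1
    rw [map_zpow] at h2
    have h3 : rH ((1 : K), Multiplicative.ofAdd (ip 3 (by norm_num) 0)) =
      Multiplicative.ofAdd (ip 3 (by norm_num) 0) := rfl
    rw [h3, ← ofAdd_zsmul] at h2
    exact hi (smul_ip h2)
  · rintro ⟨x, y, hx, hy, hxy, px, py, pxy⟩
    apply hxy
    have key : ∀ z : H, PD 2 z → ∃ q, z = jH q := by
      intro z hz
      apply exists_jH
      · exact z_div (by norm_num) (pd_map mH hz)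
      · exact a_div (by norm_num) (by norm_num) (by norm_num) (pd_map rH hz)
    obtain ⟨q, rfl⟩ := key x px
    obtain ⟨q', rfl⟩ := key y py
    rw [← map_mul] at pxy ⊢
    have h1 : q * q' = 1 := by
      apply a_div (p := 2) (q := 3) (by norm_num) (by norm_num) (by norm_num)
      intro n
      obtain ⟨z, hz⟩ := pxy n
      have hz1 : mH z = 1 := by
        have h2 : mH z ^ 3 ^ n = 1 := by
          rw [← map_pow, hz]; simp [mH, jH]
        have h3 : (3 ^ n) • Multiplicative.toAdd (mH z) = 0 := by rw [← toAdd_pow, h2]; rfl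
        have h4 : Multiplicative.toAdd (mH z) = 0 := by
          rw [nsmul_eq_mul] at h3
          rcases mul_eq_zero.mp h3 with h | h
          · exact absurd h (by positivity)
          · exact h
        exact h4
      have hz2 : rH z = 1 := by
        apply tf_A 3 (n := 3 ^ n) (by positivity)
        rw [← map_pow, hz]; simp [rH, jH]
      obtain ⟨w, rfl⟩ := exists_jH hz1 hz2
      exact ⟨w, jH_inj (by rw [map_pow, hz])⟩
    rw [h1, map_one]

end Pool.Agent.H678SG.TH0
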