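import Pool.Agent.H678SG.Stubs

/-! Task INJ: the embedding of reduced group C*-algebras given by an injective homomorphism.
We use the block diagonal action on `ℓ²(G') = ⊕ ℓ²(G)` (right cosets). -/

set_option autoImplicit false

namespace Pool.Agent.H678SG.TINJ

open Pool.Agent.H667R2.FG (Ell permOp lam rho delta LG EltG tau)
open Pool.Agent.H667R2.FG.TL2
open scoped ComplexConjugate InnerProductSpace

section block

variable {G G' T : Type} (e : T × G ≃ G')

local notation "q2" => ENNReal.toReal 2

theorem q2pos : (0 : ℝ) < q2 := by norm_num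

theorem summ (f : Ell G') : Summable (fun h : G' => ‖f h‖ ^ q2) :=
  (lp.memℓp f).summable q2pos

/-- one block of a vector -/
noncomputable def slice (t : T) (f : Ell G') : Ell G :=
  ⟨fun g => f (e (t, g)), by
    refine memℓp_gen ?_
    have h := (summ f).comp_injective (i := fun g : G => e (t, g)) (fun g g' hg => by
      have := e.injective hg
      exact (Prod.mk.inj this).2)
    exact h⟩

theorem slice_apply (t : T) (f : Ell G') (g : G) : slice e t f g = f (e (t, g)) := rfl

theorem summ_slice (f : Ell G') : Summable (fun t : T => ‖slice e t f‖ ^ q2) := by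
  have h1 : Summable (fun p : T × G => ‖f (e p)‖ ^ q2) := (e.summable_iff
    (f := fun h => ‖f h‖ ^ q2)).2 (summ f)
  have h2 := (summable_prod_of_nonneg (f := fun p : T × G => ‖f (e p)‖ ^ q2)
    (fun p => Real.rpow_nonneg (norm_nonneg _) _)).1 h1
  refine h2.2.congr fun t => ?_
  rw [lp.norm_rpow_eq_tsum q2pos]
  rfl

theorem tsum_slice (f : Ell G') : ∑' t : T, ‖slice e t f‖ ^ q2 = ‖f‖ ^ q2 := by
  have h1 : Summable (fun p : T × G => ‖f (e p)‖ ^ q2) := (e.summable_iff
    (f := fun h => ‖f h‖ ^ q2)).2 (summ f)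
  rw [lp.norm_rpow_eq_tsum q2pos f, ← e.tsum_eq (fun h => ‖f h‖ ^ q2), h1.tsum_prod]
  refine tsum_congr fun t => ?_
  rw [lp.norm_rpow_eq_tsum q2pos]
  rfl

theorem blk_summ (x : Op G) (f : Ell G') :
    Summable (fun p : T × G => ‖(x (slice e p.1 f)) p.2‖ ^ q2) ∧
    ∑' p : T × G, ‖(x (slice e p.1 f)) p.2‖ ^ q2 ≤ (‖x‖ * ‖f‖) ^ q2 := by
  have hin : ∀ t : T, ∑' g : G, ‖(x (slice e t f)) g‖ ^ q2 = ‖x (slice e t f)‖ ^ q2 := fun t =>
    (lp.norm_rpow_eq_tsum q2pos _).symm
  have hle : ∀ t : T, ‖x (slice e t f)‖ ^ q2 ≤ ‖x‖ ^ q2 * ‖slice e t f‖ ^ q2 := by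
    intro t
    rw [← Real.mul_rpow (norm_nonneg _) (norm_nonneg _)]
    exact Real.rpow_le_rpow (norm_nonneg _) (x.le_opNorm _) q2pos.le
  have hs := (summ_slice e f).mul_left (‖x‖ ^ q2)
  have hs2 : Summable (fun t : T => ‖x (slice e t f)‖ ^ q2) :=
    Summable.of_nonneg_of_le (fun t => Real.rpow_nonneg (norm_nonneg _) _) hle hs
  have h1 : Summable (fun p : T × G => ‖(x (slice e p.1 f)) p.2‖ ^ q2) := by
    refine (summable_prod_of_nonneg (fun p => Real.rpow_nonneg (norm_nonneg _) _)).2 ⟨?_, ?_⟩
    · intro t
      exact (lp.memℓp (x (slice e t f))).summable q2pos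
    · refine hs2.congr fun t => ?_
      exact (hin t).symm
  refine ⟨h1, ?_⟩
  rw [h1.tsum_prod]
  calc ∑' t : T, ∑' g : G, ‖(x (slice e t f)) g‖ ^ q2 = ∑' t : T, ‖x (slice e t f)‖ ^ q2 :=
        tsum_congr hin
    _ ≤ ∑' t : T, ‖x‖ ^ q2 * ‖slice e t f‖ ^ q2 := hs2.tsum_le_tsum hle hs
    _ = ‖x‖ ^ q2 * ‖f‖ ^ q2 := by rw [tsum_mul_left, tsum_slice]
    _ = _ := (Real.mul_rpow (norm_nonneg _) (norm_nonneg _)).symm

/-- the block diagonal operator -/
noncomputable def blkF (x : Op G) (f : Ell G') : Ell G' :=
  ⟨fun h => (x (slice e (e.symm h).1 f)) (e.symm h).2, by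
    refine memℓp_gen ?_
    rw [← e.summable_iff]
    refine (blk_summ e x f).1.congr fun p => ?_
    simp⟩

theorem blkF_apply (x : Op G) (f : Ell G') (p : T × G) :
    blkF e x f (e p) = (x (slice e p.1 f)) p.2 := by
  show (x (slice e (e.symm (e p)).1 f)) (e.symm (e p)).2 = _
  rw [e.symm_apply_apply]

theorem blkF_norm (x : Op G) (f : Ell G') : ‖blkF e x f‖ ≤ ‖x‖ * ‖f‖ := by
  have h1 : ‖blkF e x f‖ ^ q2 ≤ (‖x‖ * ‖f‖) ^ q2 := by
    rw [lp.norm_rpow_eq_tsum q2pos, ← e.tsum_eq (fun h => ‖blkF e x f h‖ ^ q2)]
    refine le_trans (le_of_eq (tsum_congr fun p => ?_)) (blk_summ e x f).2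
    rw [blkF_apply]
  exact (Real.rpow_le_rpow_iff (norm_nonneg _) (by positivity) q2pos).1 h1

theorem slice_add (t : T) (f f' : Ell G') : slice e t (f + f') = slice e t f + slice e t f' := rfl

theorem slice_smul (t : T) (c : ℂ) (f : Ell G') : slice e t (c • f) = c • slice e t f := rfl

theorem slice_blkF (x : Op G) (f : Ell G') (t : T) :
    slice e t (blkF e x f) = x (slice e t f) := by
  ext g
  rw [slice_apply, blkF_apply]

theorem ext_e {f f' : Ell G'} (h : ∀ p, f (e p) = f' (e p)) : f = f' := by
  ext k
  have := h (e.symm k)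
  rwa [e.apply_symm_apply] at this

/-- the block diagonal operator as a bounded operator -/
noncomputable def blk (x : Op G) : Op G' :=
  LinearMap.mkContinuous
    { toFun := blkF e x
      map_add' := fun f f' => by
        apply ext_e e
        intro p
        rw [blkF_apply, slice_add, map_add, lp.coeFn_add, Pi.add_apply, lp.coeFn_add,
          Pi.add_apply, blkF_apply, blkF_apply]
      map_smul' := fun c f => by
        apply ext_e e
        intro p
        rw [blkF_apply, slice_smul, map_smul, lp.coeFn_smul, Pi.smul_apply, RingHom.id_apply,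
          lp.coeFn_smul, Pi.smul_apply, blkF_apply] } ‖x‖ (blkF_norm e x)

theorem blk_apply (x : Op G) (f : Ell G') : blk e x f = blkF e x f := rfl

theorem blk_mul (x y : Op G) : blk e (x * y) = blk e x * blk e y := by
  ext1 f
  apply ext_e e
  intro p
  show blkF e (x * y) f (e p) = blkF e x (blkF e y f) (e p)
  rw [blkF_apply, blkF_apply, slice_blkF]
  rfl

theorem blk_add (x y : Op G) : blk e (x + y) = blk e x + blk e y := by
  ext1 f
  apply ext_e e
  intro p
  show blkF e (x + y) f (e p) = (blkF e x f + blkF e y f) (e p)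
  rw [blkF_apply, lp.coeFn_add, Pi.add_apply, blkF_apply, blkF_apply]
  rfl

theorem blk_algebraMap (c : ℂ) : blk e (algebraMap ℂ (Op G) c) = algebraMap ℂ (Op G') c := by
  ext1 f
  apply ext_e e
  intro p
  show blkF e (algebraMap ℂ (Op G) c) f (e p) = (algebraMap ℂ (Op G') c f) (e p)
  rw [blkF_apply]
  rfl

variable [Group G] [Group G']

theorem slice_delta [DecidableEq T] (p : T × G) (t : T) :
    slice e t (delta (e p)) = if t = p.1 then (delta p.2 : Ell G) else 0 := by
  classical
  ext g
  rw [slice_apply, delta_apply]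
  by_cases h : t = p.1
  · rw [if_pos h, delta_apply]
    subst h
    by_cases hg : g = p.2
    · subst hg
      rw [if_pos rfl, if_pos rfl]
    · rw [if_neg hg, if_neg]
      intro h2
      exact hg (Prod.mk.inj (e.injective h2)).2
  · rw [if_neg h, if_neg]
    · rfl
    · intro h2
      exact h (Prod.mk.inj (e.injective h2)).1

theorem blk_entry [DecidableEq T] (x : Op G) (p p' : T × G) :
    (blk e x (delta (e p))) (e p') = if p'.1 = p.1 then (x (delta p.2)) p'.2 else 0 := by
  rw [blk_apply, blkF_apply, slice_delta]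
  split_ifs with h
  · rfl
  · rw [map_zero]; rfl

omit [Group G'] in
theorem op_ext (x y : Op G) (h : ∀ g k : G, (x (delta g)) k = (y (delta g)) k) : x = y := by
  classical
  ext1 ξ
  have h1 : HasSum (fun g : G => ξ g • (delta g : Ell G)) ξ := by
    have h1 : HasSum (fun w : G => (lp.single 2 w (ξ w) : Ell G)) ξ :=
      lp.hasSum_single (by norm_num) ξ
    refine h1.congr_fun ?_
    intro w
    ext k
    rw [lp.coeFn_smul, Pi.smul_apply, delta_apply]
    by_cases hk : k = w
    · subst hk
      rw [if_pos rfl, lp.single_apply_self, smul_eq_mul, mul_one]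
    · rw [if_neg hk, lp.single_apply_ne _ _ _ hk, smul_zero]
  have h2 := x.hasSum h1
  have h3 := y.hasSum h1
  have e1 : (fun g : G => x (ξ g • (delta g : Ell G))) = fun g => y (ξ g • (delta g : Ell G)) := by
    funext g
    rw [map_smul, map_smul]
    congr 1
    ext k
    exact h g k
  have h2' : HasSum (fun g : G => x (ξ g • (delta g : Ell G))) (x ξ) := h2
  have h3' : HasSum (fun g : G => y (ξ g • (delta g : Ell G))) (y ξ) := h3
  rw [e1] at h2'
  exact h2'.unique h3'

omit [Group G'] in
theorem star_entry (x : Op G) (g k : G) :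
    ((star x) (delta g)) k = conj ((x (delta k)) g) := by
  rw [← inner_delta k, ContinuousLinearMap.star_eq_adjoint,
    ContinuousLinearMap.adjoint_inner_right, ← inner_conj_symm, inner_delta]

theorem blk_star (x : Op G) : blk e (star x) = star (blk e x) := by
  classical
  apply op_ext
  intro g k
  obtain ⟨p, rfl⟩ := e.surjective g
  obtain ⟨p', rfl⟩ := e.surjective k
  rw [star_entry, blk_entry, blk_entry]
  by_cases h : p'.1 = p.1
  · rw [if_pos h, if_pos h.symm, star_entry]
  · rw [if_neg h, if_neg (fun h' => h h'.symm), map_zero]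

/-- the block diagonal representation -/
noncomputable def blkH : Op G →⋆ₐ[ℂ] Op G' where
  toFun := blk e
  map_one' := by
    have := blk_algebraMap e 1
    simpa using this
  map_mul' := blk_mul e
  map_zero' := by
    have := blk_algebraMap e 0
    simpa using this
  map_add' := blk_add e
  commutes' := blk_algebraMap e
  map_star' := blk_star e

theorem blk_injective (t₀ : T) : Function.Injective (blk e : Op G → Op G') := by
  classical
  intro x y hxy
  apply op_ext
  intro g k
  have h := congrArg (fun z : Op G' => (z (delta (e (t₀, g)))) (e (t₀, k))) hxy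
  simp only [blk_entry, if_true] at h
  exact h

end block

theorem t_INJ : S_INJ := by
  classical
  intro G G' _ _ ι hι
  -- a transversal of the right cosets containing 1
  let T := Quotient (QuotientGroup.rightRel ι.range)
  let cls : G' → T := fun h => Quotient.mk _ h
  let s : T → G' := fun t => if t = cls 1 then 1 else t.out
  have hs : ∀ t, cls (s t) = t := by
    intro t
    by_cases h : t = cls 1
    · simp only [s, if_pos h]; exact h.symm
    · simp only [s, if_neg h]; exact Quotient.out_eq t
  have hs1 : s (cls 1) = 1 := by simp only [s, if_true]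
  have hcls : ∀ (g : G) (h : G'), cls (ι g * h) = cls h := by
    intro g h
    apply Quotient.sound
    rw [← Quotient.eq_iff_equiv, Quotient.eq, QuotientGroup.rightRel_apply]
    refine ⟨g⁻¹, ?_⟩
    rw [map_inv, mul_inv_rev, ← mul_assoc, mul_inv_cancel, one_mul]
  have hex : ∀ h : G', ∃ g : G, ι g = h * (s (cls h))⁻¹ := by
    intro h
    have h1 : cls (s (cls h)) = cls h := hs (cls h)
    have h2 := Quotient.exact h1
    rw [← Quotient.eq_iff_equiv, Quotient.eq, QuotientGroup.rightRel_apply] at h2
    exact h2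
  choose c hc using hex
  let e : T × G ≃ G' :=
    { toFun := fun p => ι p.2 * s p.1
      invFun := fun h => (cls h, c h)
      left_inv := by
        rintro ⟨t, g⟩
        have h1 : cls (ι g * s t) = t := (hcls g (s t)).trans (hs t)
        refine Prod.ext h1 ?_
        apply hι
        show ι (c (ι g * s t)) = ι g
        rw [hc, h1, mul_inv_cancel_right]
      right_inv := by
        intro h
        show ι (c h) * s (cls h) = h
        rw [hc, inv_mul_cancel_right] }
  have hlam : ∀ g : G, blk e (lam g) = lam (ι g) := by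
    intro g
    apply op_ext
    intro k l
    obtain ⟨p, rfl⟩ := e.surjective k
    obtain ⟨p', rfl⟩ := e.surjective l
    rw [blk_entry, lam_delta, lam_delta]
    have h1 : ι g * e p = e (p.1, g * p.2) := by
      show ι g * (ι p.2 * s p.1) = ι (g * p.2) * s p.1
      rw [map_mul, mul_assoc]
    rw [h1, delta_apply, delta_apply]
    by_cases h : p'.1 = p.1
    · rw [if_pos h]
      by_cases h2 : p'.2 = g * p.2
      · rw [if_pos h2, if_pos]
        congr 1
        exact Prod.ext h h2
      · rw [if_neg h2, if_neg]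
        intro h3
        exact h2 (congrArg Prod.snd (e.injective h3))
    · rw [if_neg h, if_neg]
      intro h3
      have h4 := e.injective h3
      have h5 : p'.1 = (p.1, g * p.2).1 := by rw [h4]
      exact h h5
  have hcont : Continuous (blkH e) := by
    have hiso : Isometry (blkH e) :=
      NonUnitalStarAlgHom.isometry (blkH e) (blk_injective e (cls 1))
    exact hiso.continuous
  have hmem : ∀ x : CR G, blkH e (x : Op G) ∈ CR G' := by
    intro x
    have hx := x.2
    have h1 : (CR G : Set (Op G)) = closure (StarAlgebra.adjoin ℂ (Set.range (lam : G → Op G)) :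
        Set (Op G)) := StarSubalgebra.topologicalClosure_coe _
    have h2 : (x : Op G) ∈ closure (StarAlgebra.adjoin ℂ (Set.range (lam : G → Op G)) :
        Set (Op G)) := by rw [← h1]; exact hx
    have h3 : Set.MapsTo (blkH e) (StarAlgebra.adjoin ℂ (Set.range (lam : G → Op G)) :
        Set (Op G)) (CR G' : Set (Op G')) := by
      intro y hy
      have h4 : StarAlgebra.adjoin ℂ (Set.range (lam : G → Op G)) ≤ (CR G').comap (blkH e) := by
        rw [StarAlgebra.adjoin_le_iff]
        rintro _ ⟨g, rfl⟩
        show blk e (lam g) ∈ CR G'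
        rw [hlam]
        exact lam_mem_CR _
      exact h4 hy
    have h5 := h3.closure hcont
    have h6 : IsClosed (CR G' : Set (Op G')) := inferInstance
    rw [h6.closure_eq] at h5
    exact h5 h2
  let J : CR G →⋆ₐ[ℂ] CR G' :=
    StarAlgHom.codRestrict ((blkH e).comp (CR G).subtype) (CR G') hmem
  have hJ : ∀ x : CR G, ((J x : CR G') : Op G') = blk e (x : Op G) := fun x => rfl
  have hJinj : Function.Injective J := by
    intro x y hxy
    apply Subtype.ext
    apply blk_injective e (cls 1)
    rw [← hJ, ← hJ, hxy]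
  refine ⟨J, ?_, ?_, ?_⟩
  · intro g
    apply Subtype.ext
    exact hlam g
  · exact NonUnitalStarAlgHom.isometry J hJinj
  · intro x
    show (blk e (x : Op G) (delta 1)) 1 = ((x : Op G) (delta 1)) 1
    have h1 : e (cls 1, 1) = 1 := by
      show ι 1 * s (cls 1) = 1
      rw [map_one, hs1, mul_one]
    conv_lhs => rw [← h1]
    rw [blk_entry, if_pos rfl]

end Pool.Agent.H678SG.TINJ
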