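import Pool.Agent.H678SG.Stubs

/-! Uniqueness and composition of the embeddings of reduced group C*-algebras. -/

set_option autoImplicit false

namespace Pool.Agent.H678SG.TJU

open Pool.Agent.H678SG
open Pool.Agent.H667R2.FG (Ell permOp lam rho delta LG EltG tau)

theorem lam_inj {G : Type} [Group G] {g g' : G} (h : (lam g : Op G) = lam g') : g = g' := by
  classical
  have h1 : (delta g : Ell G) = delta g' := by
    have := congrArg (fun T : Op G => T (delta 1)) h
    simpa only [Pool.Agent.H667R2.FG.TL2.lam_delta, mul_one] using this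
  have h2 := congrArg (fun v : Ell G => v g) h1
  simp only [Pool.Agent.H667R2.FG.TL2.delta_apply, if_true] at h2
  by_contra hne
  rw [if_neg hne] at h2
  exact one_ne_zero h2

theorem t_JU : S_JU := by
  refine ⟨?_, ?_, ?_⟩
  · intro G G' _ _ ι J J' hJ hJ'
    refine StarAlgHom.ext_topologicalClosure
      (S := StarAlgebra.adjoin ℂ (Set.range (lam : G → Op G))) hJ.2.1.continuous
      hJ'.2.1.continuous ?_
    refine StarAlgHom.ext_adjoin ?_
    rintro ⟨x, hx⟩ ⟨g, hg⟩
    have h1 := hJ.1 g
    have h2 := hJ'.1 g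
    have hle : StarAlgebra.adjoin ℂ (Set.range (lam : G → Op G)) ≤ CR G :=
      StarSubalgebra.le_topologicalClosure _
    have h3 : StarSubalgebra.inclusion hle ⟨x, hx⟩ = lc g := Subtype.ext hg.symm
    show J (StarSubalgebra.inclusion hle ⟨x, hx⟩) = J' (StarSubalgebra.inclusion hle ⟨x, hx⟩)
    rw [h3]
    exact h1.trans h2.symm
  · intro G G' G'' _ _ _ ι ι' J J' hJ hJ'
    refine ⟨fun g => ?_, hJ'.2.1.comp hJ.2.1, fun x => ?_⟩
    · show J' (J (lc g)) = lc (ι' (ι g))
      rw [hJ.1, hJ'.1]
    · show tr (J' (J x)) = tr x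
      rw [hJ'.2.2, hJ.2.2]
  · intro G G' _ _ ι J hJ g g' h
    have h1 : J (lc g) = J (lc g') := by rw [hJ.1, hJ.1, h]
    have h2 : (lc g : CR G) = lc g' := hJ.2.1.injective h1
    exact lam_inj (congrArg Subtype.val h2)

end Pool.Agent.H678SG.TJU
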