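import Pool.Agent.H678SG.TKLE3

/-! Klein bottle (helper124): the statement. -/

set_option autoImplicit false

namespace Pool.Agent.H678SG.TKLE

open Pool.Agent.H678SG

noncomputable section

variable {G : Type} [Group G]

lemma lc_mul (g h : G) : lc (g * h) = lc g * lc h := by
  show ((lamC G (g * h) : unitary (CR G)) : CR G) = _
  rw [map_mul]
  rfl

lemma lc_one : lc (1 : G) = 1 := by
  show ((lamC G 1 : unitary (CR G)) : CR G) = _
  rw [map_one]
  rfl

lemma star_lc (g : G) : star (lc g) = lc g⁻¹ := by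
  show star ((lamC G g : unitary (CR G)) : CR G) = ((lamC G g⁻¹ : unitary (CR G)) : CR G)
  rw [map_inv]
  rfl

/-- the span of the powers of `a` -/
def sp (a : G) : Submodule ℂ (CR G) := Submodule.span ℂ (Set.range fun i : ℤ => lc (a ^ i))

lemma lc_sp (a : G) (i : ℤ) : lc (a ^ i) ∈ sp a := Submodule.subset_span ⟨i, rfl⟩

lemma mul_sp (a : G) {x y : CR G} (hx : x ∈ sp a) (hy : y ∈ sp a) : x * y ∈ sp a := by
  unfold sp at hx hy ⊢
  induction hx using Submodule.span_induction with
  | mem x h =>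
    obtain ⟨i, rfl⟩ := h
    induction hy using Submodule.span_induction with
    | mem y h =>
      obtain ⟨j, rfl⟩ := h
      show lc (a ^ i) * lc (a ^ j) ∈ _
      rw [← lc_mul, ← zpow_add]
      exact lc_sp a _
    | zero => rw [mul_zero]; exact Submodule.zero_mem _
    | add u v _ _ hu hv => rw [mul_add]; exact Submodule.add_mem _ hu hv
    | smul c u _ hu => rw [mul_smul_comm]; exact Submodule.smul_mem _ _ hu
  | zero => rw [zero_mul]; exact Submodule.zero_mem _
  | add u v _ _ hu hv => rw [add_mul]; exact Submodule.add_mem _ hu hv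
  | smul c u _ hu => rw [smul_mul_assoc]; exact Submodule.smul_mem _ _ hu

lemma star_sp (a : G) {x : CR G} (hx : x ∈ sp a) : star x ∈ sp a := by
  unfold sp at hx ⊢
  induction hx using Submodule.span_induction with
  | mem x h =>
    obtain ⟨i, rfl⟩ := h
    show star (lc (a ^ i)) ∈ _
    rw [star_lc, ← zpow_neg]
    exact lc_sp a _
  | zero => rw [star_zero]; exact Submodule.zero_mem _
  | add u v _ _ hu hv => rw [star_add]; exact Submodule.add_mem _ hu hv
  | smul c u _ hu => rw [star_smul]; exact Submodule.smul_mem _ _ hu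

lemma adjoin_sp (a : G) {x : CR G} (hx : x ∈ StarAlgebra.adjoin ℂ ({lc a} : Set (CR G))) :
    x ∈ sp a := by
  induction hx using StarAlgebra.adjoin_induction with
  | mem x h =>
    rw [Set.mem_singleton_iff] at h
    rw [h]
    have := lc_sp a 1
    rwa [zpow_one] at this
  | algebraMap r =>
    rw [Algebra.algebraMap_eq_smul_one]
    have := lc_sp a 0
    rw [zpow_zero, lc_one] at this
    exact Submodule.smul_mem _ _ this
  | add x y _ _ hx hy => exact Submodule.add_mem _ hx hy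
  | mul x y _ _ hx hy => exact mul_sp a hx hy
  | star x _ hx => exact star_sp a hx

lemma tr_sp (hT : S_TRC) (a g : G) (h : ∀ i : ℤ, g * a ^ i ≠ 1) {x : CR G}
    (hx : x ∈ sp a) : tr (lc g * x) = 0 := by
  obtain ⟨tadd, tsmul, -, -, -, tg, -, -, -⟩ := hT G
  unfold sp at hx
  induction hx using Submodule.span_induction with
  | mem x h2 =>
    obtain ⟨i, rfl⟩ := h2
    show tr (lc g * lc (a ^ i)) = 0
    rw [← lc_mul]
    exact tg _ (h i)
  | zero =>
    have := tsmul 0 (0 : CR G)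
    rw [zero_smul, zero_mul] at this
    rw [mul_zero]; exact this
  | add u v _ _ hu hv => rw [mul_add, tadd, hu, hv, add_zero]
  | smul c u _ hu => rw [mul_smul_comm, tsmul, hu, mul_zero]

lemma tr_el (hT : S_TRC) (a g : G) (h : ∀ i : ℤ, g * a ^ i ≠ 1) {x : CR G}
    (hx : x ∈ StarAlgebra.elemental ℂ (lc a)) : tr (lc g * x) = 0 := by
  have tcont := (hT G).2.2.2.2.1
  have hcl : IsClosed {x : CR G | tr (lc g * x) = 0} :=
    isClosed_eq (tcont.comp (continuous_const.mul continuous_id)) continuous_const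
  have hsub : ((StarAlgebra.adjoin ℂ ({lc a} : Set (CR G)) : StarSubalgebra ℂ (CR G)) :
      Set (CR G)) ⊆ {x : CR G | tr (lc g * x) = 0} :=
    fun y hy => tr_sp hT a g h (adjoin_sp a hy)
  exact closure_minimal hsub hcl hx

lemma exp_mem_DU {k : CR G} (hk : IsSelfAdjoint k) (h0 : tr k = 0) :
    ∃ U : unitary (CR G), U ∈ DU G ∧ (U : CR G) = NormedSpace.exp (Complex.I • k) := by
  have h1 : star (NormedSpace.exp (Complex.I • (-k))) = NormedSpace.exp (Complex.I • k) :=
    star_exp_neg hk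
  have h2 : star (NormedSpace.exp (Complex.I • k)) = NormedSpace.exp (Complex.I • (-k)) := by
    rw [← h1, star_star]
  refine ⟨⟨NormedSpace.exp (Complex.I • k), ?_⟩, ?_, rfl⟩
  · rw [Unitary.mem_iff, h2]
    exact ⟨exp_mul_exp k, exp_mul_exp' k⟩
  · exact Subgroup.subset_closure ⟨k, hk, h0, rfl⟩

end

theorem t_KLE (hE : S_EXQ) (hT : S_TRC) : S_KLE := by
  intro G _ a b hab hfree
  obtain ⟨tadd, tsmul, tcomm, tone, -⟩ := hT G
  have hnt : Nontrivial (CR G) := by
    refine ⟨⟨0, 1, fun h => ?_⟩⟩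
    have h1 := tsmul 0 (0 : CR G)
    rw [zero_smul, zero_mul, h, tone] at h1
    exact one_ne_zero h1
  have hA1 : star (lc a) * lc a = 1 := by rw [star_lc, ← lc_mul, inv_mul_cancel, lc_one]
  have hA2 : lc a * star (lc a) = 1 := by rw [star_lc, ← lc_mul, mul_inv_cancel, lc_one]
  have hB1 : star (lc b) * lc b = 1 := by rw [star_lc, ← lc_mul, inv_mul_cancel, lc_one]
  have hB2 : lc b * star (lc b) = 1 := by rw [star_lc, ← lc_mul, mul_inv_cancel, lc_one]
  have hBA : lc b * lc a = star (lc a) * lc b := by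
    rw [star_lc, ← lc_mul, ← lc_mul, ← hab, inv_mul_cancel_right]
  have hb1 : ∀ i : ℤ, b * a ^ i ≠ 1 := by
    intro i h
    have h2 : a ^ i * b ^ (1 : ℤ) = 1 := by
      rw [zpow_one]; exact mul_eq_one_comm.1 h
    have := (hfree i 1 h2).2
    norm_num at this
  have hb2 : ∀ i : ℤ, b⁻¹ * a ^ i ≠ 1 := by
    intro i h
    have h2 : a ^ i * b ^ (-1 : ℤ) = 1 := by
      rw [zpow_neg_one]; exact mul_eq_one_comm.1 h
    have := (hfree i (-1) h2).2
    norm_num at this
  obtain ⟨k1, k2, hk1, hk2, ht1, ht2, hk⟩ := core hE (tr : CR G → ℂ) tadd tsmul tcomm (lc a) (lc b)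
    hA1 hA2 hB1 hB2 hBA (fun x hx => ⟨tr_el hT a b hb1 hx, by
      rw [star_lc]; exact tr_el hT a b⁻¹ hb2 hx⟩)
  obtain ⟨U1, hU1, hU1'⟩ := exp_mem_DU hk1 ht1
  obtain ⟨U2, hU2, hU2'⟩ := exp_mem_DU hk2 ht2
  have h3 : lamC G (a ^ 2) = U1 * U2 := by
    apply Subtype.ext
    show lc (a ^ 2) = (U1 : CR G) * (U2 : CR G)
    rw [hU1', hU2', ← hk, sq, lc_mul]
  rw [h3]
  exact (DU G).mul_mem hU1 hU2

end Pool.Agent.H678SG.TKLE
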