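import Pool.Agent.H678SG.Defs

/-! Top level statements. -/

set_option autoImplicit false

namespace Pool.Agent.H678SG

open Pool.Agent.H667R2.FG (Ell permOp lam rho delta LG EltG tau)

/-! ### A. C*-algebras -/

/-- existence of the embedding `C*_r(G) → C*_r(G')` -/
def S_INJ : Prop := ∀ (G G' : Type) [Group G] [Group G'] (ι : G →* G'), Function.Injective ι →
  ∃ J : CR G →⋆ₐ[ℂ] CR G', IsJ ι J

/-- a unitary representation with the law of the left regular one, which generates, extends -/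
def S_TIX : Prop := ∀ (G G' : Type) [Group G] [Group G'] (π : G →* unitary (CR G')),
  (∀ g, g ≠ 1 → tr (π g : CR G') = 0) →
  (∀ g' : G', lc g' ∈
    (StarAlgebra.adjoin ℂ (Set.range fun g => (π g : CR G'))).topologicalClosure) →
  ∃ P : TI G G', ∀ g, P.e (lc g) = (π g : CR G')

/-- trace preserving isomorphisms of the base extend to HNN extensions -/
def S_HNNF : Prop := ∀ (Γ Γ' : Type) [Group Γ] [Group Γ'] (A B : Subgroup Γ) (φ : A ≃* B)
  (A' B' : Subgroup Γ') (φ' : A' ≃* B') (α : A ≃* A') (P : TI Γ Γ') (Y : unitary (CR Γ')),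
  (∀ a : A, P.e (lc (a : Γ)) = lc ((α a : A') : Γ')) →
  (∀ a : A, P.e (lc ((φ a : B) : Γ)) =
    (Y : CR Γ') * lc ((φ' (α a) : B') : Γ') * star (Y : CR Γ')) →
  ∃ (Q : TI (HNNExtension Γ A B φ) (HNNExtension Γ' A' B' φ')),
    (∀ J J', IsJ (HNNExtension.of : Γ →* HNNExtension Γ A B φ) J →
      IsJ (HNNExtension.of : Γ' →* HNNExtension Γ' A' B' φ') J' →
      (∀ x, Q.e (J x) = J' (P.e x)) ∧
      Q.e (lc (HNNExtension.t : HNNExtension Γ A B φ)) =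
        J' (Y : CR Γ') * lc (HNNExtension.t : HNNExtension Γ' A' B' φ'))

/-- the flow theorem -/
def S_FL : Prop := ∀ (H : Type) [Group H] (u : H), ¬ IsOfFinOrder u → ∀ D ∈ DU H,
  ∃ Θ : TI (P2 H) (P2 H), (∀ b : Bool, ∃ W ∈ DU (P2 H),
      Θ.e (lc (l2 H b)) = (W : CR (P2 H)) * lc (l2 H b)) ∧
    ∀ J, IsJ (i2 H) J → (∀ x, Θ.e (J x) = J x) ∧
      Θ.e (lc (yy u)) = J (D : CR H) * lc (yy u)

/-- direct limits -/
def S_LIM : Prop := ∀ (H H' : ℕ → Type) [∀ n, Group (H n)] [∀ n, Group (H' n)]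
  (j : ∀ n, H n →* H (n + 1)) (j' : ∀ n, H' n →* H' (n + 1)) (G G' : Type) [Group G] [Group G']
  (ι : ∀ n, H n →* G) (ι' : ∀ n, H' n →* G'), (∀ n, Function.Injective (j n)) →
  (∀ n, Function.Injective (j' n)) → (∀ n, Function.Injective (ι n)) →
  (∀ n, Function.Injective (ι' n)) → (∀ n h, ι (n + 1) (j n h) = ι n h) →
  (∀ n h, ι' (n + 1) (j' n h) = ι' n h) → (∀ g, ∃ n h, ι n h = g) → (∀ g, ∃ n h, ι' n h = g) →
  ∀ P : ∀ n, TI (H n) (H' n), (∀ n J J', IsJ (j n) J → IsJ (j' n) J' →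
    ∀ x, (P (n + 1)).e (J x) = J' ((P n).e x)) → Nonempty (TI G G')

/-- the commutator `a²` of a Klein bottle group is null-homotopic in the determinant-free sense -/
def S_KLE : Prop := ∀ (G : Type) [Group G] (a b : G), b * a * b⁻¹ = a⁻¹ →
  (∀ i j : ℤ, a ^ i * b ^ j = 1 → i = 0 ∧ j = 0) → lamC G (a ^ 2) ∈ DU G

/-- matched elements modulo `DU` -/
def Mt {H H' : Type} [Group H] [Group H'] (P : TI H H') (h : H) (h' : H') : Prop :=
  ∃ D ∈ DU H', P.e (lc h) = (D : CR H') * lc h'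

/-- isomorphisms of `C*_r(P4 H)` matching the words `zz` -/
def S_STEP : Prop := ∀ (H H' : Type) [Group H] [Group H'] (P : TI H H') (w u : H) (w' u' : H'),
  ¬ IsOfFinOrder u → ¬ IsOfFinOrder u' → Mt P w w' → Mt P u u' →
  ∃ (Q : TI (P4 H) (P4 H')) (Y : unitary (CR (P4 H'))), Y ∈ DU (P4 H') ∧
    Q.e (lc (zz w u)) = (Y : CR (P4 H')) * lc (zz w' u') * star (Y : CR (P4 H')) ∧
    (∀ i, Mt Q (l4 H i) (l4 H' i)) ∧
    ∀ J J', IsJ (i4 H) J → IsJ (i4 H') J' → ∀ x, Q.e (J x) = J' (P.e x)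

/-! ### B. groups -/

/-- the group theoretic properties of one step -/
def S_GRP : Prop := ∀ (H : Type) [Group H], TF H → ∀ (f : H), f ≠ 1 → ∀ z : P4 H,
  ((∃ w u : H, u ≠ 1 ∧ z = zz w u) ∨ (∃ c e : H, c ≠ 1 ∧ e ≠ 1 ∧ z = z0 c e)) →
  ∀ φ : Subgroup.zpowers (i4 H f) ≃* Subgroup.zpowers z,
  TF (HNNExtension (P4 H) _ _ φ) ∧
  Mal ((HNNExtension.of : P4 H →* HNNExtension (P4 H) _ _ φ).comp (i4 H)) ∧
  ((∀ i : ℤ, i ≠ 0 → ¬ PD 2 (f ^ i)) → ¬ Pi2 H → ¬ Pi2 (HNNExtension (P4 H) _ _ φ))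

/-- the words have infinite order -/
def S_ZIN : Prop := ∀ (H : Type) [Group H], TF H → ∀ z : P4 H,
  ((∃ w u : H, u ≠ 1 ∧ z = zz w u) ∨ (∃ c e : H, e ≠ 1 ∧ z = z0 c e)) → ¬ IsOfFinOrder z

/-- HNN extensions of torsion-free groups are torsion-free -/
def S_TFH : Prop := ∀ (G : Type) [Group G] (A B : Subgroup G) (φ : A ≃* B), TF G →
  TF (HNNExtension G A B φ)

end Pool.Agent.H678SG
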