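import Pool.Agent.H678SG.Stubs
import Pool.Agent.H678SG.Top

/-! Klein bottle (helper124), part 1: the algebra. -/

set_option autoImplicit false

namespace Pool.Agent.H678SG.TKLE

open Pool.Agent.H678SG

noncomputable section

/-! ### real functions -/

def g (v : ℝ) : ℝ := (1 - 2 * v ^ 2) * Real.cos v
def th (v : ℝ) : ℝ := Real.arccos (g v)
def hh (v : ℝ) : ℝ := (Real.sinc (th v))⁻¹

lemma g_cont : Continuous g := by unfold g; fun_prop
lemma th_cont : Continuous th := Real.continuous_arccos.comp g_cont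

lemma cos_pos' {v : ℝ} (h0 : 0 ≤ v) (h1 : v ≤ 1) : 0 < Real.cos v := by
  apply Real.cos_pos_of_mem_Ioo
  constructor <;> linarith [Real.pi_gt_three]

lemma g_le {v : ℝ} (h0 : 0 ≤ v) (h1 : v ≤ 1) : g v ≤ 1 := by
  unfold g
  have := cos_pos' h0 h1
  have := Real.cos_le_one v
  nlinarith [sq_nonneg v]

lemma lt_g {v : ℝ} (h0 : 0 ≤ v) (h1 : v ≤ 1) : -1 < g v := by
  unfold g
  have hc := cos_pos' h0 h1
  have hc1 := Real.cos_le_one v
  rcases h1.lt_or_eq with h | h
  · have h2 : -1 < 1 - 2 * v ^ 2 := by nlinarith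
    nlinarith
  · subst h
    have := Real.cos_one_le
    nlinarith

lemma sinc_th_pos {v : ℝ} (h0 : 0 ≤ v) (h1 : v ≤ 1) : 0 < Real.sinc (th v) := by
  have h2 : 0 ≤ th v := Real.arccos_nonneg _
  have h3 : th v < Real.pi := by
    apply lt_of_le_of_ne (Real.arccos_le_pi _)
    intro h
    have := Real.arccos_eq_pi.1 h
    linarith [lt_g h0 h1]
  rcases h2.eq_or_lt with h | h
  · rw [← h, Real.sinc_zero]; norm_num
  · rw [Real.sinc_of_ne_zero h.ne']
    exact div_pos (Real.sin_pos_of_pos_of_lt_pi h h3) h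

lemma hh_cont : ContinuousOn hh (Set.Icc 0 1) := by
  unfold hh
  apply ContinuousOn.inv₀ (Real.continuous_sinc.comp th_cont).continuousOn
  intro v hv
  exact (sinc_th_pos hv.1 hv.2).ne'

lemma cos_th {v : ℝ} (h0 : 0 ≤ v) (h1 : v ≤ 1) : Real.cos (th v) = g v :=
  Real.cos_arccos (lt_g h0 h1).le (g_le h0 h1)

lemma sin_eq (t : ℝ) : Real.sin t = t * Real.sinc t := by
  by_cases h : t = 0
  · subst h; simp
  · rw [Real.sinc_of_ne_zero h]; field_simp

lemma hh_sq {v : ℝ} (h0 : 0 ≤ v) (h1 : v ≤ 1) :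
    hh v * hh v * (1 - g v * g v) = th v * th v := by
  have h2 := sinc_th_pos h0 h1
  have h3 : 1 - g v * g v = (th v * Real.sinc (th v)) ^ 2 := by
    rw [← sin_eq, ← cos_th h0 h1]
    have := Real.sin_sq_add_cos_sq (th v)
    linarith
  rw [h3]
  unfold hh
  field_simp

lemma hh_sinc {v : ℝ} (h0 : 0 ≤ v) (h1 : v ≤ 1) : hh v * Real.sinc (th v) = 1 :=
  inv_mul_cancel₀ (sinc_th_pos h0 h1).ne'

/-! ### ring identities -/

lemma sq_k2 {R : Type} [Ring R] (b b' p m : R) (h1 : b * p = m * b) (_h2 : b * m = p * b)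
    (h3 : p * b' = b' * m) (hpm : p * m = 0) (hmp : m * p = 0) (hb : b * b' = 1)
    (hb' : b' * b = 1) : (b * p + p * b') * (b * p + p * b') = p * p + m * m := by
  have e1 : b * p * (b * p) = 0 := by
    calc b * p * (b * p) = b * p * (m * b) := by rw [h1]
      _ = b * (p * m) * b := by simp only [mul_assoc]
      _ = 0 := by rw [hpm]; simp
  have e2 : b * p * (p * b') = m * m := by
    calc b * p * (p * b') = m * b * (p * b') := by rw [h1]
      _ = m * (b * p) * b' := by simp only [mul_assoc]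
      _ = m * (m * b) * b' := by rw [h1]
      _ = m * m * (b * b') := by simp only [mul_assoc]
      _ = m * m := by rw [hb, mul_one]
  have e3 : p * b' * (b * p) = p * p := by
    calc p * b' * (b * p) = p * (b' * b) * p := by noncomm_ring
      _ = p * p := by rw [hb', mul_one]
  have e4 : p * b' * (p * b') = 0 := by
    calc p * b' * (p * b') = b' * m * (p * b') := by rw [h3]
      _ = b' * (m * p) * b' := by noncomm_ring
      _ = 0 := by rw [hmp]; simp
  rw [add_mul, mul_add, mul_add, e1, e2, e3, e4]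
  abel

variable {𝓐 : Type} [CStarAlgebra 𝓐]

lemma cfc_comm_of {x y : 𝓐} (h : Commute x y) (f : ℝ → ℝ) : Commute x (cfc f y) :=
  (h.symm.cfc_real f).symm

/-- the statement about the element `Q` -/
structure Dat (A B V Q : 𝓐) : Prop where
  a1 : star A * A = 1
  a2 : A * star A = 1
  b1 : star B * B = 1
  b2 : B * star B = 1
  ba : B * A = star A * B
  v : V = (-(Complex.I / 2)) • (A - star A)
  q : Q = cfc Real.sqrt (V * V)

section
variable {A B V Q : 𝓐} (D : Dat A B V Q)
include D

lemma ab : A * B = B * star A := by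
  calc A * B = A * B * (A * star A) := by rw [D.a2, mul_one]
    _ = A * (B * A) * star A := by noncomm_ring
    _ = (A * star A) * B * star A := by rw [D.ba]; noncomm_ring
    _ = B * star A := by rw [D.a2, one_mul]

lemma bsa : B * star A = A * B := (ab D).symm

lemma sba : star B * A = star A * star B := by
  have := congrArg star D.ba
  simp only [star_mul, star_star] at this
  exact this.symm

lemma sbsa : star B * star A = A * star B := by
  have h2 := congrArg star (ab D)
  simp only [star_mul, star_star] at h2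
  -- star B * star A = A * star B
  exact h2

lemma v_sa : IsSelfAdjoint V := by
  rw [IsSelfAdjoint, D.v, star_smul, star_sub, star_star]
  have : star (-(Complex.I / 2)) = Complex.I / 2 := by
    simp
    ring
  rw [this, neg_smul, ← smul_neg, neg_sub]

lemma v_sq : V * V = (-(1 / 4 : ℂ)) • (A * A - 2 + star A * star A) := by
  rw [D.v, smul_mul_smul_comm]
  have h1 : (-(Complex.I / 2)) * (-(Complex.I / 2)) = -(1 / 4 : ℂ) := by
    have := Complex.I_mul_I
    linear_combination (1 / 4 : ℂ) * this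
  rw [h1]
  congr 1
  have : (A - star A) * (A - star A) = A * A - A * star A - star A * A + star A * star A := by
    noncomm_ring
  rw [this, D.a1, D.a2]
  have h2 : (2 : 𝓐) = 1 + 1 := by norm_num
  rw [h2]
  abel

lemma va : Commute V A := by
  rw [D.v]
  apply Commute.smul_left
  apply Commute.sub_left (Commute.refl A)
  rw [commute_iff_eq, D.a1, D.a2]

lemma vsa : Commute V (star A) := by
  have := (va D).star_star
  rwa [(v_sa D).star_eq] at this

lemma bv : B * V = -(V * B) := by
  rw [D.v, mul_smul_comm, smul_mul_assoc, mul_sub, sub_mul, D.ba, bsa D, ← smul_neg, neg_sub]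

lemma bvv : Commute B (V * V) := by
  rw [commute_iff_eq]
  calc B * (V * V) = B * V * V := by rw [mul_assoc]
    _ = -(V * B) * V := by rw [bv D]
    _ = -(V * (B * V)) := by rw [neg_mul, mul_assoc]
    _ = V * V * B := by rw [bv D, mul_neg, neg_neg, mul_assoc]

lemma q_sa : IsSelfAdjoint Q := by
  rw [D.q]; exact cfc_predicate _ _

lemma qA : Commute A Q := by
  rw [D.q]
  exact cfc_comm_of ((va D).symm.mul_right (va D).symm) _

lemma qB : Commute B Q := by
  rw [D.q]
  exact cfc_comm_of (bvv D) _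

lemma qV : Commute V Q := by
  rw [D.q]
  exact cfc_comm_of ((Commute.refl V).mul_right (Commute.refl V)) _

lemma qsA : Commute (star A) Q := by
  have := (qA D).star_star
  rwa [(q_sa D).star_eq] at this

lemma qsB : Commute (star B) Q := by
  have := (qB D).star_star
  rwa [(q_sa D).star_eq] at this

lemma vv_nonneg {x : ℝ} (hx : x ∈ spectrum ℝ (V * V)) : 0 ≤ x := by
  have h := (v_sa D).star_eq
  have h2 : V * V = star V * V := by rw [h]
  rw [h2] at hx
  exact spectrum_star_mul_self_nonneg x hx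

lemma qq : Q * Q = V * V := by
  have hsa : IsSelfAdjoint (V * V) := by
    rw [IsSelfAdjoint, star_mul, (v_sa D).star_eq]
  rw [D.q, ← cfc_mul Real.sqrt Real.sqrt (V * V) Real.continuous_sqrt.continuousOn
    Real.continuous_sqrt.continuousOn]
  conv_rhs => rw [← cfc_id ℝ (V * V) hsa]
  apply cfc_congr
  intro x hx
  exact Real.mul_self_sqrt (vv_nonneg D hx)

lemma spec_q [Nontrivial 𝓐] {x : ℝ} (hx : x ∈ spectrum ℝ Q) : 0 ≤ x ∧ x ≤ 1 := by
  have hsa : IsSelfAdjoint (V * V) := by
    rw [IsSelfAdjoint, star_mul, (v_sa D).star_eq]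
  rw [D.q, cfc_map_spectrum Real.sqrt (V * V) hsa Real.continuous_sqrt.continuousOn] at hx
  obtain ⟨y, hy, rfl⟩ := hx
  refine ⟨Real.sqrt_nonneg _, ?_⟩
  have hA : ‖A‖ ≤ 1 := by
    have h := CStarRing.norm_star_mul_self (x := A)
    rw [D.a1, CStarRing.norm_one] at h
    nlinarith [norm_nonneg A]
  have hV : ‖V‖ ≤ 1 := by
    rw [D.v, norm_smul]
    have h1 : ‖(-(Complex.I / 2))‖ = 1 / 2 := by simp
    have h2 : ‖A - star A‖ ≤ 2 := by
      calc ‖A - star A‖ ≤ ‖A‖ + ‖star A‖ := norm_sub_le _ _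
        _ = ‖A‖ + ‖A‖ := by rw [norm_star]
        _ ≤ 2 := by linarith
    rw [h1]
    linarith
  have hVV : ‖V * V‖ ≤ 1 := (norm_mul_le _ _).trans (by nlinarith [norm_nonneg V])
  have h3 : ‖y‖ ≤ ‖V * V‖ := spectrum.norm_le_norm_of_mem hy
  rw [Real.sqrt_le_iff]
  exact ⟨by norm_num, by rw [one_pow]; exact (le_abs_self y).trans (h3.trans hVV)⟩

end

end

end Pool.Agent.H678SG.TKLE
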