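import Pool.Agent.H678SG.TKLE1

/-! Klein bottle (helper124), part 2: the two exponentials. -/

set_option autoImplicit false

namespace Pool.Agent.H678SG.TKLE

open Pool.Agent.H678SG

noncomputable section

variable {𝓐 : Type} [CStarAlgebra 𝓐]

def Pp (V Q : 𝓐) : 𝓐 := (1 / 2 : ℂ) • (Q + V)
def Pm (V Q : 𝓐) : 𝓐 := (1 / 2 : ℂ) • (Q - V)
def k2 (B V Q : 𝓐) : 𝓐 := B * Pp V Q + Pp V Q * star B

section
variable {A B V Q : 𝓐} (D : Dat A B V Q)
include D

lemma pp_sa : star (Pp V Q) = Pp V Q := by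
  unfold Pp
  rw [star_smul, star_add, (v_sa D).star_eq, (q_sa D).star_eq]
  congr 1
  simp

lemma bpp : B * Pp V Q = Pm V Q * B := by
  unfold Pp Pm
  rw [mul_smul_comm, smul_mul_assoc, mul_add, sub_mul, bv D, (qB D).eq, sub_eq_add_neg]

lemma bpm : B * Pm V Q = Pp V Q * B := by
  unfold Pp Pm
  rw [mul_smul_comm, smul_mul_assoc, mul_sub, add_mul, bv D, (qB D).eq, sub_neg_eq_add]

lemma ppb : Pp V Q * star B = star B * Pm V Q := by
  have h1 := congrArg star (bpp D)
  rw [star_mul, star_mul, pp_sa D] at h1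
  have h2 : star (Pm V Q) = Pm V Q := by
    unfold Pm
    rw [star_smul, star_sub, (v_sa D).star_eq, (q_sa D).star_eq]
    congr 1
    simp
  rw [h2] at h1
  exact h1

lemma pppm : Pp V Q * Pm V Q = 0 := by
  unfold Pp Pm
  rw [smul_mul_smul_comm, add_mul, mul_sub, mul_sub, qq D, (qV D).eq]
  have h : V * V - Q * V + (Q * V - V * V) = 0 := by abel
  rw [h, smul_zero]

lemma pmpp : Pm V Q * Pp V Q = 0 := by
  unfold Pp Pm
  rw [smul_mul_smul_comm, sub_mul, mul_add, mul_add, qq D, (qV D).eq]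
  have h : V * V + Q * V - (Q * V + V * V) = 0 := by abel
  rw [h, smul_zero]

lemma pp_sq : Pp V Q * Pp V Q + Pm V Q * Pm V Q = Q * Q := by
  unfold Pp Pm
  rw [smul_mul_smul_comm, smul_mul_smul_comm, ← smul_add]
  have h1 : (Q + V) * (Q + V) + (Q - V) * (Q - V) = (4 : ℂ) • (Q * Q) := by
    have h2 : (4 : ℂ) • (Q * Q) = Q * Q + Q * Q + V * V + V * V := by
      rw [← qq D]
      have : (4 : ℂ) = 1 + 1 + 1 + 1 := by norm_num
      rw [this, add_smul, add_smul, add_smul, one_smul]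
    rw [h2, add_mul, sub_mul, mul_add, mul_add, mul_sub, mul_sub]
    abel
  rw [h1, smul_smul]
  norm_num

lemma k2_sa : star (k2 B V Q) = k2 B V Q := by
  unfold k2
  rw [star_add, star_mul, star_mul, star_star, pp_sa D, add_comm]

lemma k2_sq : k2 B V Q * k2 B V Q = Q * Q := by
  unfold k2
  rw [sq_k2 B (star B) (Pp V Q) (Pm V Q) (bpp D) (bpm D) (ppb D) (pppm D) (pmpp D) D.b2 D.b1,
    pp_sq D]

lemma qPp : Commute (Pp V Q) Q := by
  unfold Pp
  exact ((Commute.refl Q).add_left (qV D)).smul_left _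

lemma k2Q : Commute (k2 B V Q) Q := by
  unfold k2
  exact ((qB D).mul_left (qPp D)).add_left ((qPp D).mul_left (qsB D))

lemma ppA : Commute (Pp V Q) A := by
  unfold Pp
  exact ((qA D).symm.add_left (va D)).smul_left _

lemma ppsA : Commute (Pp V Q) (star A) := by
  unfold Pp
  exact ((qsA D).symm.add_left (vsa D)).smul_left _

lemma k2A : k2 B V Q * (star A * star A) = A * A * k2 B V Q := by
  unfold k2
  rw [add_mul, mul_add]
  congr 1
  · calc B * Pp V Q * (star A * star A) = B * (Pp V Q * (star A * star A)) := by rw [mul_assoc]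
      _ = B * (star A * star A * Pp V Q) := by rw [((ppsA D).mul_right (ppsA D)).eq]
      _ = (B * star A) * (star A * Pp V Q) := by simp only [mul_assoc]
      _ = (A * B) * (star A * Pp V Q) := by rw [bsa D]
      _ = A * ((B * star A) * Pp V Q) := by simp only [mul_assoc]
      _ = A * ((A * B) * Pp V Q) := by rw [bsa D]
      _ = A * A * (B * Pp V Q) := by simp only [mul_assoc]
  · calc Pp V Q * star B * (star A * star A) = Pp V Q * ((star B * star A) * star A) := by
          simp only [mul_assoc]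
      _ = Pp V Q * ((A * star B) * star A) := by rw [sbsa D]
      _ = Pp V Q * (A * (star B * star A)) := by simp only [mul_assoc]
      _ = Pp V Q * (A * (A * star B)) := by rw [sbsa D]
      _ = (Pp V Q * (A * A)) * star B := by simp only [mul_assoc]
      _ = A * A * (Pp V Q * star B) := by
          rw [((ppA D).mul_right (ppA D)).eq]; simp only [mul_assoc]

/-! ### the function `c` -/

lemma half : (1 / 2 : ℂ) • (A * A + star A * star A) = 1 - (2 : ℂ) • (Q * Q) := by
  rw [qq D, v_sq D, smul_smul]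
  have h1 : (2 : ℂ) * -(1 / 4) = -(1 / 2) := by norm_num
  rw [h1, neg_smul, sub_neg_eq_add]
  have h2 : (1 : 𝓐) = (1 / 2 : ℂ) • (2 : 𝓐) := by
    have : (2 : 𝓐) = (2 : ℂ) • (1 : 𝓐) := by
      rw [show (2 : ℂ) = 1 + 1 by norm_num, add_smul, one_smul]; norm_num
    rw [this, smul_smul]
    norm_num
  conv_rhs => rw [h2, ← smul_add]
  congr 1
  abel

lemma cfc_g : cfc g Q = (1 / 2 : ℂ) • ((A * A + star A * star A) * cfc Real.cos Q) := by
  rw [← smul_mul_assoc, half D]
  have h1 : cfc g Q = cfc (fun v : ℝ => 1 - 2 * v ^ 2) Q * cfc Real.cos Q := by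
    rw [← cfc_mul (fun v : ℝ => 1 - 2 * v ^ 2) Real.cos Q (by fun_prop) (by fun_prop)]
    rfl
  rw [h1]
  congr 1
  have hq := q_sa D
  rw [cfc_sub (fun _ : ℝ => (1 : ℝ)) (fun v : ℝ => 2 * v ^ 2) Q (by fun_prop) (by fun_prop),
    cfc_const_one ℝ Q, cfc_const_mul (2 : ℝ) (fun v : ℝ => v ^ 2) Q (by fun_prop),
    cfc_pow_id Q 2, sq]
  congr 1

end

end

end Pool.Agent.H678SG.TKLE
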