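import Pool.Agent.H678SG.TKLE2

/-! Klein bottle (helper124), part 3: the core theorem. -/

set_option autoImplicit false

namespace Pool.Agent.H678SG.TKLE

open Pool.Agent.H678SG

noncomputable section

variable {𝓐 : Type} [CStarAlgebra 𝓐]

lemma exp_mul_exp (x : 𝓐) : NormedSpace.exp (Complex.I • (-x)) * NormedSpace.exp (Complex.I • x) = 1 := by
  letI : NormedAlgebra ℚ 𝓐 := NormedAlgebra.restrictScalars ℚ ℂ 𝓐
  rw [smul_neg]
  rw [← NormedSpace.exp_add_of_commute (Commute.refl _).neg_left, neg_add_cancel, NormedSpace.exp_zero]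

lemma exp_mul_exp' (x : 𝓐) : NormedSpace.exp (Complex.I • x) * NormedSpace.exp (Complex.I • (-x)) = 1 := by
  letI : NormedAlgebra ℚ 𝓐 := NormedAlgebra.restrictScalars ℚ ℂ 𝓐
  rw [smul_neg]
  rw [← NormedSpace.exp_add_of_commute (Commute.refl _).neg_right, add_neg_cancel, NormedSpace.exp_zero]

lemma star_exp_neg {x : 𝓐} (hx : star x = x) :
    star (NormedSpace.exp (Complex.I • (-x))) = NormedSpace.exp (Complex.I • x) := by
  rw [NormedSpace.star_exp, star_smul, star_neg, hx]
  congr 1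
  simp

/-- the unitary `q` -/
def qe (A B V Q : 𝓐) : 𝓐 := A * A * NormedSpace.exp (Complex.I • (-(k2 B V Q)))

/-- the imaginary part of `q` -/
def XX (A B V Q : 𝓐) : 𝓐 := (-(Complex.I / 2)) • (qe A B V Q - star (qe A B V Q))

section
variable {A B V Q : 𝓐} (D : Dat A B V Q)
include D

lemma qe_star : star (qe A B V Q) = NormedSpace.exp (Complex.I • k2 B V Q) * (star A * star A) := by
  unfold qe
  rw [star_mul, star_exp_neg (k2_sa D), star_mul]

lemma qe1 : qe A B V Q * star (qe A B V Q) = 1 := by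
  rw [qe_star D]
  unfold qe
  calc A * A * NormedSpace.exp (Complex.I • (-(k2 B V Q))) *
        (NormedSpace.exp (Complex.I • k2 B V Q) * (star A * star A))
      = A * (A * (NormedSpace.exp (Complex.I • (-(k2 B V Q))) *
        NormedSpace.exp (Complex.I • k2 B V Q)) * star A) * star A := by simp only [mul_assoc]
    _ = 1 := by rw [exp_mul_exp, mul_one, D.a2, mul_one, D.a2]

lemma qe2 : star (qe A B V Q) * qe A B V Q = 1 := by
  rw [qe_star D]
  unfold qe
  calc NormedSpace.exp (Complex.I • k2 B V Q) * (star A * star A) *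
        (A * A * NormedSpace.exp (Complex.I • (-(k2 B V Q))))
      = NormedSpace.exp (Complex.I • k2 B V Q) * (star A * (star A * A) * A) *
        NormedSpace.exp (Complex.I • (-(k2 B V Q))) := by simp only [mul_assoc]
    _ = 1 := by rw [D.a1, mul_one, D.a1, mul_one, exp_mul_exp']

lemma exp_k2 (hE : S_EXQ) : NormedSpace.exp (Complex.I • (-(k2 B V Q))) =
    cfc Real.cos Q - Complex.I • (k2 B V Q * cfc Real.sinc Q) := by
  have h := hE 𝓐 (-(k2 B V Q)) Q (by
    rw [IsSelfAdjoint, star_neg, k2_sa D]) (q_sa D) (k2Q D).neg_left (by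
    rw [neg_mul_neg, k2_sq D])
  rw [h, neg_mul, smul_neg, sub_eq_add_neg]

lemma qe_eq (hE : S_EXQ) : qe A B V Q = A * A * cfc Real.cos Q -
    Complex.I • (A * A * (k2 B V Q * cfc Real.sinc Q)) := by
  unfold qe
  rw [exp_k2 D hE, mul_sub, mul_smul_comm]

lemma qe_star_eq (hE : S_EXQ) : star (qe A B V Q) = star A * star A * cfc Real.cos Q +
    Complex.I • (A * A * (k2 B V Q * cfc Real.sinc Q)) := by
  have hC : star (cfc Real.cos Q) = cfc Real.cos Q := (cfc_predicate (R := ℝ) Real.cos Q)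
  have hS : star (cfc Real.sinc Q) = cfc Real.sinc Q := (cfc_predicate (R := ℝ) Real.sinc Q)
  rw [qe_eq D hE]
  simp only [star_sub, star_smul, star_mul, hC, hS, k2_sa D]
  have h1 : star Complex.I = -Complex.I := by simp
  have h2 : cfc Real.cos Q * (star A * star A) = star A * star A * cfc Real.cos Q :=
    (cfc_comm_of ((qsA D).mul_left (qsA D)) Real.cos).eq.symm
  have h3 : cfc Real.sinc Q * k2 B V Q * (star A * star A) =
      A * A * (k2 B V Q * cfc Real.sinc Q) := by
    rw [mul_assoc, k2A D, ← mul_assoc,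
      ← (cfc_comm_of ((qA D).mul_left (qA D)) Real.sinc).eq, mul_assoc,
      (cfc_comm_of (k2Q D) Real.sinc).eq]
  rw [h1, h2, h3, neg_smul, sub_neg_eq_add]

lemma qeQ (hE : S_EXQ) : Commute (qe A B V Q) Q := by
  rw [qe_eq D hE]
  have hC : Commute (cfc Real.cos Q) Q := (Commute.refl Q).cfc_real _
  have hS : Commute (cfc Real.sinc Q) Q := (Commute.refl Q).cfc_real _
  have hAA := (qA D).mul_left (qA D)
  exact (hAA.mul_left hC).sub_left ((hAA.mul_left ((k2Q D).mul_left hS)).smul_left _)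

lemma qsQ (hE : S_EXQ) : Commute (star (qe A B V Q)) Q := by
  have := (qeQ D hE).star_star
  rwa [(q_sa D).star_eq] at this

lemma c_eq (hE : S_EXQ) : cfc g Q = (1 / 2 : ℂ) • (qe A B V Q + star (qe A B V Q)) := by
  rw [cfc_g D, qe_eq D hE, ← qe_eq D hE, qe_star_eq D hE, qe_eq D hE]
  congr 1
  rw [add_mul]
  abel

omit D in
lemma XX_sa : star (XX A B V Q) = XX A B V Q := by
  unfold XX
  rw [star_smul, star_sub, star_star]
  have : star (-(Complex.I / 2)) = Complex.I / 2 := by
    simp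
    ring
  rw [this, neg_smul, ← smul_neg, neg_sub]

lemma XXQ (hE : S_EXQ) : Commute (XX A B V Q) Q := by
  unfold XX
  exact ((qeQ D hE).sub_left (qsQ D hE)).smul_left _

lemma q_cX (hE : S_EXQ) : qe A B V Q = cfc g Q + Complex.I • XX A B V Q := by
  rw [c_eq D hE]
  unfold XX
  rw [smul_smul]
  have h1 : Complex.I * -(Complex.I / 2) = 1 / 2 := by
    have := Complex.I_mul_I
    linear_combination (-(1 / 2) : ℂ) * this
  rw [h1, ← smul_add]
  have h2 : qe A B V Q + star (qe A B V Q) + (qe A B V Q - star (qe A B V Q)) =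
      (2 : ℂ) • qe A B V Q := by
    rw [two_smul]; abel
  rw [h2, smul_smul]
  norm_num

lemma XX_sq (hE : S_EXQ) : XX A B V Q * XX A B V Q = 1 - cfc g Q * cfc g Q := by
  rw [c_eq D hE]
  unfold XX
  rw [smul_mul_smul_comm, smul_mul_smul_comm]
  have h1 : (-(Complex.I / 2)) * (-(Complex.I / 2)) = -(1 / 4 : ℂ) := by
    have := Complex.I_mul_I
    linear_combination (1 / 4 : ℂ) * this
  have h2 : (1 / 2 : ℂ) * (1 / 2) = 1 / 4 := by norm_num
  rw [h1, h2, eq_sub_iff_add_eq, neg_smul, neg_add_eq_sub, ← smul_sub]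
  have h3 : (qe A B V Q + star (qe A B V Q)) * (qe A B V Q + star (qe A B V Q)) -
      (qe A B V Q - star (qe A B V Q)) * (qe A B V Q - star (qe A B V Q)) =
      (4 : ℂ) • (1 : 𝓐) := by
    rw [add_mul, sub_mul, mul_add, mul_add, mul_sub, mul_sub, qe1 D, qe2 D]
    have h4 : (4 : ℂ) • (1 : 𝓐) = 1 + 1 + 1 + 1 := by
      have : (4 : ℂ) = 1 + 1 + 1 + 1 := by norm_num
      rw [this, add_smul, add_smul, add_smul, one_smul]
    rw [h4]
    abel
  rw [h3, smul_smul]
  norm_num

/-- the first exponential -/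
lemma exp_k1 [Nontrivial 𝓐] (hE : S_EXQ) :
    NormedSpace.exp (Complex.I • (cfc hh Q * XX A B V Q)) = qe A B V Q := by
  have hsp := fun x hx => spec_q D (x := x) hx
  have hhc : ContinuousOn hh (spectrum ℝ Q) := hh_cont.mono fun x hx => ⟨(hsp x hx).1, (hsp x hx).2⟩
  have hgc : ContinuousOn g (spectrum ℝ Q) := g_cont.continuousOn
  have htc : ContinuousOn th (spectrum ℝ Q) := th_cont.continuousOn
  have hXH : Commute (XX A B V Q) (cfc hh Q) := cfc_comm_of (XXQ D hE) hh
  have hHs : star (cfc hh Q) = cfc hh Q := (cfc_predicate (R := ℝ) hh Q)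
  have hT : IsSelfAdjoint (cfc th Q) := cfc_predicate _ _
  have hXT : Commute (XX A B V Q) (cfc th Q) := cfc_comm_of (XXQ D hE) th
  have hHT : Commute (cfc hh Q) (cfc th Q) := cfc_comm_of ((Commute.refl Q).cfc_real hh) th
  have h1 : cfc hh Q * XX A B V Q * (cfc hh Q * XX A B V Q) = cfc th Q * cfc th Q := by
    calc cfc hh Q * XX A B V Q * (cfc hh Q * XX A B V Q)
        = cfc hh Q * (XX A B V Q * cfc hh Q) * XX A B V Q := by simp only [mul_assoc]
      _ = cfc hh Q * cfc hh Q * (XX A B V Q * XX A B V Q) := by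
          rw [hXH.eq]; simp only [mul_assoc]
      _ = cfc hh Q * cfc hh Q * (1 - cfc g Q * cfc g Q) := by rw [XX_sq D hE]
      _ = cfc (fun x => hh x * hh x * (1 - g x * g x)) Q := by
          rw [cfc_mul (fun x => hh x * hh x) (fun x => 1 - g x * g x) Q (hhc.mul hhc)
            (continuousOn_const.sub (hgc.mul hgc)), cfc_mul hh hh Q hhc hhc,
            cfc_sub (fun _ : ℝ => (1 : ℝ)) (fun x => g x * g x) Q continuousOn_const (hgc.mul hgc),
            cfc_mul g g Q hgc hgc, cfc_const_one ℝ Q (q_sa D)]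
      _ = cfc (fun x => th x * th x) Q :=
          cfc_congr fun x hx => hh_sq (hsp x hx).1 (hsp x hx).2
      _ = cfc th Q * cfc th Q := cfc_mul th th Q htc htc
  have h2 := hE 𝓐 (cfc hh Q * XX A B V Q) (cfc th Q) (by
    rw [IsSelfAdjoint, star_mul, XX_sa, hHs, hXH.eq]) hT (hHT.mul_left hXT) h1
  rw [h2, q_cX D hE]
  have h3 : cfc Real.cos (cfc th Q) = cfc g Q := by
    rw [← cfc_comp Real.cos th Q (q_sa D) Real.continuous_cos.continuousOn htc]
    exact cfc_congr fun x hx => cos_th (hsp x hx).1 (hsp x hx).2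
  have h4 : cfc hh Q * XX A B V Q * cfc Real.sinc (cfc th Q) = XX A B V Q := by
    rw [← cfc_comp Real.sinc th Q (q_sa D) Real.continuous_sinc.continuousOn htc,
      ← hXH.eq, mul_assoc, ← cfc_mul hh (Real.sinc ∘ th) Q hhc
      (Real.continuous_sinc.comp th_cont).continuousOn]
    have h5 : cfc (fun x => hh x * (Real.sinc ∘ th) x) Q = 1 := by
      rw [← cfc_const_one ℝ Q (q_sa D)]
      exact cfc_congr fun x hx => hh_sinc (hsp x hx).1 (hsp x hx).2
    rw [h5, mul_one]
  rw [h3, h4]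

/-! ### traces -/

lemma el_cfc {x : 𝓐} (f : ℝ → ℝ) (hx : x ∈ StarAlgebra.elemental ℂ A) :
    cfc f x ∈ StarAlgebra.elemental ℂ A :=
  cfc_mem (𝕜' := ℂ) (hs := StarAlgebra.elemental.isClosed ℂ A) f hx

lemma el_A : A ∈ StarAlgebra.elemental ℂ A := StarAlgebra.elemental.self_mem ℂ A

lemma el_V : V ∈ StarAlgebra.elemental ℂ A := by
  rw [D.v]
  exact (StarAlgebra.elemental ℂ A).smul_mem (sub_mem (el_A D) (star_mem (el_A D))) _

lemma el_Q : Q ∈ StarAlgebra.elemental ℂ A := by
  rw [D.q]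
  exact el_cfc D _ (mul_mem (el_V D) (el_V D))

lemma el_Pp : Pp V Q ∈ StarAlgebra.elemental ℂ A := by
  unfold Pp
  exact (StarAlgebra.elemental ℂ A).smul_mem (add_mem (el_Q D) (el_V D)) _

lemma XX_eq (hE : S_EXQ) : XX A B V Q =
    (-(Complex.I / 2)) • ((A * A - star A * star A) * cfc Real.cos Q) -
      A * A * (k2 B V Q * cfc Real.sinc Q) := by
  unfold XX
  rw [qe_star_eq D hE, qe_eq D hE]
  have h1 : A * A * cfc Real.cos Q - Complex.I • (A * A * (k2 B V Q * cfc Real.sinc Q)) -
      (star A * star A * cfc Real.cos Q + Complex.I • (A * A * (k2 B V Q * cfc Real.sinc Q))) =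
      (A * A - star A * star A) * cfc Real.cos Q -
        (2 * Complex.I) • (A * A * (k2 B V Q * cfc Real.sinc Q)) := by
    rw [sub_mul, mul_smul, two_smul]
    abel
  rw [h1, smul_sub, smul_smul]
  have h2 : -(Complex.I / 2) * (2 * Complex.I) = 1 := by
    have := Complex.I_mul_I
    linear_combination (-1 : ℂ) * this
  rw [h2, one_smul]

end

/-- the core theorem -/
theorem core [Nontrivial 𝓐] (hE : S_EXQ) (τ : 𝓐 → ℂ) (hadd : ∀ x y, τ (x + y) = τ x + τ y)
    (hsmul : ∀ (s : ℂ) x, τ (s • x) = s * τ x) (htr : ∀ x y, τ (x * y) = τ (y * x))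
    (A B : 𝓐) (hA1 : star A * A = 1) (hA2 : A * star A = 1) (hB1 : star B * B = 1)
    (hB2 : B * star B = 1) (hBA : B * A = star A * B)
    (h0 : ∀ x ∈ StarAlgebra.elemental ℂ A, τ (B * x) = 0 ∧ τ (star B * x) = 0) :
    ∃ k1 k2 : 𝓐, IsSelfAdjoint k1 ∧ IsSelfAdjoint k2 ∧ τ k1 = 0 ∧ τ k2 = 0 ∧
      A * A = NormedSpace.exp (Complex.I • k1) * NormedSpace.exp (Complex.I • k2) := by
  set V : 𝓐 := (-(Complex.I / 2)) • (A - star A) with hV
  set Q : 𝓐 := cfc Real.sqrt (V * V) with hQ
  have D : Dat A B V Q := ⟨hA1, hA2, hB1, hB2, hBA, hV, hQ⟩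
  have hneg : ∀ x, τ (-x) = -τ x := by
    intro x
    have := hsmul (-1) x
    rwa [neg_one_smul, neg_one_mul] at this
  have hsub : ∀ x y, τ (x - y) = τ x - τ y := by
    intro x y
    rw [sub_eq_add_neg, hadd, hneg, sub_eq_add_neg]
  refine ⟨cfc hh Q * XX A B V Q, k2 B V Q, ?_, k2_sa D, ?_, ?_, ?_⟩
  · have hHs : star (cfc hh Q) = cfc hh Q := (cfc_predicate (R := ℝ) hh Q)
    rw [IsSelfAdjoint, star_mul, XX_sa, hHs, (cfc_comm_of (XXQ D hE) hh).eq]
  · rw [XX_eq D hE, mul_sub, mul_smul_comm, hsub, hsmul]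
    have t1 : τ (cfc hh Q * ((A * A - star A * star A) * cfc Real.cos Q)) = 0 := by
      set y := cfc hh Q * ((A * A - star A * star A) * cfc Real.cos Q) with hy
      have hBH : B * cfc hh Q = cfc hh Q * B := (cfc_comm_of (qB D) hh).eq
      have hBC : B * cfc Real.cos Q = cfc Real.cos Q * B := (cfc_comm_of (qB D) Real.cos).eq
      have hBAA : B * (A * A) = star A * star A * B := by
        rw [← mul_assoc, D.ba, mul_assoc, D.ba, ← mul_assoc]
      have hBsAA : B * (star A * star A) = A * A * B := by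
        rw [← mul_assoc, bsa D, mul_assoc, bsa D, ← mul_assoc]
      have hBD : B * (A * A - star A * star A) = -((A * A - star A * star A) * B) := by
        rw [mul_sub, hBAA, hBsAA, sub_mul, neg_sub]
      have h1 : B * y = -(y * B) := by
        calc B * y = (B * cfc hh Q) * ((A * A - star A * star A) * cfc Real.cos Q) := by
              rw [hy]; simp only [mul_assoc]
          _ = cfc hh Q * ((B * (A * A - star A * star A)) * cfc Real.cos Q) := by
              rw [hBH]; simp only [mul_assoc]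
          _ = -(cfc hh Q * ((A * A - star A * star A) * (B * cfc Real.cos Q))) := by
              rw [hBD, neg_mul, mul_neg]; simp only [mul_assoc]
          _ = -(y * B) := by rw [hBC, hy]; simp only [mul_assoc]
      have h2 : τ y = -τ y := by
        calc τ y = τ (star B * (B * y)) := by rw [← mul_assoc, hB1, one_mul]
          _ = -τ (star B * (y * B)) := by rw [h1, mul_neg, hneg]
          _ = -τ (y * B * star B) := by rw [htr]
          _ = -τ y := by rw [mul_assoc, hB2, mul_one]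
      have h3 : (2 : ℂ) * τ y = 0 := by linear_combination h2
      simpa using h3
    have t2 : τ (cfc hh Q * (A * A * (k2 B V Q * cfc Real.sinc Q))) = 0 := by
      have e1 : cfc hh Q * (A * A * (k2 B V Q * cfc Real.sinc Q)) =
          (cfc hh Q * (A * A)) * (B * (Pp V Q * cfc Real.sinc Q)) +
          (cfc hh Q * (A * A) * Pp V Q) * (star B * cfc Real.sinc Q) := by
        unfold k2
        simp only [mul_add, add_mul, mul_assoc]
      have e2 : B * (Pp V Q * cfc Real.sinc Q) * (cfc hh Q * (A * A)) =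
          B * (Pp V Q * cfc Real.sinc Q * (cfc hh Q * (A * A))) := by simp only [mul_assoc]
      have e3 : star B * cfc Real.sinc Q * (cfc hh Q * (A * A) * Pp V Q) =
          star B * (cfc Real.sinc Q * (cfc hh Q * (A * A) * Pp V Q)) := by simp only [mul_assoc]
      rw [e1, hadd, htr (cfc hh Q * (A * A)), htr (cfc hh Q * (A * A) * Pp V Q), e2, e3]
      have hH := el_cfc D hh (el_Q D)
      have hS := el_cfc D Real.sinc (el_Q D)
      have hAA := mul_mem (el_A D) (el_A D)
      rw [(h0 _ (mul_mem (mul_mem (el_Pp D) hS) (mul_mem hH hAA))).1,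
        (h0 _ (mul_mem hS (mul_mem (mul_mem hH hAA) (el_Pp D)))).2, add_zero]
    rw [t1, t2]
    simp
  · unfold k2
    rw [hadd, (h0 _ (el_Pp D)).1, htr (Pp V Q), (h0 _ (el_Pp D)).2, add_zero]
  · rw [exp_k1 D hE]
    unfold qe
    rw [mul_assoc, exp_mul_exp, mul_one]

end

end Pool.Agent.H678SG.TKLE
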