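import Pool.Agent.H678SG.Stubs

set_option autoImplicit false

namespace Pool.Agent.H678SG.TLA

open Pool.Agent.H678SG

variable {G G' : Type} [Group G] [Group G']

theorem lc_mul (g h : G) : (lc (g * h) : CR G) = lc g * lc h := by
  simp only [lc, map_mul, Submonoid.coe_mul]

theorem lamC_inv (g : G) : (((lamC G g)⁻¹ : unitary (CR G)) : CR G) = star (lc g) := rfl

theorem lc_inv (g : G) : (lc g⁻¹ : CR G) = star (lc g) := by
  simp only [lc, map_inv]; rfl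

/-- a `*`-homomorphism on unitaries -/
noncomputable def mapU (J : CR G →⋆ₐ[ℂ] CR G') : unitary (CR G) →* unitary (CR G') where
  toFun U := ⟨J (U : CR G), by
    have h1 := (Unitary.mem_iff.mp U.2).1
    have h2 := (Unitary.mem_iff.mp U.2).2
    rw [Unitary.mem_iff]
    constructor
    · rw [← map_star, ← map_mul, h1, map_one]
    · rw [← map_star, ← map_mul, h2, map_one]⟩
  map_one' := Subtype.ext (by simp)
  map_mul' U V := Subtype.ext (by simp)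

@[simp] theorem coe_mapU (J : CR G →⋆ₐ[ℂ] CR G') (U : unitary (CR G)) :
    ((mapU J U : unitary (CR G')) : CR G') = J (U : CR G) := rfl

theorem mapU_mem (hDUJ : S_DUJ) {ι : G →* G'} {J : CR G →⋆ₐ[ℂ] CR G'} (hJ : IsJ ι J)
    {D : unitary (CR G)} (hD : D ∈ DU G) : mapU J D ∈ DU G' := by
  obtain ⟨D', h1, h2⟩ := hDUJ G G' ι J hJ D hD
  have : mapU J D = D' := Subtype.ext (by rw [coe_mapU, h2])
  rw [this]; exact h1

theorem mapU_lam {ι : G →* G'} {J : CR G →⋆ₐ[ℂ] CR G'} (hJ : IsJ ι J) (g : G) :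
    mapU J (lamC G g) = lamC G' (ι g) := Subtype.ext (by
      rw [coe_mapU]; exact hJ.1 g)

theorem i2_inj (H : Type) [Group H] : Function.Injective (i2 H) := by
  intro a b h
  exact HNNExtension.of_injective _ (HNNExtension.of_injective _ h)

theorem inf_i2 {H : Type} [Group H] {u : H} (hu : ¬ IsOfFinOrder u) : ¬ IsOfFinOrder (i2 H u) :=
  fun h => hu (((i2_inj H).isOfFinOrder_iff).1 h)

/-- the flow theorem in the form used here: `β * y(u) ↦ J β₁ * y(u)` -/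
theorem key (hFL : S_FL) (H : Type) [Group H] (u : H) (hu : ¬ IsOfFinOrder u) (β : H)
    (β₁ : unitary (CR H)) (hD : (lamC H β)⁻¹ * β₁ ∈ DU H) :
    ∃ Θ : TI (P2 H) (P2 H), (∀ b : Bool, ∃ W ∈ DU (P2 H),
      Θ.e (lc (l2 H b)) = (W : CR (P2 H)) * lc (l2 H b)) ∧
    ∀ J, IsJ (i2 H) J → (∀ x, Θ.e (J x) = J x) ∧
      Θ.e (lc (i2 H β * yy u)) = J (β₁ : CR H) * lc (yy u) := by
  obtain ⟨Θ, h1, h2⟩ := hFL H u hu _ hD
  refine ⟨Θ, h1, fun J hJ => ?_⟩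
  obtain ⟨h3, h4⟩ := h2 J hJ
  refine ⟨h3, ?_⟩
  rw [lc_mul, map_mul, h4, ← hJ.1 β, h3, ← mul_assoc, ← map_mul]
  congr 2
  rw [Submonoid.coe_mul, lamC_inv, ← mul_assoc]
  have h5 := (Unitary.mem_iff.mp (lamC H β).2).2
  rw [h5, one_mul]

/-- words modulo a normal subgroup -/
theorem word {B : Type} [Group B] (M : Subgroup B) (hM : M.Normal) (s t x y w w' : B)
    (h : x * y⁻¹ ∈ M) (hw : w * w'⁻¹ ∈ M) :
    (w' * (s * y * s⁻¹ * (t * y * t⁻¹)))⁻¹ * (w * (s * x * s⁻¹ * (t * x * t⁻¹))) ∈ M := by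
  haveI := hM
  have h1 : (QuotientGroup.mk' M) (x * y⁻¹) = 1 := (QuotientGroup.eq_one_iff _).2 h
  have h2 : (QuotientGroup.mk' M) (w * w'⁻¹) = 1 := (QuotientGroup.eq_one_iff _).2 hw
  rw [map_mul, map_inv, mul_inv_eq_one] at h1 h2
  apply (QuotientGroup.eq_one_iff _).1
  change (QuotientGroup.mk' M) _ = 1
  simp only [map_mul, map_inv, h1, h2]
  group

/-- words modulo a normal subgroup, other order -/
theorem word' {B : Type} [Group B] (M : Subgroup B) (hM : M.Normal) (s t x y w : B)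
    (h : x * y⁻¹ ∈ M) :
    ((s * y * s⁻¹ * (t * y * t⁻¹)) * w)⁻¹ * ((s * x * s⁻¹ * (t * x * t⁻¹)) * w) ∈ M := by
  haveI := hM
  have h1 : (QuotientGroup.mk' M) (x * y⁻¹) = 1 := (QuotientGroup.eq_one_iff _).2 h
  rw [map_mul, map_inv, mul_inv_eq_one] at h1
  apply (QuotientGroup.eq_one_iff _).1
  change (QuotientGroup.mk' M) _ = 1
  simp only [map_mul, map_inv, h1]
  group

/-- images modulo `DU` -/
theorem im_mem (hDUJ : S_DUJ) {ι : G →* G'} {J : CR G →⋆ₐ[ℂ] CR G'} (hJ : IsJ ι J) (u : G)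
    (u₁ : unitary (CR G)) (hu : u₁ * (lamC G u)⁻¹ ∈ DU G) :
    mapU J u₁ * (lamC G' (ι u))⁻¹ ∈ DU G' := by
  have h := mapU_mem hDUJ hJ hu
  rw [MonoidHom.map_mul, MonoidHom.map_inv, mapU_lam hJ] at h
  exact h

/-- the product of conjugates in the algebra of `P2 H` -/
noncomputable def cc {H : Type} [Group H] (J : CR H →⋆ₐ[ℂ] CR (P2 H)) (v : unitary (CR H)) :
    unitary (CR (P2 H)) :=
  lamC _ (l2 H false) * mapU J v * (lamC _ (l2 H false))⁻¹ *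
    (lamC _ (l2 H true) * mapU J v * (lamC _ (l2 H true))⁻¹)

theorem lamC_yy {H : Type} [Group H] (u : H) : lamC (P2 H) (yy u) =
    lamC _ (l2 H false) * lamC _ (i2 H u) * (lamC _ (l2 H false))⁻¹ *
    (lamC _ (l2 H true) * lamC _ (i2 H u) * (lamC _ (l2 H true))⁻¹) := by
  rw [yy, MonoidHom.map_mul, MonoidHom.map_mul, MonoidHom.map_mul, MonoidHom.map_mul,
    MonoidHom.map_mul, MonoidHom.map_inv, MonoidHom.map_inv]

theorem coe_cc {H : Type} [Group H] (J : CR H →⋆ₐ[ℂ] CR (P2 H)) (v : unitary (CR H)) :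
    (cc J v : CR (P2 H)) = lc (l2 H false) * J v * star (lc (l2 H false)) *
      (lc (l2 H true) * J v * star (lc (l2 H true))) := rfl

theorem J2_cc {H : Type} [Group H] {J1 : CR H →⋆ₐ[ℂ] CR (P2 H)}
    {J2 : CR (P2 H) →⋆ₐ[ℂ] CR (P4 H)} (hJ2 : IsJ (i2 (P2 H)) J2) (v : unitary (CR H)) :
    J2 (cc J1 v : CR (P2 H)) =
      cjg (J2.comp J1) (.inl false) v * cjg (J2.comp J1) (.inl true) v := by
  have h1 := hJ2.1 (l2 H false)
  have h2 := hJ2.1 (l2 H true)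
  rw [coe_cc, map_mul, map_mul, map_mul, map_mul, map_mul, map_star, map_star, h1, h2]
  rfl

theorem lc_yy {H : Type} [Group H] {J : CR H →⋆ₐ[ℂ] CR (P4 H)} (hJ : IsJ (i4 H) J) (u : H) :
    (lc (yy (i2 H u)) : CR (P4 H)) =
          cjg J (.inr false) (lc u) * cjg J (.inr true) (lc u) := by
  have h1 := hJ.1 u
  rw [cjg, cjg, h1, yy, lc_mul, lc_mul, lc_mul, lc_mul, lc_mul, lc_inv, lc_inv]
  rfl

theorem t_LA (hFL : S_FL) (hINJ : S_INJ) (hJU : S_JU) (hDUJ : S_DUJ) (hDUN : S_DUN) : S_LA := by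
  intro H _ w u w₁ u₁ hu hw1 hu1
  obtain ⟨J1, hJ1⟩ := hINJ H (P2 H) (i2 H) (i2_inj H)
  obtain ⟨J2, hJ2⟩ := hINJ (P2 H) (P4 H) (i2 (P2 H)) (i2_inj (P2 H))
  have hD : (lamC (P2 H) (i2 H w * yy u))⁻¹ * (mapU J1 w₁ * cc J1 u₁) ∈ DU (P2 H) := by
    rw [MonoidHom.map_mul, lamC_yy]
    exact word (DU (P2 H)) (hDUN _) _ _ _ _ _ _ (im_mem hDUJ hJ1 u u₁ hu1)
      (im_mem hDUJ hJ1 w w₁ hw1)
  obtain ⟨Θ, hl, hΘ⟩ := key hFL (P2 H) (i2 H u) (inf_i2 hu) (i2 H w * yy u) _ hD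
  obtain ⟨hfix, hzz⟩ := hΘ J2 hJ2
  refine ⟨Θ, ?_, ?_⟩
  · rintro (b | b)
    · refine ⟨1, (DU (P4 H)).one_mem, ?_⟩
      have h1 : (lc (l4 H (.inl b)) : CR (P4 H)) = J2 (lc (l2 H b)) := (hJ2.1 _).symm
      rw [h1, hfix]
      exact (one_mul _).symm
    · exact hl b
  · intro J hJ
    have hJJ : J = J2.comp J1 := hJU.1 H (P4 H) (i4 H) J _ hJ (hJU.2.1 _ _ _ _ _ _ _ hJ1 hJ2)
    refine ⟨fun x => ?_, ?_⟩
    · rw [hJJ]; exact hfix _
    · have h3 := lc_yy hJ u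
      have h2 := J2_cc (J1 := J1) hJ2 u₁
      rw [← hJJ] at h2
      have h5 : J2 (J1 (w₁ : CR H)) = J (w₁ : CR H) := by rw [hJJ]; rfl
      refine hzz.trans ?_
      refine congrArg₂ (fun a b : CR (P4 H) => a * b) ?_ h3
      refine (map_mul J2 (mapU J1 w₁ : CR (P2 H)) (cc J1 u₁ : CR (P2 H))).trans ?_
      exact congrArg₂ (fun a b : CR (P4 H) => a * b) h5 h2

end Pool.Agent.H678SG.TLA
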