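import Pool.Agent.H678SG.TLA

set_option autoImplicit false

namespace Pool.Agent.H678SG.TLB

open Pool.Agent.H678SG Pool.Agent.H678SG.TLA

variable {G G' : Type} [Group G] [Group G']

/-- words modulo a normal subgroup, third form -/
theorem word3 {B : Type} [Group B] (M : Subgroup B) (hM : M.Normal) (s t x y : B)
    (h : x * y⁻¹ ∈ M) :
    (s * y * s⁻¹ * (t * y * t⁻¹))⁻¹ * (s * x * s⁻¹ * (t * x * t⁻¹)) ∈ M := by
  have h1 := word' M hM s t x y 1 h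
  simpa using h1

/-- conjugation in an abstract star ring -/
theorem alg {A : Type} [Ring A] [StarRing A] (w y z b : unitary A) (q : A)
    (hx : q = star (z : A) * ((b : A) * (w : A) * (y : A)) * (z : A)) :
    q = ((z⁻¹ * b : unitary A) : A) * ((w : A) * (y : A) * (b : A)) *
      star ((z⁻¹ * b : unitary A) : A) := by
  have h1 := (Unitary.mem_iff.mp b.2).2
  have e1 : ((z⁻¹ * b : unitary A) : A) = star (z : A) * (b : A) := rfl
  rw [hx, e1, star_mul, star_star]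
  simp only [mul_assoc]
  congr 4
  rw [← mul_assoc (b : A), h1, one_mul]

theorem iso_comp {G'' : Type} [Group G''] (P : TI G' G'') (J : CR G →⋆ₐ[ℂ] CR G')
    {ι : G →* G'} (hJ : IsJ ι J) (ι' : G →* G'') (h : ∀ g, P.e (lc (ι g)) = lc (ι' g)) :
    IsJ ι' ((P.e : CR G' →⋆ₐ[ℂ] CR G'').comp J) := by
  refine ⟨fun g => ?_, ?_, fun x => ?_⟩
  · change P.e (J (lc g)) = _
    rw [hJ.1, h]
  · have h1 : Isometry P.e :=
      NonUnitalStarAlgHom.isometry (F := CR G' ≃⋆ₐ[ℂ] CR G'') P.e P.e.injective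
    exact h1.comp hJ.2.1
  · change tr (P.e (J x)) = _
    rw [P.tr_e, hJ.2.2]

/-- group automorphisms fixing `H` fix `C*_r(H)` -/
theorem fixJ (hJU : S_JU) (P : TI G' G') {e : G' ≃* G'} (hP : ∀ g, P.e (lc g) = lc (e g))
    {ι : G →* G'} (he : ∀ g, e (ι g) = ι g) {J : CR G →⋆ₐ[ℂ] CR G'} (hJ : IsJ ι J) (x : CR G) :
    P.e (J x) = J x := by
  have h1 := iso_comp P J hJ ι (fun g => by rw [hP, he])
  have h2 := hJU.1 _ _ _ _ _ h1 hJ
  exact congrArg (fun f : CR G →⋆ₐ[ℂ] CR G' => f x) h2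

/-- the unitary conjugates -/
noncomputable def cU {H : Type} [Group H] (J : CR H →⋆ₐ[ℂ] CR (P4 H)) (i : Bool ⊕ Bool)
    (v : unitary (CR H)) : unitary (CR (P4 H)) :=
  lamC (P4 H) (l4 H i) * mapU J v * (lamC (P4 H) (l4 H i))⁻¹

theorem coe_cU {H : Type} [Group H] (J : CR H →⋆ₐ[ℂ] CR (P4 H)) (i : Bool ⊕ Bool)
    (v : unitary (CR H)) : (cU J i v : CR (P4 H)) = cjg J i v := rfl

/-- an isomorphism moving letters moves conjugates -/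
theorem mv_cjg {H : Type} [Group H] {J : CR H →⋆ₐ[ℂ] CR (P4 H)} (P : TI (P4 H) (P4 H))
    (hP : ∀ x, P.e (J x) = J x) (i k : Bool ⊕ Bool) (hik : P.e (lc (l4 H i)) = lc (l4 H k))
    (v : CR H) : P.e (cjg J i v) = cjg J k v := by
  rw [cjg, cjg, map_mul, map_mul, map_star, hik, hP]

theorem lamC_yy4 {H : Type} [Group H] (u : H) : lamC (P4 H) (yy (i2 H u)) =
    lamC (P4 H) (l4 H (.inr false)) * lamC (P4 H) (i4 H u) * (lamC (P4 H) (l4 H (.inr false)))⁻¹ *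
    (lamC (P4 H) (l4 H (.inr true)) * lamC (P4 H) (i4 H u) *
      (lamC (P4 H) (l4 H (.inr true)))⁻¹) :=
  lamC_yy (i2 H u)

theorem lc_y23 {H : Type} [Group H] {J : CR H →⋆ₐ[ℂ] CR (P4 H)} (hJ : IsJ (i4 H) J) (u : H) :
    (lc (i2 (P2 H) (yy u)) : CR (P4 H)) =
          cjg J (.inl false) (lc u) * cjg J (.inl true) (lc u) := by
  have h1 := hJ.1 u
  have h2 : i2 (P2 H) (yy u) = l4 H (.inl false) * i4 H u * (l4 H (.inl false))⁻¹ *
      (l4 H (.inl true) * i4 H u * (l4 H (.inl true))⁻¹) := by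
    rw [yy, map_mul, map_mul, map_mul, map_mul, map_mul, map_inv, map_inv]
    rfl
  rw [cjg, cjg, h1, h2, lc_mul, lc_mul, lc_mul, lc_mul, lc_mul, lc_inv, lc_inv]

/-- the group word -/
theorem zz_eq {H : Type} [Group H] (w u : H) : zz w u =
    (yy (i2 H u))⁻¹ * (yy (i2 H u) * (i4 H w * i2 (P2 H) (yy u))) * yy (i2 H u) := by
  have h : i2 (P2 H) (i2 H w * yy u) = i4 H w * i2 (P2 H) (yy u) := by rw [map_mul]; rfl
  rw [zz, h]
  group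

/-- the exchange -/
theorem sw_y23 {H : Type} [Group H] (e : P4 H ≃* P4 H) (he : ∀ h, e (i4 H h) = i4 H h)
    (hel : ∀ b, e (l4 H (.inl b)) = l4 H (.inr b) ∧ e (l4 H (.inr b)) = l4 H (.inl b)) (u : H) :
    e (i2 (P2 H) (yy u)) = yy (i2 H u) := by
  have h2 : i2 (P2 H) (yy u) = l4 H (.inl false) * i4 H u * (l4 H (.inl false))⁻¹ *
      (l4 H (.inl true) * i4 H u * (l4 H (.inl true))⁻¹) := by
    rw [yy, map_mul, map_mul, map_mul, map_mul, map_mul, map_inv, map_inv]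
    rfl
  rw [h2, map_mul, map_mul, map_mul, map_mul, map_mul, map_inv, map_inv, (hel _).1, (hel _).1, he]
  rfl

theorem sw_y45 {H : Type} [Group H] (e : P4 H ≃* P4 H) (he : ∀ h, e (i4 H h) = i4 H h)
    (hel : ∀ b, e (l4 H (.inl b)) = l4 H (.inr b) ∧ e (l4 H (.inr b)) = l4 H (.inl b)) (u : H) :
    e (yy (i2 H u)) = i2 (P2 H) (yy u) := by
  have h2 : i2 (P2 H) (yy u) = l4 H (.inl false) * i4 H u * (l4 H (.inl false))⁻¹ *
      (l4 H (.inl true) * i4 H u * (l4 H (.inl true))⁻¹) := by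
    rw [yy, map_mul, map_mul, map_mul, map_mul, map_mul, map_inv, map_inv]
    rfl
  have h3 : yy (i2 H u) = l4 H (.inr false) * i4 H u * (l4 H (.inr false))⁻¹ *
      (l4 H (.inr true) * i4 H u * (l4 H (.inr true))⁻¹) := rfl
  rw [h2, h3, map_mul, map_mul, map_mul, map_mul, map_mul, map_inv, map_inv, (hel _).2, (hel _).2,
    he]

theorem e_mul (P : TI G G') (a b : CR G) : P.e (a * b) = P.e a * P.e b := map_mul P.e a b

theorem e_mul' (P : TI G G') {a b : CR G} {a' b' : CR G'} (ha : P.e a = a') (hb : P.e b = b') :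
    P.e (a * b) = a' * b' := by rw [e_mul, ha, hb]

theorem e_star (P : TI G G') (a : CR G) : P.e (star a) = star (P.e a) := map_star P.e a

/-- the value of the flow automorphism -/
theorem valF {H : Type} [Group H] (e : P4 H ≃* P4 H) (he : ∀ h, e (i4 H h) = i4 H h)
    (hel : ∀ b, e (l4 H (.inl b)) = l4 H (.inr b) ∧ e (l4 H (.inr b)) = l4 H (.inl b))
    (Pe Pi F : TI (P4 H) (P4 H)) (hPe : ∀ g, Pe.e (lc g) = lc (e g))
    (hPi : ∀ g, Pi.e (lc g) = lc (e.symm g)) (J : CR H →⋆ₐ[ℂ] CR (P4 H))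
    (hPiJ : ∀ x, Pi.e (J x) = J x) (w u : H) (v : CR H)
    (hF : F.e (lc (i2 (P2 H) (yy u * i2 H w) * yy (i2 H u))) =
      cjg J (.inl false) v * cjg J (.inl true) v * J (lc w) * lc (yy (i2 H u))) :
    Pi.e (F.e (Pe.e (lc (yy (i2 H u) * (i4 H w * i2 (P2 H) (yy u)))))) =
      cjg J (.inr false) v * cjg J (.inr true) v * J (lc w) * lc (i2 (P2 H) (yy u)) := by
  have h1 : e (yy (i2 H u) * (i4 H w * i2 (P2 H) (yy u))) =
      i2 (P2 H) (yy u * i2 H w) * yy (i2 H u) := by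
    rw [map_mul, map_mul, sw_y23 e he hel, sw_y45 e he hel, he, map_mul, mul_assoc]
    rfl
  have hk : ∀ b, Pi.e (lc (l4 H (.inl b))) = lc (l4 H (.inr b)) := by
    intro b
    rw [hPi]
    congr 2
    rw [MulEquiv.symm_apply_eq]
    exact ((hel b).2).symm
  have h2 : e.symm (yy (i2 H u)) = i2 (P2 H) (yy u) := by
    rw [MulEquiv.symm_apply_eq, sw_y23 e he hel]
  have q1 := mv_cjg Pi hPiJ (.inl false) (.inr false) (hk false) v
  have q2 := mv_cjg Pi hPiJ (.inl true) (.inr true) (hk true) v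
  have q3 := hPiJ (lc w)
  have q4 := hPi (yy (i2 H u))
  rw [h2] at q4
  have q5 : F.e (Pe.e (lc (yy (i2 H u) * (i4 H w * i2 (P2 H) (yy u))))) =
      cjg J (.inl false) v * cjg J (.inl true) v * J (lc w) * lc (yy (i2 H u)) := by
    rw [hPe, h1, hF]
  exact (congrArg Pi.e q5).trans (e_mul' Pi (e_mul' Pi (e_mul' Pi q1 q2) q3) q4)

theorem fin {H : Type} [Group H] (Θ : TI (P4 H) (P4 H)) (w u : H) (v : CR (P4 H))
    (h1 : Θ.e (lc (yy (i2 H u))) = lc (yy (i2 H u)))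
    (h2 : Θ.e (lc (yy (i2 H u) * (i4 H w * i2 (P2 H) (yy u)))) =
      v * lc (i4 H w) * lc (i2 (P2 H) (yy u))) :
    Θ.e (lc (zz w u)) = star (lc (yy (i2 H u))) * (v * lc (i4 H w) * lc (i2 (P2 H) (yy u))) *
      lc (yy (i2 H u)) := by
  have h3 := e_star Θ (lc (yy (i2 H u)))
  rw [h1] at h3
  have h4 := zz_eq w u
  have h5 : (lc (zz w u) : CR (P4 H)) = star (lc (yy (i2 H u))) *
    lc (yy (i2 H u) * (i4 H w * i2 (P2 H) (yy u))) * lc (yy (i2 H u)) := by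
    rw [h4, lc_mul ((yy (i2 H u))⁻¹ * _), lc_mul (yy (i2 H u))⁻¹, lc_inv]
  exact (congrArg Θ.e h5).trans (e_mul' Θ (e_mul' Θ h3 h2) h1)

theorem exF (hFL : S_FL) (hDUJ : S_DUJ) (hDUN : S_DUN) {H : Type} [Group H] (w u : H)
    (u₁ : unitary (CR H)) (hu : ¬ IsOfFinOrder u) (hu1 : u₁ * (lamC H u)⁻¹ ∈ DU H)
    {J1 : CR H →⋆ₐ[ℂ] CR (P2 H)} {J2 : CR (P2 H) →⋆ₐ[ℂ] CR (P4 H)}
    (hJ1 : IsJ (i2 H) J1) (hJ2 : IsJ (i2 (P2 H)) J2) :
    ∃ F : TI (P4 H) (P4 H), (∀ b, ∃ W ∈ DU (P4 H),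
      F.e (lc (l4 H (.inr b))) = (W : CR (P4 H)) * lc (l4 H (.inr b))) ∧
      (∀ x, F.e (J2 x) = J2 x) ∧
      F.e (lc (i2 (P2 H) (yy u * i2 H w) * yy (i2 H u))) =
      cjg (J2.comp J1) (.inl false) u₁ * cjg (J2.comp J1) (.inl true) u₁ *
        (J2.comp J1) (lc w) * lc (yy (i2 H u)) := by
  have hD : (lamC (P2 H) (yy u * i2 H w))⁻¹ * (cc J1 u₁ * lamC (P2 H) (i2 H w)) ∈ DU (P2 H) := by
    rw [MonoidHom.map_mul, lamC_yy]
    exact word' (DU (P2 H)) (hDUN _) _ _ _ _ _ (im_mem hDUJ hJ1 u u₁ hu1)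
  obtain ⟨F, hl, hΘ⟩ := key hFL (P2 H) (i2 H u) (inf_i2 hu) (yy u * i2 H w) _ hD
  obtain ⟨hfix, hzz⟩ := hΘ J2 hJ2
  refine ⟨F, hl, hfix, hzz.trans ?_⟩
  have h2 := J2_cc (J1 := J1) hJ2 u₁
  have h3 : J2 (lc (i2 H w)) = (J2.comp J1) (lc w) := by
    rw [← hJ1.1 w]; rfl
  refine congrArg (fun a : CR (P4 H) => a * lc (yy (i2 H u))) ?_
  refine (map_mul J2 (cc J1 u₁ : CR (P2 H)) (lc (i2 H w))).trans ?_
  exact congrArg₂ (fun a b : CR (P4 H) => a * b) h2 h3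

theorem lcc {G : Type} [Group G] {g h : G} (hgh : g = h) : (lc g : CR G) = lc h := by rw [hgh]

/-- composition of three isomorphisms, pointwise -/
theorem three (Θ Pe Pi F : TI G G) (hall : ∀ x, Θ.e x = Pi.e (F.e (Pe.e x))) {a b c d : CR G}
    (h1 : Pe.e a = b) (h2 : F.e b = c) (h3 : Pi.e c = d) : Θ.e a = d := by
  rw [hall, h1, h2, h3]

theorem lets (hDUT : S_DUT) {H : Type} [Group H] (e : P4 H ≃* P4 H)
    (hel : ∀ b, e (l4 H (.inl b)) = l4 H (.inr b) ∧ e (l4 H (.inr b)) = l4 H (.inl b))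
    (Pe Pi F Θ : TI (P4 H) (P4 H)) (hPe : ∀ g, Pe.e (lc g) = lc (e g))
    (hPi : ∀ g, Pi.e (lc g) = lc (e.symm g))
    (hl : ∀ b, ∃ W ∈ DU (P4 H),
      F.e (lc (l4 H (.inr b))) = (W : CR (P4 H)) * lc (l4 H (.inr b)))
    (hFi : ∀ g : P2 H, F.e (lc (i2 (P2 H) g)) = lc (i2 (P2 H) g))
    (hall : ∀ x, Θ.e x = Pi.e (F.e (Pe.e x))) (i : Bool ⊕ Bool) : Mt Θ (l4 H i) (l4 H i) := by
  obtain b | b := i
  · obtain ⟨W, hW, hWb⟩ := hl b
    obtain ⟨D, hD, hDe⟩ := hDUT _ _ Pi W hW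
    refine ⟨D, hD, ?_⟩
    have q0 : e.symm (l4 H (.inr b)) = l4 H (.inl b) :=
      (MulEquiv.symm_apply_eq e).2 ((hel b).1).symm
    have q1 : Pi.e (lc (l4 H (.inr b))) = lc (l4 H (.inl b)) := (hPi _).trans (lcc q0)
    have q2 : Pe.e (lc (l4 H (.inl b))) = lc (l4 H (.inr b)) := (hPe _).trans (lcc (hel b).1)
    exact three Θ Pe Pi F hall q2 hWb (e_mul' Pi hDe.symm q1)
  · refine ⟨1, (DU (P4 H)).one_mem, ?_⟩
    have q0 : e.symm (l4 H (.inl b)) = l4 H (.inr b) :=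
      (MulEquiv.symm_apply_eq e).2 ((hel b).2).symm
    have q1 : Pi.e (lc (l4 H (.inl b))) = lc (l4 H (.inr b)) := (hPi _).trans (lcc q0)
    have q2 : Pe.e (lc (l4 H (.inr b))) = lc (l4 H (.inl b)) := (hPe _).trans (lcc (hel b).2)
    have q3 : F.e (lc (l4 H (.inl b))) = lc (l4 H (.inl b)) := hFi _
    exact (three Θ Pe Pi F hall q2 q3 q1).trans (one_mul _).symm

theorem exT (hFL : S_FL) (hINJ : S_INJ) (hJU : S_JU) (hDUJ : S_DUJ) (hDUN : S_DUN)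
    (hDUT : S_DUT) (hTC : S_TC) (hTG : S_TG) (hSW : S_SW) {H : Type} [Group H] (w u : H)
    (u₁ : unitary (CR H)) (hu : ¬ IsOfFinOrder u) (hu1 : u₁ * (lamC H u)⁻¹ ∈ DU H) :
    ∃ (J : CR H →⋆ₐ[ℂ] CR (P4 H)) (Θ : TI (P4 H) (P4 H)), IsJ (i4 H) J ∧
      (∀ i, Mt Θ (l4 H i) (l4 H i)) ∧ (∀ x, Θ.e (J x) = J x) ∧
      Θ.e (lc (yy (i2 H u))) = lc (yy (i2 H u)) ∧
      Θ.e (lc (yy (i2 H u) * (i4 H w * i2 (P2 H) (yy u)))) =
      cjg J (.inr false) u₁ * cjg J (.inr true) u₁ * J (lc w) * lc (i2 (P2 H) (yy u)) := by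
  obtain ⟨J1, hJ1⟩ := hINJ H (P2 H) (i2 H) (i2_inj H)
  obtain ⟨J2, hJ2⟩ := hINJ (P2 H) (P4 H) (i2 (P2 H)) (i2_inj (P2 H))
  have hJ : IsJ (i4 H) (J2.comp J1) := hJU.2.1 _ _ _ _ _ _ _ hJ1 hJ2
  obtain ⟨F, hl, hfix, hval⟩ := exF hFL hDUJ hDUN w u u₁ hu hu1 hJ1 hJ2
  obtain ⟨e, he, hel⟩ := hSW H
  obtain ⟨Pe, hPe⟩ := hTG _ _ e
  obtain ⟨Pi, hPi⟩ := hTG _ _ e.symm
  have he' : ∀ h, e.symm (i4 H h) = i4 H h := fun h =>
    (MulEquiv.symm_apply_eq e).2 (he h).symm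
  have hPiJ : ∀ x, Pi.e ((J2.comp J1) x) = (J2.comp J1) x := fixJ hJU Pi hPi he' hJ
  have hPeJ : ∀ x, Pe.e ((J2.comp J1) x) = (J2.comp J1) x := fixJ hJU Pe hPe he hJ
  obtain ⟨R1, hR1⟩ := hTC.2 (P4 H) (P4 H) (P4 H) Pe F
  obtain ⟨Θ, hΘ0⟩ := hTC.2 (P4 H) (P4 H) (P4 H) R1 Pi
  have hall : ∀ x, Θ.e x = Pi.e (F.e (Pe.e x)) := fun x =>
    (hΘ0 x).trans (congrArg Pi.e (hR1 x))
  have hFi : ∀ g : P2 H, F.e (lc (i2 (P2 H) g)) = lc (i2 (P2 H) g) := fun g =>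
    ((congrArg F.e (hJ2.1 g)).symm.trans (hfix _)).trans (hJ2.1 g)
  refine ⟨J2.comp J1, Θ, hJ, lets hDUT e hel Pe Pi F Θ hPe hPi hl hFi hall, fun x => ?_, ?_, ?_⟩
  · have q1 : F.e ((J2.comp J1) x) = (J2.comp J1) x := hfix _
    exact three Θ Pe Pi F hall (hPeJ x) q1 (hPiJ x)
  · have q2 : Pe.e (lc (yy (i2 H u))) = lc (i2 (P2 H) (yy u)) :=
      (hPe _).trans (lcc (sw_y45 e he hel u))
    have q3 : Pi.e (lc (i2 (P2 H) (yy u))) = lc (yy (i2 H u)) :=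
      (hPi _).trans (lcc ((MulEquiv.symm_apply_eq e).2 (sw_y45 e he hel u).symm))
    exact three Θ Pe Pi F hall q2 (hFi _) q3
  · exact (hall _).trans (valF e he hel Pe Pi F hPe hPi _ hPiJ w u u₁ hval)

theorem t_LB (hFL : S_FL) (hINJ : S_INJ) (hJU : S_JU) (hDUJ : S_DUJ) (hDUN : S_DUN)
    (hDUT : S_DUT) (hTC : S_TC) (hTG : S_TG) (hSW : S_SW) : S_LB := by
  intro H _ w u u₁ hu hu1
  obtain ⟨J0, Θ, hJ0, hM, hf, h45, hv⟩ :=
    exT hFL hINJ hJU hDUJ hDUN hDUT hTC hTG hSW w u u₁ hu hu1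
  refine ⟨Θ, (lamC (P4 H) (yy (i2 H u)))⁻¹ * (cU J0 (.inr false) u₁ * cU J0 (.inr true) u₁),
    ?_, hM, fun J hJ => ?_⟩
  · rw [lamC_yy4]
    exact word3 (DU (P4 H)) (hDUN _) _ _ _ _ (im_mem hDUJ hJ0 u u₁ hu1)
  · have hJJ : J = J0 := hJU.1 _ _ _ _ _ hJ hJ0
    subst hJJ
    refine ⟨hf, ?_⟩
    have h0 : J (lc w) = lc (i4 H w) := hJ.1 w
    have hv' : Θ.e (lc (yy (i2 H u) * (i4 H w * i2 (P2 H) (yy u)))) =
        cjg J (.inr false) u₁ * cjg J (.inr true) u₁ * lc (i4 H w) * lc (i2 (P2 H) (yy u)) :=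
      hv.trans (congrArg (fun a : CR (P4 H) => cjg J (.inr false) u₁ * cjg J (.inr true) u₁ *
        a * lc (i2 (P2 H) (yy u))) h0)
    have h1 := fin Θ w u _ h45 hv'
    have h2 := alg (lamC (P4 H) (i4 H w)) (lamC (P4 H) (i2 (P2 H) (yy u)))
      (lamC (P4 H) (yy (i2 H u))) (cU J (.inr false) u₁ * cU J (.inr true) u₁) _ h1
    have h3 := lc_y23 hJ u
    refine h2.trans ?_
    refine congrArg (fun a : CR (P4 H) => (((lamC (P4 H) (yy (i2 H u)))⁻¹ *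
      (cU J (.inr false) u₁ * cU J (.inr true) u₁) : unitary (CR (P4 H))) : CR (P4 H)) * a *
      star (((lamC (P4 H) (yy (i2 H u)))⁻¹ *
      (cU J (.inr false) u₁ * cU J (.inr true) u₁) : unitary (CR (P4 H))) : CR (P4 H))) ?_
    exact congrArg₂ (fun a b : CR (P4 H) => a * b)
      (congrArg₂ (fun a b : CR (P4 H) => a * b) h0.symm h3) rfl

end Pool.Agent.H678SG.TLB
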