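import Pool.Agent.H678SG.Stubs

set_option autoImplicit false

namespace Pool.Agent.H678SG.TLIM

open Pool.Agent.H678SG
open Pool.Agent.H667R2.FG (Ell permOp lam rho delta LG EltG tau)

/-- the canonical unitaries generate -/
theorem gen (H : Type) [Group H] (x : CR H) :
    x ∈ (StarAlgebra.adjoin ℂ (Set.range (fun h : H => (lc h : CR H)))).topologicalClosure := by
  have h1 : (x : Op H) ∈ closure ((StarAlgebra.adjoin ℂ (Set.range (lam : H → Op H)) :
      StarSubalgebra ℂ (Op H)) : Set (Op H)) := x.2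
  have h2 : (StarAlgebra.adjoin ℂ (Set.range (fun h : H => (lc h : CR H)))).map
      (CR H).subtype = StarAlgebra.adjoin ℂ (Set.range (lam : H → Op H)) := by
    rw [StarAlgHom.map_adjoin, ← Set.range_comp]
    rfl
  have h3 : x ∈ closure ((StarAlgebra.adjoin ℂ (Set.range (fun h : H => (lc h : CR H))) :
      StarSubalgebra ℂ (CR H)) : Set (CR H)) := by
    refine closure_subtype.2 ?_
    rw [← h2] at h1
    exact h1
  exact h3

theorem t_LIM (hINJ : S_INJ) (hTIX : S_TIX) (hJU : S_JU) (hTRC : S_TRC) : S_LIM := by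
  classical
  intro H H' _ _ j j' G G' _ _ ι ι' ij ij' iι iι' cι cι' sι sι' P hP
  choose J hJ using fun n => hINJ _ _ (j n) (ij n)
  choose J' hJ' using fun n => hINJ _ _ (j' n) (ij' n)
  choose K' hK' using fun n => hINJ _ _ (ι' n) (iι' n)
  have hcomp : ∀ n, (K' (n + 1)).comp (J' n) = K' n := by
    intro n
    have h1 := hJU.2.1 _ _ _ _ _ _ _ (hJ' n) (hK' (n + 1))
    have h2 : (ι' (n + 1)).comp (j' n) = ι' n := MonoidHom.ext (cι' n)
    rw [h2] at h1
    exact hJU.1 _ _ _ _ _ h1 (hK' n)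
  -- the star homomorphisms
  let Ψ : ∀ n, CR (H n) →⋆ₐ[ℂ] CR G' := fun n =>
    (K' n).comp ((P n).e : CR (H n) →⋆ₐ[ℂ] CR (H' n))
  have hΨ : ∀ n x, Ψ n x = K' n ((P n).e x) := fun n x => rfl
  have hΨs : ∀ n x, Ψ (n + 1) (J n x) = Ψ n x := by
    intro n x
    rw [hΨ, hΨ, hP n (J n) (J' n) (hJ n) (hJ' n) x, ← hcomp n]
    rfl
  let φ : ∀ n, H n →* unitary (CR G') := fun n =>
    { toFun := fun h => ⟨Ψ n (lc h), by
        have h1 := Unitary.mem_iff.1 (lamC (H n) h).2
        rw [Unitary.mem_iff, ← map_star, ← map_mul, ← map_mul]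
        exact ⟨by rw [h1.1, map_one], by rw [h1.2, map_one]⟩⟩
      map_one' := Subtype.ext (by
        show Ψ n ((lamC (H n) 1 : unitary (CR (H n))) : CR (H n)) = 1
        rw [map_one, OneMemClass.coe_one, map_one])
      map_mul' := fun h k => Subtype.ext (by
        show Ψ n ((lamC (H n) (h * k) : unitary (CR (H n))) : CR (H n)) = Ψ n (lc h) * Ψ n (lc k)
        rw [map_mul (lamC (H n)), Submonoid.coe_mul, map_mul]) }
  have hφ : ∀ n h, (φ n h : CR G') = Ψ n (lc h) := fun n h => rfl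
  have hφs : ∀ n h, φ (n + 1) (j n h) = φ n h := by
    intro n h
    apply Subtype.ext
    rw [hφ, hφ, ← hΨs n, (hJ n).1]
  have hmove : ∀ n m, n ≤ m → ∀ h : H n, ∃ h' : H m, ι m h' = ι n h ∧ φ m h' = φ n h := by
    intro n m hnm
    induction m, hnm using Nat.le_induction with
    | base => exact fun h => ⟨h, rfl, rfl⟩
    | succ m _ ih =>
      intro h
      obtain ⟨h', h1, h2⟩ := ih h
      exact ⟨j m h', by rw [cι, h1], by rw [hφs, h2]⟩
  choose N a hNa using sι
  have hwd : ∀ n m (h : H n) (k : H m), ι n h = ι m k → φ n h = φ m k := by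
    intro n m h k hk
    obtain ⟨h1, e1, e2⟩ := hmove n (max n m) (le_max_left _ _) h
    obtain ⟨k1, e3, e4⟩ := hmove m (max n m) (le_max_right _ _) k
    have : h1 = k1 := iι _ (by rw [e1, e3, hk])
    rw [← e2, ← e4, this]
  have hπ : ∀ n h, φ (N (ι n h)) (a (ι n h)) = φ n h := fun n h =>
    hwd _ _ _ _ (hNa (ι n h))
  let π : G →* unitary (CR G') :=
    { toFun := fun g => φ (N g) (a g)
      map_one' := by
        have h1 : (1 : G) = ι 0 1 := (map_one (ι 0)).symm
        have h2 := hπ 0 1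
        rw [map_one (ι 0)] at h2
        rw [h2, map_one]
      map_mul' := by
        intro g1 g2
        obtain ⟨h1, e1, e2⟩ := hmove (N g1) (max (N g1) (N g2)) (le_max_left _ _) (a g1)
        obtain ⟨h2, e3, e4⟩ := hmove (N g2) (max (N g1) (N g2)) (le_max_right _ _) (a g2)
        have e5 : ι (N (g1 * g2)) (a (g1 * g2)) = ι (max (N g1) (N g2)) (h1 * h2) := by
          rw [hNa, map_mul, e1, e3, hNa, hNa]
        rw [hwd _ _ _ _ e5, map_mul, e2, e4] }
  have hπ' : ∀ n h, π (ι n h) = φ n h := hπ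
  obtain ⟨Q, -⟩ := hTIX G G' π
    (by
      intro g hg
      obtain ⟨n, h, rfl⟩ : ∃ n h, ι n h = g := ⟨_, _, hNa g⟩
      have hh : h ≠ 1 := by
        rintro rfl
        exact hg (map_one _)
      rw [hπ', hφ, hΨ, (hK' n).2.2, (P n).tr_e]
      exact (hTRC (H n)).2.2.2.2.2.1 h hh)
    (by
      intro g'
      obtain ⟨n, h', rfl⟩ := sι' g'
      set x : CR (H n) := (P n).e.symm (lc h') with hx
      have h1 : Ψ n x = lc (ι' n h') := by
        rw [hΨ, hx, StarAlgEquiv.apply_symm_apply, (hK' n).1]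
      have h2 := gen (H n) x
      have hcont : Continuous (Ψ n) := by
        have c1 : Continuous (K' n) := (hK' n).2.1.continuous
        have c2 : Continuous ((P n).e) := (StarAlgEquiv.isometry (P n).e).continuous
        exact c1.comp c2
      have h3 : Ψ n x ∈ closure (Ψ n '' ((StarAlgebra.adjoin ℂ
          (Set.range (fun h : H n => (lc h : CR (H n)))) : StarSubalgebra ℂ (CR (H n))) :
          Set (CR (H n)))) :=
        image_closure_subset_closure_image hcont ⟨x, h2, rfl⟩
      have h4 : (StarAlgebra.adjoin ℂ (Set.range (fun h : H n => (lc h : CR (H n))))).map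
          (Ψ n) ≤ StarAlgebra.adjoin ℂ (Set.range fun g => (π g : CR G')) := by
        rw [StarAlgHom.map_adjoin]
        refine StarAlgebra.adjoin_mono ?_
        rintro _ ⟨_, ⟨h, rfl⟩, rfl⟩
        exact ⟨ι n h, by
          show ((π (ι n h) : unitary (CR G')) : CR G') = Ψ n (lc h)
          rw [hπ', hφ]⟩
      rw [← h1]
      exact closure_mono (fun y hy => h4 hy) h3)
  exact ⟨Q⟩

end Pool.Agent.H678SG.TLIM
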