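import Pool.Agent.H678SG.Stubs2

set_option autoImplicit false

namespace Pool.Agent.H678SG.TMAL

open Pool.Agent.H678SG

theorem t_MAL (hTREE : S_TREE) (hEDG : S_EDG) (hGT4 : S_GT4) : S_MAL := by
  intro G _ hTF b u hb hu g i hi hg
  obtain ⟨V, act, T, v0, hAct, -, hstab, hadj⟩ :=
    hTREE G (⊥ : Subgroup G) (⊥ : Subgroup G) (MulEquiv.refl (⊥ : Subgroup G))
  set o : G →* PZ G := HNNExtension.of with ho
  set t : PZ G := HNNExtension.t with ht
  set c : PZ G := t * o u * t⁻¹ with hc
  set z : PZ G := o b * c with hz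
  have oinj : Function.Injective o := HNNExtension.of_injective _
  -- elements fixing `v0` and `t • v0`
  have F1 : ∀ h : PZ G, h • v0 = v0 → h • (t • v0) = t • v0 → h = 1 := by
    intro h h0 h1
    obtain ⟨x, hx⟩ := (hstab h).1 h0
    have h2 : (t⁻¹ * h * t) • v0 = v0 := by
      rw [mul_smul, mul_smul, h1, inv_smul_smul]
    obtain ⟨y, hy⟩ := (hstab _).1 h2
    have h3 : x ∈ (⊥ : Subgroup G) := by
      refine ((hEDG G ⊥ ⊥ (MulEquiv.refl _) x).1).1 ⟨y, ?_⟩
      have h4 : t⁻¹ * o x * t = o y := by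
        rw [hx]; exact hy.symm
      exact h4
    rw [Subgroup.mem_bot] at h3
    rw [← hx, h3]
    exact map_one o
  have ob : o b • v0 = v0 := (hstab _).2 ⟨b, rfl⟩
  have ou : o u • v0 = v0 := (hstab _).2 ⟨u, rfl⟩
  have cv1 : c • (t • v0) = t • v0 := by
    rw [hc, mul_smul, mul_smul, inv_smul_smul, ou]
  -- the line
  let w1 : V := z • (t • v0)
  have hw1 : w1 = (o b * t) • v0 := by
    change z • (t • v0) = _
    rw [hz, mul_smul, cv1, mul_smul]
  let q : ℤ → V := fun n => z ^ (n / 2) • (if n % 2 = 0 then v0 else w1)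
  have q0 : ∀ k : ℤ, q (2 * k) = z ^ k • v0 := by
    intro k
    change z ^ (2 * k / 2) • (if 2 * k % 2 = 0 then v0 else w1) = _
    rw [if_pos (by omega), show 2 * k / 2 = k by omega]
  have q1 : ∀ k : ℤ, q (2 * k + 1) = z ^ k • w1 := by
    intro k
    change z ^ ((2 * k + 1) / 2) • (if (2 * k + 1) % 2 = 0 then v0 else w1) = _
    rw [if_neg (by omega), show (2 * k + 1) / 2 = k by omega]
  have q1' : ∀ k : ℤ, q (2 * k - 1) = z ^ k • (t • v0) := by
    intro k
    have := q1 (k - 1)
    rw [show 2 * (k - 1) + 1 = 2 * k - 1 by ring] at this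
    rw [this]
    change z ^ (k - 1) • (z • (t • v0)) = _
    rw [← mul_smul, ← zpow_add_one, sub_add_cancel]
  have qz : ∀ n k : ℤ, z ^ n • q k = q (k + 2 * n) := by
    intro n k
    rcases Int.even_or_odd' k with ⟨l, hl | hl⟩
    · rw [hl, show 2 * l + 2 * n = 2 * (n + l) by ring, q0, q0, ← mul_smul, ← zpow_add]
    · rw [hl, show 2 * l + 1 + 2 * n = 2 * (n + l) + 1 by ring, q1, q1, ← mul_smul, ← zpow_add]
  have hq1 : ∀ k, T.Adj (q k) (q (k + 1)) := by
    intro k
    rcases Int.even_or_odd' k with ⟨l, hl | hl⟩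
    · rw [hl, q0, q1]
      apply hAct.adj
      rw [hadj]
      exact ⟨b, Or.inl hw1⟩
    · rw [hl, show 2 * l + 1 + 1 = 2 * (l + 1) by ring, q0,
        show 2 * l + 1 = 2 * (l + 1) - 1 by ring, q1']
      apply hAct.adj
      rw [SimpleGraph.adj_comm, hadj]
      refine ⟨1, Or.inl ?_⟩
      have : (o 1 * t) = t := by rw [map_one, one_mul]
      change _ = (o 1 * t) • v0
      rw [this]
  have hb0 : z • v0 ≠ v0 := by
    intro h
    have h1 : c • v0 = v0 := by
      have h2 : o b • (c • v0) = v0 := by rw [← mul_smul]; exact h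
      have h3 : c • v0 = (o b)⁻¹ • v0 := by rw [← h2, inv_smul_smul, h2]
      rw [h3, inv_smul_eq_iff, ob]
    have h2 := F1 c h1 cv1
    apply hu
    apply oinj
    rw [map_one]
    have h3 : t * o u * t⁻¹ = 1 := h2
    have h4 : o u = t⁻¹ * (t * o u * t⁻¹) * t := by group
    rw [h4, h3]; group
  have hb1 : z • (t • v0) ≠ t • v0 := by
    intro h
    have h1 : o b • (t • v0) = t • v0 := by
      rw [hz, mul_smul, cv1] at h; exact h
    have h2 := F1 (o b) ob h1
    apply hb
    apply oinj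
    rw [h2, map_one]
  have hq2 : ∀ k, q k ≠ q (k + 2) := by
    intro k hk
    rcases Int.even_or_odd' k with ⟨l, hl | hl⟩
    · rw [hl, show 2 * l + 2 = 2 * (l + 1) by ring, q0, q0, zpow_add_one, mul_smul] at hk
      exact hb0 ((smul_left_cancel _ hk).symm)
    · rw [hl, show 2 * l + 1 + 2 = 2 * (l + 1 + 1) - 1 by ring,
        show 2 * l + 1 = 2 * (l + 1) - 1 by ring, q1', q1', zpow_add_one z (l + 1),
        mul_smul] at hk
      exact hb1 ((smul_left_cancel _ hk).symm)
  have hqz : ∀ k, z • q k = q (k + 2) := by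
    intro k
    have := qz 1 k
    rwa [zpow_one, mul_one] at this
  obtain ⟨j, hj⟩ := Subgroup.mem_zpowers_iff.1 hg
  obtain ⟨d, hd⟩ := hGT4 (PZ G) V T hAct q hq1 hq2 z hqz g i j hi hj.symm
  -- the height
  let χ : PZ G →* Multiplicative ℤ := HNNExtension.lift (1 : G →* Multiplicative ℤ)
    (Multiplicative.ofAdd 1) (by intro a; simp)
  have χo : ∀ x, χ (o x) = 1 := by
    intro x
    change HNNExtension.lift _ _ _ (HNNExtension.of x) = 1
    rw [HNNExtension.lift_of]
    rfl
  have χt : χ t = Multiplicative.ofAdd 1 := HNNExtension.lift_t _ _ _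
  have χz : χ z = 1 := by
    rw [hz, hc, map_mul, map_mul, map_mul, map_inv, χo, χo, χt]
    simp
  have χf : ∀ h : PZ G, h • v0 = v0 → χ h = 1 := by
    intro h hh
    obtain ⟨x, rfl⟩ := (hstab h).1 hh
    exact χo x
  have qz0 : q 0 = v0 := by
    have := q0 0
    rwa [mul_zero, zpow_zero, one_smul] at this
  have hev : Even d := by
    by_contra hodd
    rw [Int.not_even_iff_odd] at hodd
    obtain ⟨m, hm⟩ := hodd
    have e1 : g • v0 = z ^ (m + 1) • (t • v0) := by
      rw [← q1', show 2 * (m + 1) - 1 = d by rw [hm]; ring]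
      rcases hd with hd | hd
      · rw [← qz0, hd 0]; simp
      · rw [← qz0, hd 0]; simp
    have e2 : ∃ l : ℤ, g • w1 = z ^ l • v0 := by
      rcases hd with hd | hd
      · refine ⟨m + 1, ?_⟩
        have h3 := hd 1
        have h4 := q1 0
        rw [mul_zero, zero_add, zpow_zero, one_smul] at h4
        rw [h4, hm, show 1 + (2 * m + 1) = 2 * (m + 1) by ring, q0] at h3
        exact h3
      · refine ⟨m, ?_⟩
        have h3 := hd 1
        have h4 := q1 0
        rw [mul_zero, zero_add, zpow_zero, one_smul] at h4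
        rw [h4, hm, show -1 + (2 * m + 1) = 2 * m by ring, q0] at h3
        exact h3
    obtain ⟨l, e2⟩ := e2
    have f1 : (t⁻¹ * (z ^ (m + 1))⁻¹ * g) • v0 = v0 := by
      rw [mul_smul, mul_smul, e1, inv_smul_smul, inv_smul_smul]
    have f2 : ((z ^ l)⁻¹ * g * (o b * t)) • v0 = v0 := by
      rw [mul_smul, mul_smul, ← hw1, e2, inv_smul_smul]
    have g1 := χf _ f1
    have g2 := χf _ f2
    simp only [map_mul, map_inv, map_zpow, χz, χo, χt, one_zpow, inv_one, mul_one, one_mul] at g1 g2
    have g3 : χ g = Multiplicative.ofAdd 1 := by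
      rw [inv_mul_eq_one] at g1
      exact g1.symm
    rw [g3] at g2
    have g4 := congrArg Multiplicative.toAdd g2
    simp at g4
  obtain ⟨m, hm⟩ := hev
  have hm2 : d = 2 * m := by omega
  have hfin : (z ^ m)⁻¹ * g = 1 := by
    have hv1 : q (-1) = t • v0 := by
      have := q1' 0
      rwa [mul_zero, zero_sub, zpow_zero, one_smul] at this
    rcases hd with hd | hd
    · have k1 : ∀ k, ((z ^ m)⁻¹ * g) • q k = q k := by
        intro k
        rw [mul_smul, hd k, hm2, ← qz m k, inv_smul_smul]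
      apply F1
      · have := k1 0; rwa [qz0] at this
      · have := k1 (-1); rwa [hv1] at this
    · have k1 : ∀ k, ((z ^ m)⁻¹ * g) • q k = q (-k) := by
        intro k
        rw [mul_smul, hd k, hm2, ← qz m (-k), inv_smul_smul]
      have k2 : ∀ k, (((z ^ m)⁻¹ * g) * ((z ^ m)⁻¹ * g)) • q k = q k := by
        intro k
        rw [mul_smul, k1, k1, neg_neg]
      have k3 : ((z ^ m)⁻¹ * g) * ((z ^ m)⁻¹ * g) = 1 := by
        apply F1
        · have := k2 0; rwa [qz0] at this
        · have := k2 (-1); rwa [hv1] at this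
      have k4 : ((z ^ m)⁻¹ * g) • v0 = v0 := by
        have := k1 0
        rwa [neg_zero, qz0] at this
      obtain ⟨x, hx⟩ := (hstab _).1 k4
      have hx' : o x = (z ^ m)⁻¹ * g := hx
      rw [← hx'] at k3 ⊢
      have k5 : x * x = 1 := by
        apply oinj
        rw [map_mul, k3, map_one]
      have k6 : x = 1 := by
        by_contra hne
        apply hTF x hne
        rw [isOfFinOrder_iff_pow_eq_one]
        exact ⟨2, by norm_num, by rw [pow_two, k5]⟩
      rw [k6, map_one]
  rw [inv_mul_eq_one] at hfin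
  exact Subgroup.mem_zpowers_iff.2 ⟨m, hfin⟩

end Pool.Agent.H678SG.TMAL
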