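import Pool.Agent.H678SG.Stubs2

/-! MALE: malnormality in HNN extensions. -/

set_option autoImplicit false

namespace Pool.Agent.H678SG.TMALE

open Pool.Agent.H678SG

theorem t_MALE (hSTAR : S_STAR) : S_MALE := by
  intro H G _ _ j A B φ hC hj hM hB h h' g hh hg
  have hinj : Function.Injective (HNNExtension.of : G →* HNNExtension G A B φ) :=
    HNNExtension.of_injective (φ := φ)
  rw [MonoidHom.comp_apply, MonoidHom.comp_apply] at hg
  have hjh : j h ≠ 1 := fun hh1 => hh (hj (by rw [hh1, map_one]))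
  have hx1 : j h' ≠ 1 := by
    intro h1
    rw [h1, map_one] at hg
    have h2 : (HNNExtension.of (j h) : HNNExtension G A B φ) = 1 := by
      have h3 : g⁻¹ * (g * HNNExtension.of (j h) * g⁻¹) * g = g⁻¹ * 1 * g := by rw [hg]
      simpa [mul_assoc] using h3
    exact hjh (hinj (by rw [h2, map_one]))
  have hxB : ∀ g' : G, g' * j h' * g'⁻¹ ∉ B := by
    intro g' hb
    refine hB _ hb ?_ ⟨h', g', rfl⟩
    intro h1
    apply hx1
    have h3 : g'⁻¹ * (g' * j h' * g'⁻¹) * g' = g'⁻¹ * 1 * g' := by rw [h1]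
    simpa [mul_assoc] using h3
  rcases hSTAR G A B φ hC (j h') hx1 hxB g (j h) hg.symm with ⟨y, hy⟩ | ⟨y, y', hyA, hy⟩
  · have h1 : y * j h * y⁻¹ = j h' := by
      apply hinj
      rw [map_mul, map_mul, map_inv, ← hy]
      exact hg
    obtain ⟨k, hk⟩ := hM h h' y hh h1
    exact ⟨k, by rw [MonoidHom.comp_apply, hk, hy]⟩
  · exfalso
    have h1 : (HNNExtension.t * HNNExtension.of (y⁻¹ * j h' * y) : HNNExtension G A B φ) =
        HNNExtension.of (φ ⟨y⁻¹ * j h' * y, hyA⟩ : G) * HNNExtension.t :=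
      HNNExtension.t_mul_of (φ := φ) (⟨y⁻¹ * j h' * y, hyA⟩ : A)
    have h2 : (HNNExtension.t * HNNExtension.of (y⁻¹ * j h' * y) : HNNExtension G A B φ) =
        HNNExtension.of (y' * j h * y'⁻¹) * HNNExtension.t := by
      rw [map_mul, map_mul, map_mul, map_mul, map_inv, map_inv, ← hg, hy]
      group
    have h3 : (φ ⟨y⁻¹ * j h' * y, hyA⟩ : G) = y' * j h * y'⁻¹ := by
      apply hinj
      exact mul_right_cancel (h1.symm.trans h2)
    refine hB (φ ⟨y⁻¹ * j h' * y, hyA⟩ : G) (φ ⟨y⁻¹ * j h' * y, hyA⟩).2 ?_ ⟨h, y', h3⟩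
    rw [h3]
    intro h4
    apply hjh
    have h5 : y'⁻¹ * (y' * j h * y'⁻¹) * y' = y'⁻¹ * 1 * y' := by rw [h4]
    simpa [mul_assoc] using h5

end Pool.Agent.H678SG.TMALE
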