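import Pool.Agent.H678SG.TEDG

set_option autoImplicit false

namespace Pool.Agent.H678SG.TMZ

open Pool.Agent.H678SG HNNExtension

/-- `β t u t⁻¹` is not trivial -/
theorem mz_ne_one {K : Type} [Group K] (b u : K) (hu : u ≠ 1) :
    (of b * (t * of u * t⁻¹) : PZ K) ≠ 1 := by
  intro h
  have h1 : (t * of u * t⁻¹ : PZ K) = of b⁻¹ := by
    rw [map_inv]
    exact eq_inv_of_mul_eq_one_right h
  have h2 := ((TEDG.t_EDG K ⊥ ⊥ (MulEquiv.refl _) u).2).mp ⟨b⁻¹, h1⟩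
  exact hu (Subgroup.mem_bot.mp h2)

/-- the words in `P2 K` -/
theorem mz_P2 (hMAL : S_MAL) (hTFH : S_TFH) {K : Type} [Group K] (hK : TF K) (b0 u0 : K)
    (hu : u0 ≠ 1) :
    i2 K b0 * yy u0 ≠ 1 ∧ ∀ (g : P2 K) (i : ℤ), i ≠ 0 →
      g * (i2 K b0 * yy u0) ^ i * g⁻¹ ∈ Subgroup.zpowers (i2 K b0 * yy u0) →
      g ∈ Subgroup.zpowers (i2 K b0 * yy u0) := by
  have hPZ : TF (PZ K) := hTFH _ _ _ _ hK
  have hu1 : (of u0 : PZ K) ≠ 1 := fun h => hu (of_injective _ (h.trans (map_one _).symm))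
  have hb := mz_ne_one b0 u0 hu
  have hw : i2 K b0 * yy u0 = of (of b0 * (t * of u0 * t⁻¹) : PZ K) *
      (t * of (of u0 : PZ K) * t⁻¹) := by
    simp only [i2, yy, l2, MonoidHom.comp_apply, map_mul, map_inv, mul_assoc]
  rw [hw]
  exact ⟨mz_ne_one _ _ hu1, hMAL (PZ K) hPZ _ _ hb hu1⟩

/-- malnormality of the words -/
theorem t_MZ (hMAL : S_MAL) (hM4 : S_M4) (hTF4 : S_TF4) (hTFH : S_TFH) : S_MZ := by
  intro H _ hH z hz g i hi hg
  have hP2 : TF (P2 H) := (hTF4 H hH).1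
  rcases hz with ⟨w, u, hu, rfl⟩ | ⟨c, e, -, he, rfl⟩
  · have hu1 : i2 H u ≠ 1 := fun h => hu ((hM4 H).1 (h.trans (map_one _).symm))
    exact (mz_P2 hMAL hTFH hP2 (i2 H w * yy u) (i2 H u) hu1).2 g i hi hg
  · obtain ⟨hne, hmal⟩ := mz_P2 hMAL hTFH hH c e he
    set z' := i2 H c * yy e with hz'
    have hz0 : z0 c e = i2 (P2 H) z' := rfl
    rw [hz0] at hg ⊢
    obtain ⟨j, hj⟩ := Subgroup.mem_zpowers_iff.mp hg
    have hzi : z' ^ i ≠ 1 := by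
      intro h
      exact hP2 z' hne (isOfFinOrder_iff_zpow_eq_one.mpr ⟨i, hi, h⟩)
    have hM := (hM4 (P2 H)).2.2.1
    have h1 : g * i2 (P2 H) (z' ^ i) * g⁻¹ = i2 (P2 H) (z' ^ j) := by
      rw [map_zpow, map_zpow, hj]
    obtain ⟨g', rfl⟩ := hM (z' ^ i) (z' ^ j) g hzi h1
    have h2 : g' * z' ^ i * g'⁻¹ = z' ^ j := by
      apply (hM4 (P2 H)).1
      rw [map_mul, map_mul, map_inv]
      exact h1
    have h3 := hmal g' i hi (by rw [h2]; exact Subgroup.zpow_mem_zpowers _ _)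
    obtain ⟨k, hk⟩ := Subgroup.mem_zpowers_iff.mp h3
    exact Subgroup.mem_zpowers_iff.mpr ⟨k, by rw [← map_zpow, hk]⟩

end Pool.Agent.H678SG.TMZ
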