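import Pool.Agent.H678SG.Stubs

set_option autoImplicit false

namespace Pool.Agent.H678SG.TNPL

open Pool.Agent.H678SG

section

variable {H : ℕ → Type} [∀ n, Group (H n)] {G : Type} [Group G]
  (j : ∀ n, H n →* H (n + 1)) (ι : ∀ n, H n →* G)

theorem lift_mem (hc : ∀ n h, ι (n + 1) (j n h) = ι n h) (n m : ℕ) (hnm : n ≤ m) (h : H n) :
    ∃ h' : H m, ι m h' = ι n h := by
  induction m, hnm using Nat.le_induction with
  | base => exact ⟨h, rfl⟩
  | succ m hm ih =>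
    obtain ⟨h', hh'⟩ := ih
    exact ⟨j m h', by rw [hc, hh']⟩

theorem mal_lim (hι : ∀ n, Function.Injective (ι n)) (hc : ∀ n h, ι (n + 1) (j n h) = ι n h)
    (hmal : ∀ n, Mal (j n)) (n m : ℕ) (hnm : n ≤ m) (h h' : H n) (hh : h ≠ 1) (g : H m)
    (he : ι m g * ι n h * (ι m g)⁻¹ = ι n h') : ∃ c : H n, ι n c = ι m g := by
  induction m, hnm using Nat.le_induction with
  | base => exact ⟨g, rfl⟩
  | succ m hm ih =>
    obtain ⟨a, ha⟩ := lift_mem j ι hc n m hm h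
    obtain ⟨a', ha'⟩ := lift_mem j ι hc n m hm h'
    have ha1 : a ≠ 1 := by
      rintro rfl
      apply hh
      apply hι n
      rw [← ha, map_one, map_one]
    have h1 : g * j m a * g⁻¹ = j m a' := by
      apply hι (m + 1)
      rw [map_mul, map_mul, map_inv, hc, hc, ha, ha']
      exact he
    obtain ⟨g', hg'⟩ := hmal m a a' g ha1 h1
    have h2 : ι (m + 1) g = ι m g' := by rw [← hg', hc]
    rw [h2] at he ⊢
    exact ih g' he

theorem pd_lim (hι : ∀ n, Function.Injective (ι n)) (hc : ∀ n h, ι (n + 1) (j n h) = ι n h)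
    (hmal : ∀ n, Mal (j n)) (hex : ∀ g, ∃ n h, ι n h = g) (p n : ℕ) (x : H n)
    (hx : x ≠ 1) (hpd : PD p (ι n x)) : PD p x := by
  intro N
  obtain ⟨y, hy⟩ := hpd N
  obtain ⟨m₀, y₀, hy₀⟩ := hex y
  obtain ⟨y₁, hy₁⟩ := lift_mem j ι hc m₀ (max m₀ n) (le_max_left _ _) y₀
  have hy' : ι (max m₀ n) y₁ = y := hy₁.trans hy₀
  obtain ⟨c, hcc⟩ := mal_lim j ι hι hc hmal n (max m₀ n) (le_max_right _ _) x x hx y₁ (by
    rw [hy', ← hy]
    have : Commute y (y ^ p ^ N) := (Commute.refl y).pow_right _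
    rw [this.eq, mul_inv_cancel_right])
  refine ⟨c, hι n ?_⟩
  rw [map_pow, hcc, hy', hy]

theorem npl (hι : ∀ n, Function.Injective (ι n)) (hc : ∀ n h, ι (n + 1) (j n h) = ι n h)
    (hmal : ∀ n, Mal (j n)) (hex : ∀ g, ∃ n h, ι n h = g) (hH : ∀ n, ¬ Pi2 (H n)) : ¬ Pi2 G := by
  rintro ⟨x, y, hx, hy, hxy, h2x, h2y, h3⟩
  obtain ⟨n₁, a₁, ha₁⟩ := hex x
  obtain ⟨n₂, b₁, hb₁⟩ := hex y
  obtain ⟨a, ha⟩ := lift_mem j ι hc n₁ (max n₁ n₂) (le_max_left _ _) a₁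
  obtain ⟨b, hb⟩ := lift_mem j ι hc n₂ (max n₁ n₂) (le_max_right _ _) b₁
  have ha' : ι (max n₁ n₂) a = x := ha.trans ha₁
  have hb' : ι (max n₁ n₂) b = y := hb.trans hb₁
  have ne1 : a ≠ 1 := by
    rintro rfl
    exact hx (ha'.symm.trans (map_one _))
  have ne2 : b ≠ 1 := by
    rintro rfl
    exact hy (hb'.symm.trans (map_one _))
  have ne3 : a * b ≠ 1 := by
    intro h
    apply hxy
    rw [← ha', ← hb', ← map_mul, h, map_one]
  refine hH (max n₁ n₂) ⟨a, b, ne1, ne2, ne3, ?_, ?_, ?_⟩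
  · exact pd_lim j ι hι hc hmal hex 2 _ a ne1 (by rw [ha']; exact h2x)
  · exact pd_lim j ι hι hc hmal hex 2 _ b ne2 (by rw [hb']; exact h2y)
  · exact pd_lim j ι hι hc hmal hex 3 _ (a * b) ne3 (by
      rw [map_mul, ha', hb']; exact h3)

end

theorem t_NPL : S_NPL := by
  intro H _ j hj hmal hnp G _ ι hι hc hex
  exact npl j ι hι hc hmal hex hnp

end Pool.Agent.H678SG.TNPL
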