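import Pool.Agent.H678SG.Stubs

set_option autoImplicit false

namespace Pool.Agent.H678SG.TP2F

open Pool.Agent.H678SG

theorem lc_one {G : Type} [Group G] : lc (1 : G) = 1 := by
  simp [lc]

theorem pzf (hH : S_HNNF) (hI : S_INJ) (H H' : Type) [Group H] [Group H'] (P : TI H H') :
    ∃ Q : TI (PZ H) (PZ H'), Q.e (lc (HNNExtension.t : PZ H)) = lc (HNNExtension.t : PZ H') ∧
      ∀ J J', IsJ (HNNExtension.of : H →* PZ H) J → IsJ (HNNExtension.of : H' →* PZ H') J' →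
        ∀ x, Q.e (J x) = J' (P.e x) := by
  obtain ⟨Q, hQ⟩ := hH H H' ⊥ ⊥ (MulEquiv.refl (⊥ : Subgroup H)) ⊥ ⊥
    (MulEquiv.refl (⊥ : Subgroup H')) (MulEquiv.ofUnique) P 1
    (by
      rintro ⟨a, ha⟩
      rw [Subgroup.mem_bot] at ha
      subst ha
      have h1 : ((MulEquiv.ofUnique (M := (⊥ : Subgroup H)) (N := (⊥ : Subgroup H'))
        ⟨1, ha⟩ : (⊥ : Subgroup H')) : H') = 1 := by
        have := (MulEquiv.ofUnique (M := (⊥ : Subgroup H)) (N := (⊥ : Subgroup H')) ⟨1, ha⟩).2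
        rwa [Subgroup.mem_bot] at this
      have h2 : P.e (lc (1 : H)) = 1 := by rw [lc_one, map_one]
      rw [h1, lc_one (G := H')]
      exact h2)
    (by
      rintro ⟨a, ha⟩
      rw [Subgroup.mem_bot] at ha
      subst ha
      have h1 : ((MulEquiv.refl (⊥ : Subgroup H') (MulEquiv.ofUnique (M := (⊥ : Subgroup H))
        (N := (⊥ : Subgroup H')) ⟨1, ha⟩) : (⊥ : Subgroup H')) : H') = 1 := by
        have := (MulEquiv.ofUnique (M := (⊥ : Subgroup H)) (N := (⊥ : Subgroup H')) ⟨1, ha⟩).2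
        rwa [Subgroup.mem_bot] at this
      have h2 : P.e (lc (1 : H)) = ((1 : unitary (CR H')) : CR H') * 1 *
        star ((1 : unitary (CR H')) : CR H') := by rw [lc_one, map_one]; simp
      rw [h1, lc_one (G := H')]
      exact h2)
  refine ⟨Q, ?_, fun J J' hJ hJ' x => (hQ J J' hJ hJ').1 x⟩
  obtain ⟨J, hJ⟩ := hI H (PZ H) HNNExtension.of (HNNExtension.of_injective _)
  obtain ⟨J', hJ'⟩ := hI H' (PZ H') HNNExtension.of (HNNExtension.of_injective _)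
  have := (hQ J J' hJ hJ').2
  rw [this]
  simp

theorem t_P2F (hH : S_HNNF) (hI : S_INJ) (hJU : S_JU) : S_P2F := by
  intro H H' _ _ P
  obtain ⟨Q1, h1t, h1J⟩ := pzf hH hI H H' P
  obtain ⟨Q2, h2t, h2J⟩ := pzf hH hI (PZ H) (PZ H') Q1
  obtain ⟨J1, hJ1⟩ := hI H (PZ H) HNNExtension.of (HNNExtension.of_injective _)
  obtain ⟨J1', hJ1'⟩ := hI H' (PZ H') HNNExtension.of (HNNExtension.of_injective _)
  obtain ⟨J2, hJ2⟩ := hI (PZ H) (P2 H) HNNExtension.of (HNNExtension.of_injective _)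
  obtain ⟨J2', hJ2'⟩ := hI (PZ H') (P2 H') HNNExtension.of (HNNExtension.of_injective _)
  refine ⟨Q2, ?_, ?_⟩
  · intro b
    cases b with
    | false =>
      show Q2.e (lc (HNNExtension.of (HNNExtension.t : PZ H) : P2 H)) =
        lc (HNNExtension.of (HNNExtension.t : PZ H') : P2 H')
      rw [← hJ2.1, h2J J2 J2' hJ2 hJ2', h1t, hJ2'.1]
    | true => exact h2t
  · intro J J' hJ hJ' x
    have e1 : J = J2.comp J1 := hJU.1 H (P2 H) (i2 H) J (J2.comp J1) hJ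
      (hJU.2.1 H (PZ H) (P2 H) HNNExtension.of HNNExtension.of J1 J2 hJ1 hJ2)
    have e2 : J' = J2'.comp J1' := hJU.1 H' (P2 H') (i2 H') J' (J2'.comp J1') hJ'
      (hJU.2.1 H' (PZ H') (P2 H') HNNExtension.of HNNExtension.of J1' J2' hJ1' hJ2')
    rw [e1, e2]
    show Q2.e (J2 (J1 x)) = J2' (J1' (P.e x))
    rw [h2J J2 J2' hJ2 hJ2', h1J J1 J1' hJ1 hJ1']

end Pool.Agent.H678SG.TP2F
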