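import Pool.Agent.H678SG.Stubs

set_option autoImplicit false

namespace Pool.Agent.H678SG.TP4F

open Pool.Agent.H678SG

theorem i2_inj (H : Type) [Group H] : Function.Injective (i2 H) := by
  intro x y h
  exact HNNExtension.of_injective _ (HNNExtension.of_injective _ h)

theorem i4_inj (H : Type) [Group H] : Function.Injective (i4 H) :=
  (i2_inj (P2 H)).comp (i2_inj H)

theorem lc_mul {G : Type} [Group G] (g h : G) : lc (g * h) = lc g * lc h := by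
  unfold lc
  rw [map_mul]
  rfl

theorem t_P4F (hP2F : S_P2F) (hI : S_INJ) (hJU : S_JU) : S_P4F := by
  intro H H' _ _ P
  obtain ⟨hJ1, hJ2, -⟩ := hJU
  obtain ⟨Q1, hQ1, hQ1J⟩ := hP2F H H' P
  obtain ⟨Q, hQ, hQJ⟩ := hP2F (P2 H) (P2 H') Q1
  obtain ⟨J2, hJ2'⟩ := hI _ _ (i2 (P2 H)) (i2_inj _)
  obtain ⟨K2, hK2⟩ := hI _ _ (i2 (P2 H')) (i2_inj _)
  obtain ⟨J1, hJ1'⟩ := hI _ _ (i2 H) (i2_inj _)
  obtain ⟨K1, hK1⟩ := hI _ _ (i2 H') (i2_inj _)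
  refine ⟨Q, ?_, ?_⟩
  · rintro (b | b)
    · have h1 := hQJ J2 K2 hJ2' hK2 (lc (l2 H b))
      have h2 : Q.e (lc (i2 (P2 H) (l2 H b))) = Q.e (J2 (lc (l2 H b))) :=
        congrArg Q.e (hJ2'.1 (l2 H b)).symm
      have h3 : K2 (Q1.e (lc (l2 H b))) = lc (i2 (P2 H') (l2 H' b)) :=
        (congrArg K2 (hQ1 b)).trans (hK2.1 (l2 H' b))
      exact h2.trans (h1.trans h3)
    · exact hQ b
  · intro J J' hJ hJ' x
    have e1 : J = J2.comp J1 := hJ1 _ _ _ _ _ hJ (hJ2 _ _ _ _ _ _ _ hJ1' hJ2')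
    have e2 : J' = K2.comp K1 := hJ1 _ _ _ _ _ hJ' (hJ2 _ _ _ _ _ _ _ hK1 hK2)
    have e3 : J x = J2 (J1 x) := DFunLike.congr_fun e1 x
    have e4 : J' (P.e x) = K2 (K1 (P.e x)) := DFunLike.congr_fun e2 (P.e x)
    have e5 : Q.e (J2 (J1 x)) = K2 (Q1.e (J1 x)) := hQJ J2 K2 hJ2' hK2 (J1 x)
    have e6 : K2 (Q1.e (J1 x)) = K2 (K1 (P.e x)) := congrArg K2 (hQ1J J1 K1 hJ1' hK1 x)
    exact (congrArg Q.e e3).trans (e5.trans (e6.trans e4.symm))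

end Pool.Agent.H678SG.TP4F
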