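import Pool.Agent.H678SG.Stubs

set_option autoImplicit false

namespace Pool.Agent.H678SG.TSIM

open Pool.Agent.H678SG

theorem core {H0 : Type} [Group H0] (f c : H0) (p : ℕ → Wd H0 × Wd H0) (hf : f ≠ 1)
    (hp : ∀ x n, ∃ m, n ≤ m ∧ p m = x) (H : ℕ → Type) [∀ n, Group (H n)]
    (ev : ∀ n, Wd H0 →* H n) (b : ∀ n, H0 →* H n) (ib : ∀ n, Function.Injective (b n))
    (eb : ∀ n h, ev n (FreeGroup.of (.inl h)) = b n h) (sur : ∀ n, Function.Surjective (ev n))
    (kil : ∀ n m i, n + 1 ≤ m → ev n (lt m i) = 1) (j : ∀ n, H n →* H (n + 1))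
    (bj : ∀ n h, b (n + 1) h = j n (b n h))
    (ej : ∀ n m i, m < n + 1 → ev (n + 1) (lt m i) = j n (ev n (lt m i)))
    (rel : ∀ n, Rel (j n) (b n f) (ev n (p n).1) (orc (b n c) (ev n (p n).2)))
    (G : Type) [Group G] (ι : ∀ n, H n →* G) (iι : ∀ n, Function.Injective (ι n))
    (hι : ∀ n h, ι (n + 1) (j n h) = ι n h) (sι : ∀ g, ∃ n h, ι n h = g) : IsSimpleGroup G := by
  -- truncation
  have htr : ∀ (n : ℕ) (y : Wd H0), ∃ y' : Wd H0, ev n y' = ev n y ∧
      ∀ m, n ≤ m → ι m (ev m y') = ι n (ev n y) := by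
    intro n y
    let tr : Wd H0 →* Wd H0 := FreeGroup.lift (fun l => match l with
      | .inl h => FreeGroup.of (.inl h)
      | .inr (m, i) => if m < n + 1 then lt m i else 1)
    have h1 : (ev n).comp tr = ev n := by
      refine FreeGroup.ext_hom _ _ fun l => ?_
      rw [MonoidHom.comp_apply, FreeGroup.lift_apply_of]
      match l with
      | .inl h => rfl
      | .inr (m, i) =>
        change ev n (if m < n + 1 then lt m i else 1) = ev n (lt m i)
        split_ifs with h
        · rfl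
        · rw [map_one, kil n m i (by omega)]
    have h2 : ∀ m, n ≤ m → (ev (m + 1)).comp tr = (j m).comp ((ev m).comp tr) := by
      intro m hm
      refine FreeGroup.ext_hom _ _ fun l => ?_
      rw [MonoidHom.comp_apply, MonoidHom.comp_apply, MonoidHom.comp_apply,
        FreeGroup.lift_apply_of]
      match l with
      | .inl h =>
        change ev (m + 1) (FreeGroup.of (.inl h)) = j m (ev m (FreeGroup.of (.inl h)))
        rw [eb, eb, bj]
      | .inr (k, i) =>
        change ev (m + 1) (if k < n + 1 then lt k i else 1) =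
          j m (ev m (if k < n + 1 then lt k i else 1))
        split_ifs with h
        · exact ej m k i (by omega)
        · rw [map_one, map_one, map_one]
    have h3 : ev n (tr y) = ev n y := DFunLike.congr_fun h1 y
    refine ⟨tr y, h3, ?_⟩
    intro m hm
    induction m, hm using Nat.le_induction with
    | base => rw [h3]
    | succ m hm ih =>
      have h4 : ev (m + 1) (tr y) = j m (ev m (tr y)) := DFunLike.congr_fun (h2 m hm) y
      rw [h4, hι, ih]
  -- the image of `f`
  have hfm : ∀ n, ι n (b n f) = ι 0 (b 0 f) := by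
    intro n
    induction n with
    | zero => rfl
    | succ n ih => rw [bj, hι, ih]
  have hf1 : ι 0 (b 0 f) ≠ 1 := by
    intro h
    apply hf
    apply ib 0
    apply iι 0
    rw [h, map_one, map_one]
  have horc : ∀ n u, u ≠ 1 → orc (b n c) u = u := by
    intro n u hu
    unfold orc
    rw [if_neg hu]
  -- consequence of the relations
  have key2 : ∀ n (x y : Wd H0), p n = (x, y) → ev n y ≠ 1 → ∀ N : Subgroup G, N.Normal →
      ι n (ev n y) ∈ N → ∃ t : G, ∃ q ∈ N, t * ι 0 (b 0 f) * t⁻¹ = ι n (ev n x) * q := by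
    intro n x y hxy hy N hN hyN
    obtain ⟨t, t2, t3, t4, t5, h⟩ := rel n
    rw [hxy] at h
    dsimp only at h
    rw [horc n _ hy] at h
    have h2 := congrArg (ι (n + 1)) h
    simp only [map_mul, map_inv, hι] at h2
    rw [hfm] at h2
    have hc : ∀ s : G, s * ι n (ev n y) * s⁻¹ ∈ N := fun s => hN.conj_mem _ hyN s
    refine ⟨ι (n + 1) t, (ι (n + 1) t2 * ι n (ev n y) * (ι (n + 1) t2)⁻¹) *
      (ι (n + 1) t3 * ι n (ev n y) * (ι (n + 1) t3)⁻¹) *
      (ι (n + 1) t4 * ι n (ev n y) * (ι (n + 1) t4)⁻¹) *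
      (ι (n + 1) t5 * ι n (ev n y) * (ι (n + 1) t5)⁻¹),
      N.mul_mem (N.mul_mem (N.mul_mem (hc _) (hc _)) (hc _)) (hc _), ?_⟩
    rw [h2]
    simp only [mul_assoc]
  have hnt : Nontrivial G := ⟨⟨ι 0 (b 0 f), 1, hf1⟩⟩
  refine ⟨fun N hN => ?_⟩
  by_cases hbot : N = ⊥
  · exact Or.inl hbot
  · right
    obtain ⟨g, hgN, hg1⟩ : ∃ g ∈ N, g ≠ 1 := by
      by_contra hcon
      push Not at hcon
      exact hbot ((Subgroup.eq_bot_iff_forall N).2 hcon)
    -- `f` is in `N`
    have hfN : ι 0 (b 0 f) ∈ N := by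
      obtain ⟨n, h, rfl⟩ := sι g
      obtain ⟨y, rfl⟩ := sur n h
      obtain ⟨y', hy1, hy2⟩ := htr n y
      obtain ⟨m, hm, hpm⟩ := hp (1, y') n
      have h3 := hy2 m hm
      have h4 : ev m y' ≠ 1 := by
        intro h5
        rw [h5, map_one] at h3
        exact hg1 h3.symm
      obtain ⟨t, q, hq, h5⟩ := key2 m 1 y' hpm h4 N hN (by rw [h3]; exact hgN)
      rw [map_one, map_one, one_mul] at h5
      have h6 : ι 0 (b 0 f) = t⁻¹ * q * (t⁻¹)⁻¹ := by
        rw [← h5]
        group
      rw [h6]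
      exact hN.conj_mem _ hq _
    rw [eq_top_iff]
    intro g' _
    obtain ⟨n, h, rfl⟩ := sι g'
    obtain ⟨x, rfl⟩ := sur n h
    obtain ⟨x', hx1, hx2⟩ := htr n x
    obtain ⟨m, hm, hpm⟩ := hp (x', FreeGroup.of (.inl f)) n
    have h3 := hx2 m hm
    have h4 : ev m (FreeGroup.of (.inl f)) ≠ 1 := by
      rw [eb]
      intro h5
      exact hf (ib m (by rw [h5, map_one]))
    obtain ⟨t, q, hq, h5⟩ := key2 m x' _ hpm h4 N hN (by rw [eb, hfm]; exact hfN)
    have h6 : ι n (ev n x) = (t * ι 0 (b 0 f) * t⁻¹) * q⁻¹ := by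
      rw [h5, ← h3]
      group
    rw [h6]
    exact N.mul_mem (hN.conj_mem _ hfN _) (N.inv_mem hq)

theorem t_SIM : S_SIM := by
  intro H0 _ f c p hf hp F L
  constructor
  · intro G _ ι iι hι sι
    exact core f c p hf hp (fun n => (F n).H) (fun n => (F n).ev) (fun n => (F n).b)
      (fun n => (F n).ib) (fun n => (F n).eb) (fun n => (F n).sur) (fun n => (F n).kil)
      (fun n => (L n).j) (fun n => (L n).bj) (fun n => (L n).ej) (fun n => (L n).rel) G ι iι hι sι
  · intro G _ ι iι hι sι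
    exact core f c p hf hp (fun n => (F n).H') (fun n => (F n).ev') (fun n => (F n).b')
      (fun n => (F n).ib') (fun n => (F n).eb') (fun n => (F n).sur') (fun n => (F n).kil')
      (fun n => (L n).j') (fun n => (L n).bj') (fun n => (L n).ej') (fun n => (L n).rel') G ι iι
      hι sι

end Pool.Agent.H678SG.TSIM
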