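import Pool.Agent.H678SG.Stubs

set_option autoImplicit false

namespace Pool.Agent.H678SG.TSQ

open Pool.Agent.H678SG

theorem t_SQ : S_SQ := by
  intro H0 _ f c p S1 h
  let F : ∀ n, St H0 f c (n + 1) := fun n =>
    Nat.rec (motive := fun n => St H0 f c (n + 1)) S1
      (fun n S => Classical.choose (h (n + 1) S (p n).1 (p n).2)) n
  exact ⟨F, rfl, fun n => Classical.choose_spec (h (n + 1) (F n) (p n).1 (p n).2)⟩

end Pool.Agent.H678SG.TSQ
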