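import Pool.Agent.H678SG.Stubs2

/-! Task STAR: fixed sets are stars. -/

set_option autoImplicit false

namespace Pool.Agent.H678SG.TSTAR

open Pool.Agent.H678SG

/-- an element with two fixed vertices fixes the path between them -/
theorem fix_support {E V : Type} [Group E] [MulAction E V] {T : SimpleGraph V} (h : Act E V T)
    {x : E} {u v : V} (hu : x • u = u) (hv : x • v = v) (p : T.Walk u v) (hp : p.IsPath) :
    ∀ w ∈ p.support, x • w = w := by
  let f : T →g T := ⟨fun w => x • w, fun hab => h.adj x _ _ hab⟩
  have hf : Function.Injective f := fun a b hab => MulAction.injective x hab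
  have hq : ((p.map f).copy hu hv).IsPath := by
    rw [SimpleGraph.Walk.isPath_copy]
    exact SimpleGraph.Walk.map_isPath_of_injective hf hp
  obtain ⟨r, _, hr⟩ := h.tree.existsUnique_path u v
  have e : (p.map f).copy hu hv = p := (hr _ hq).trans (hr _ hp).symm
  have e2 : p.support.map f = p.support := by
    have := congrArg SimpleGraph.Walk.support e
    rwa [SimpleGraph.Walk.support_copy, SimpleGraph.Walk.support_map] at this
  intro w hw
  obtain ⟨i, hi, rfl⟩ := List.getElem_of_mem hw
  have hi' : i < (p.support.map f).length := by rw [List.length_map]; exact hi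
  have e3 : (p.support.map f)[i]'hi' = p.support[i] := by
    simp only [e2]
  rw [List.getElem_map] at e3
  exact e3

theorem t_STAR : S_TREE → S_EDG → S_STAR := by
  intro hTREE hEDG G _ A B φ hC x hx hxB g x' hg
  obtain ⟨V, _, T, v0, hA, htr, hst, hadj⟩ := hTREE G A B φ
  -- x fixes v0 and g v0
  have fx0 : (HNNExtension.of x : HNNExtension G A B φ) • v0 = v0 := (hst _).2 ⟨x, rfl⟩
  have fx1 : (HNNExtension.of x : HNNExtension G A B φ) • (g • v0) = g • v0 := by
    rw [hg, smul_smul, mul_assoc, inv_mul_cancel, mul_one, mul_smul, (hst _).2 ⟨x', rfl⟩]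
  -- a general tool
  have tool : ∀ (k z : HNNExtension G A B φ), z • (k • v0) = k • v0 → ∃ y, (HNNExtension.of y : HNNExtension G A B φ) = k⁻¹ * z * k := by
    intro k z h
    apply (hst _).1
    rw [mul_smul, mul_smul, h, smul_smul, inv_mul_cancel, one_smul]
  obtain ⟨p, hp, _⟩ := hA.tree.existsUnique_path v0 (g • v0)
  have hfix := fix_support hA fx0 fx1 p hp
  generalize hv1 : g • v0 = v1 at *
  cases p with
  | nil =>
    left
    obtain ⟨y, hy⟩ := (hst g).1 hv1
    exact ⟨y, hy.symm⟩
  | @cons _ w1 _ h1 q1 =>
    have fw1 : (HNNExtension.of x : HNNExtension G A B φ) • w1 = w1 := hfix w1 (by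
      rw [SimpleGraph.Walk.support_cons]
      exact List.mem_cons_of_mem _ (SimpleGraph.Walk.start_mem_support q1))
    obtain ⟨y, hy | hy⟩ := (hadj w1).1 h1
    · exfalso
      rw [hy] at fw1
      obtain ⟨z, hz⟩ := tool _ _ fw1
      apply hxB y⁻¹
      rw [inv_inv]
      apply ((hEDG G A B φ (y⁻¹ * x * y)).1).1
      refine ⟨z, ?_⟩
      rw [hz]
      simp only [map_mul, map_inv, mul_inv_rev, mul_assoc]
    · have hyA : y⁻¹ * x * y ∈ A := by
        rw [hy] at fw1
        obtain ⟨z, hz⟩ := tool _ _ fw1
        apply ((hEDG G A B φ (y⁻¹ * x * y)).2).1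
        refine ⟨z, ?_⟩
        rw [hz]
        simp only [map_mul, map_inv, mul_inv_rev, mul_assoc, inv_inv]
      right
      cases q1 with
      | nil =>
        refine ⟨y, ?_⟩
        have h2 : (HNNExtension.of y * HNNExtension.t⁻¹ : HNNExtension G A B φ)⁻¹ • (g • v0) = v0 := by
          rw [hv1, hy, smul_smul, inv_mul_cancel, one_smul]
        rw [smul_smul] at h2
        obtain ⟨y', hy'⟩ := (hst _).1 h2
        refine ⟨y', hyA, ?_⟩
        rw [hy', mul_inv_cancel_left]
      | @cons _ w2 _ h2 q2 =>
        exfalso
        have fw2 : (HNNExtension.of x : HNNExtension G A B φ) • w2 = w2 := hfix w2 (by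
          rw [SimpleGraph.Walk.support_cons, SimpleGraph.Walk.support_cons]
          exact List.mem_cons_of_mem _ (List.mem_cons_of_mem _
            (SimpleGraph.Walk.start_mem_support q2)))
        have hne : w2 ≠ v0 := by
          rintro rfl
          have h3 := hp.support_nodup
          rw [SimpleGraph.Walk.support_cons, List.nodup_cons] at h3
          apply h3.1
          rw [SimpleGraph.Walk.support_cons]
          exact List.mem_cons_of_mem _ (SimpleGraph.Walk.start_mem_support q2)
        set k : HNNExtension G A B φ := HNNExtension.of y * HNNExtension.t⁻¹ with hk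
        -- the element of x in the stabiliser of w1
        have hkx : k⁻¹ * HNNExtension.of x * k =
            (HNNExtension.of ((φ ⟨_, hyA⟩ : B) : G) : HNNExtension G A B φ) := by
          have h4 := HNNExtension.t_mul_of (φ := φ) ⟨_, hyA⟩
          rw [← mul_inv_eq_iff_eq_mul] at h4
          rw [← h4, hk]
          simp only [map_mul, map_inv, mul_inv_rev, mul_assoc, inv_inv]
        set b : G := ((φ ⟨_, hyA⟩ : B) : G) with hb
        have hbB : b ∈ B := SetLike.coe_mem _
        have hb1 : b ≠ 1 := by
          intro h5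
          have h6 : (φ ⟨_, hyA⟩ : B) = 1 := Subtype.ext h5
          rw [map_eq_one_iff φ φ.injective] at h6
          have h7 : y⁻¹ * x * y = 1 := congrArg Subtype.val h6
          apply hx
          have h8 : y⁻¹ * x = y⁻¹ := mul_eq_one_iff_eq_inv.1 h7
          exact mul_eq_left.1 h8
        have h9 : T.Adj v0 (k⁻¹ • w2) := by
          have := hA.adj k⁻¹ _ _ h2
          rwa [hy, smul_smul, inv_mul_cancel, one_smul] at this
        have h10 : (HNNExtension.of b : HNNExtension G A B φ) • (k⁻¹ • w2) = k⁻¹ • w2 := by
          rw [← hkx, smul_smul, mul_assoc, mul_inv_cancel, mul_one, mul_smul, fw2]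
        obtain ⟨y1, hy1 | hy1⟩ := (hadj _).1 h9
        · rw [hy1] at h10
          obtain ⟨z, hz⟩ := tool _ _ h10
          have h11 : y1⁻¹ * b * y1 ∈ B := by
            apply ((hEDG G A B φ (y1⁻¹ * b * y1)).1).1
            refine ⟨z, ?_⟩
            rw [hz]
            simp only [map_mul, map_inv, mul_inv_rev, mul_assoc]
          have h12 : y1 ∈ B := by
            have := hC.1 b hbB hb1 y1⁻¹ (by rw [inv_inv]; exact h11)
            exact inv_mem_iff.1 this
          obtain ⟨a1, ha1⟩ := φ.surjective ⟨y1, h12⟩
          have h13 : (HNNExtension.of y1 * HNNExtension.t : HNNExtension G A B φ) =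
              HNNExtension.t * HNNExtension.of (a1 : G) := by
            rw [HNNExtension.t_mul_of (φ := φ) a1, ha1]
          rw [h13, mul_smul, (hst _).2 ⟨(a1 : G), rfl⟩] at hy1
          apply hne
          have h14 : w2 = k • (HNNExtension.t : HNNExtension G A B φ) • v0 := by
            rw [← hy1, smul_smul, mul_inv_cancel, one_smul]
          rw [h14, smul_smul, hk, mul_assoc, inv_mul_cancel, mul_one]
          exact (hst _).2 ⟨y, rfl⟩
        · rw [hy1] at h10
          obtain ⟨z, hz⟩ := tool _ _ h10
          have h11 : y1⁻¹ * b * y1 ∈ A := by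
            apply ((hEDG G A B φ (y1⁻¹ * b * y1)).2).1
            refine ⟨z, ?_⟩
            rw [hz]
            simp only [map_mul, map_inv, mul_inv_rev, mul_assoc, inv_inv]
          exact hC.2 b hbB hb1 y1⁻¹ (by rw [inv_inv]; exact h11)

end Pool.Agent.H678SG.TSTAR
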