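import Pool.Agent.H678SG.Stubs

/-! STEP: the step isomorphism. -/

set_option autoImplicit false

namespace Pool.Agent.H678SG.TSTEP

open Pool.Agent.H678SG

theorem of_inj {G : Type} [Group G] (A B : Subgroup G) (φ : A ≃* B) :
    Function.Injective (HNNExtension.of : G →* HNNExtension G A B φ) :=
  HNNExtension.of_injective (φ := φ)

theorem i2_inj (H : Type) [Group H] : Function.Injective (i2 H) := by
  unfold i2
  rw [MonoidHom.coe_comp]
  exact (of_inj _ _ _).comp (of_inj _ _ _)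

theorem i4_inj (H : Type) [Group H] : Function.Injective (i4 H) := by
  unfold i4
  rw [MonoidHom.coe_comp]
  exact (i2_inj _).comp (i2_inj _)

theorem e_mul {G G' : Type} [Group G] [Group G'] (P : TI G G') (x y : CR G) :
    P.e (x * y) = P.e x * P.e y := map_mul P.e x y

theorem e_star {G G' : Type} [Group G] [Group G'] (P : TI G G') (x : CR G) :
    P.e (star x) = star (P.e x) := map_star P.e x

theorem e_cjg {H H' : Type} [Group H] [Group H'] (P : TI H H') (Q0 : TI (P4 H) (P4 H'))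
    (J : CR H →⋆ₐ[ℂ] CR (P4 H)) (J' : CR H' →⋆ₐ[ℂ] CR (P4 H')) (i : Bool ⊕ Bool) (v : CR H)
    (h1 : Q0.e (lc (l4 H i)) = lc (l4 H' i)) (h2 : Q0.e (J v) = J' (P.e v)) :
    Q0.e (cjg J i v) = cjg J' i (P.e v) := by
  unfold cjg
  rw [e_mul, e_mul, e_star, h1, h2]

theorem e_word {G G' : Type} [Group G] [Group G'] (P : TI G G') (a b c d e : CR G) :
    P.e (a * (b * c) * (d * e)) = P.e a * (P.e b * P.e c) * (P.e d * P.e e) := by
  rw [e_mul, e_mul, e_mul, e_mul]

theorem word_eq {A : Type} [Mul A] {a b c d e a' b' c' d' e' : A} (ha : a = a') (hb : b = b')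
    (hc : c = c') (hd : d = d') (he : e = e') :
    a * (b * c) * (d * e) = a' * (b' * c') * (d' * e') := by
  subst ha hb hc hd he
  rfl

theorem conj_cancel {G : Type} [Group G] (Y : unitary (CR G)) (x : CR G) :
    star (Y : CR G) * ((Y : CR G) * x * star (Y : CR G)) * (Y : CR G) = x := by
  have e1 : star (Y : CR G) * (Y : CR G) = 1 := (Unitary.mem_iff.1 Y.2).1
  calc star (Y : CR G) * ((Y : CR G) * x * star (Y : CR G)) * (Y : CR G)
      = (star (Y : CR G) * (Y : CR G)) * x * (star (Y : CR G) * (Y : CR G)) := by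
        simp only [mul_assoc]
    _ = x := by rw [e1, one_mul, mul_one]

/-- the image of a unitary element -/
noncomputable def mapU {G G' : Type} [Group G] [Group G'] (P : TI G G') (U : unitary (CR G)) :
    unitary (CR G') :=
  ⟨P.e (U : CR G), by
    have h := U.2
    rw [Unitary.mem_iff] at h ⊢
    constructor
    · rw [← map_star, ← map_mul, h.1, map_one]
    · rw [← map_star, ← map_mul, h.2, map_one]⟩

theorem mapU_coe {G G' : Type} [Group G] [Group G'] (P : TI G G') (U : unitary (CR G)) :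
    (mapU P U : CR G') = P.e (U : CR G) := rfl

theorem mapU_mul {G G' : Type} [Group G] [Group G'] (P : TI G G') (U V : unitary (CR G)) :
    mapU P (U * V) = mapU P U * mapU P V := by
  apply Subtype.ext
  show P.e ((U : CR G) * (V : CR G)) = P.e (U : CR G) * P.e (V : CR G)
  rw [map_mul]

theorem conj_fin {G : Type} [Group G] (R : TI G G) (Y : unitary (CR G)) (x z : CR G)
    (h : R.e x = z) : R.e (star (Y : CR G) * x * (Y : CR G)) =
      (mapU R Y⁻¹ : CR G) * z * star (mapU R Y⁻¹ : CR G) := by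
  have e3 : (mapU R Y⁻¹ : CR G) = R.e (star (Y : CR G)) := rfl
  rw [e3, ← e_star, star_star, e_mul, e_mul, h]

theorem mapU_mem (hT : S_DUT) {G G' : Type} [Group G] [Group G'] (P : TI G G')
    (D : unitary (CR G)) (hD : D ∈ DU G) : mapU P D ∈ DU G' := by
  obtain ⟨D', hD', he⟩ := hT G G' P D hD
  have : mapU P D = D' := Subtype.ext he.symm
  rw [this]
  exact hD'

/-- matched elements, in terms of unitaries -/
theorem mt_iff {H H' : Type} [Group H] [Group H'] (P : TI H H') (h : H) (h' : H') :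
    Mt P h h' ↔ mapU P (lamC H h) * (lamC H' h')⁻¹ ∈ DU H' := by
  constructor
  · rintro ⟨D, hD, he⟩
    have : mapU P (lamC H h) = D * lamC H' h' := Subtype.ext he
    rw [this, mul_inv_cancel_right]
    exact hD
  · intro hm
    refine ⟨_, hm, ?_⟩
    have : mapU P (lamC H h) = (mapU P (lamC H h) * (lamC H' h')⁻¹) * lamC H' h' := by
      rw [inv_mul_cancel_right]
    have h2 := congrArg (fun U : unitary (CR H') => (U : CR H')) this
    exact h2

theorem mt_symm (hT : S_DUT) {H H' : Type} [Group H] [Group H'] (P : TI H H') (Q : TI H' H)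
    (hQ : ∀ x, Q.e (P.e x) = x) {h : H} {h' : H'} (hm : Mt P h h') : Mt Q h' h := by
  rw [mt_iff] at hm ⊢
  have h1 := mapU_mem hT Q _ hm
  have h2 : mapU Q (mapU P (lamC H h)) = lamC H h := Subtype.ext (hQ _)
  have h3 : mapU Q (mapU P (lamC H h) * (lamC H' h')⁻¹) * mapU Q (lamC H' h') =
      mapU Q (mapU P (lamC H h)) := by
    rw [← mapU_mul, inv_mul_cancel_right]
  rw [h2] at h3
  have h4 : mapU Q (lamC H' h') * (lamC H h)⁻¹ =
      (mapU Q (mapU P (lamC H h) * (lamC H' h')⁻¹))⁻¹ := by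
    generalize mapU Q (mapU P (lamC H h) * (lamC H' h')⁻¹) = X at h3 ⊢
    rw [← h3]
    group
  rw [h4]
  exact inv_mem h1

theorem mt_trans (hT : S_DUT) {H H' H'' : Type} [Group H] [Group H'] [Group H''] (P : TI H H')
    (Q : TI H' H'') (R : TI H H'') (hR : ∀ x, R.e x = Q.e (P.e x)) {h : H} {h' : H'} {h'' : H''}
    (h1 : Mt P h h') (h2 : Mt Q h' h'') : Mt R h h'' := by
  rw [mt_iff] at h1 h2 ⊢
  have e1 := mapU_mem hT Q _ h1
  have e2 : mapU R (lamC H h) = mapU Q (mapU P (lamC H h)) := Subtype.ext (hR _)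
  have e3 : mapU Q (mapU P (lamC H h) * (lamC H' h')⁻¹) * mapU Q (lamC H' h') =
      mapU Q (mapU P (lamC H h)) := by
    rw [← mapU_mul, inv_mul_cancel_right]
  rw [e2, ← e3, mul_assoc]
  exact mul_mem e1 h2

theorem t_STEP (hLA : S_LA) (hLB : S_LB) (hP4F : S_P4F) (hTC : S_TC) (hDUT : S_DUT)
    (hINJ : S_INJ) : S_STEP := by
  intro H H' _ _ P w u w' u' hu hu' mw mu
  obtain ⟨J, hJ⟩ := hINJ H (P4 H) (i4 H) (i4_inj H)
  obtain ⟨J', hJ'⟩ := hINJ H' (P4 H') (i4 H') (i4_inj H')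
  obtain ⟨R, hR1, hR2⟩ := hTC.1 H H' P
  have mw' : mapU R (lamC H' w') * (lamC H w)⁻¹ ∈ DU H :=
    (mt_iff R w' w).1 (mt_symm hDUT P R hR1 mw)
  have mu' : mapU R (lamC H' u') * (lamC H u)⁻¹ ∈ DU H :=
    (mt_iff R u' u).1 (mt_symm hDUT P R hR1 mu)
  obtain ⟨ΘA, hAl, hAJ⟩ := hLA H w u (mapU R (lamC H' w')) (mapU R (lamC H' u')) hu mw' mu'
  obtain ⟨Q0, hQ0l, hQ0J⟩ := hP4F H H' P
  obtain ⟨ΘB, YB, hYB, hBl, hBJ⟩ := hLB H' w' u' (mapU P (lamC H u)) hu' ((mt_iff P u u').1 mu)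
  obtain ⟨RB, hRB1, hRB2⟩ := hTC.1 (P4 H') (P4 H') ΘB
  obtain ⟨Q1, hQ1⟩ := hTC.2 (P4 H) (P4 H) (P4 H') ΘA Q0
  obtain ⟨Q, hQ⟩ := hTC.2 (P4 H) (P4 H') (P4 H') Q1 RB
  -- the image of the word
  have hcj : ∀ (i : Bool ⊕ Bool) (v : CR H), Q0.e (cjg J i v) = cjg J' i (P.e v) := by
    intro i v
    exact e_cjg P Q0 J J' i v (hQ0l i) (hQ0J J J' hJ hJ' v)
  have hw1 : P.e ((mapU R (lamC H' w') : unitary (CR H)) : CR H) = lc w' := hR2 _
  have hu1 : P.e ((mapU R (lamC H' u') : unitary (CR H)) : CR H) = lc u' := hR2 _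
  have hX : Q1.e (lc (zz w u)) = J' (lc w') *
      (cjg J' (.inl false) (lc u') * cjg J' (.inl true) (lc u')) *
      (cjg J' (.inr false) (mapU P (lamC H u) : CR H') *
        cjg J' (.inr true) (mapU P (lamC H u) : CR H')) := by
    rw [hQ1, (hAJ J hJ).2]
    refine (e_word Q0 _ _ _ _ _).trans (word_eq ?_ ?_ ?_ ?_ ?_)
    · exact (hQ0J J J' hJ hJ' _).trans (congrArg J' hw1)
    · exact (hcj _ _).trans (congrArg (cjg J' _) hu1)
    · exact (hcj _ _).trans (congrArg (cjg J' _) hu1)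
    · exact hcj _ _
    · exact hcj _ _
  have hB : ΘB.e (lc (zz w' u')) = (YB : CR (P4 H')) * Q1.e (lc (zz w u)) *
      star (YB : CR (P4 H')) := by
    rw [(hBJ J' hJ').2, hX]
  refine ⟨Q, mapU RB (YB⁻¹), mapU_mem hDUT RB _ (inv_mem hYB), ?_, ?_, ?_⟩
  · have e2 : Q1.e (lc (zz w u)) = star (YB : CR (P4 H')) * ΘB.e (lc (zz w' u')) *
        (YB : CR (P4 H')) := by
      rw [hB, conj_cancel]
    exact ((hQ _).trans (congrArg RB.e e2)).trans (conj_fin RB YB _ _ (hRB1 _))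
  · intro i
    have a1 : Mt Q1 (l4 H i) (l4 H' i) := by
      refine mt_trans hDUT ΘA Q0 Q1 hQ1 (hAl i) ⟨1, one_mem _, ?_⟩
      exact (hQ0l i).trans (one_mul (lc (l4 H' i))).symm
    exact mt_trans hDUT Q1 RB Q hQ a1 (mt_symm hDUT ΘB RB hRB1 (hBl i))
  · intro K K' hK hK' x
    have e1 : Q1.e (K x) = K' (P.e x) :=
      ((hQ1 (K x)).trans (congrArg Q0.e ((hAJ K hK).1 x))).trans (hQ0J K K' hK hK' x)
    have e2 : RB.e (K' (P.e x)) = K' (P.e x) :=
      (congrArg RB.e ((hBJ K' hK').1 (P.e x)).symm).trans (hRB1 _)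
    exact ((hQ (K x)).trans (congrArg RB.e e1)).trans e2

end Pool.Agent.H678SG.TSTEP
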