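import Pool.Agent.H678SG.Stubs

/-! Task SUP: supports. -/

set_option autoImplicit false

namespace Pool.Agent.H678SG.TSUP

open Pool.Agent.H667R2.FG (Ell permOp lam rho delta LG EltG tau)
open Pool.Agent.H667R2.FG.TL2
open scoped ComplexConjugate InnerProductSpace

theorem hasSum_delta' {G : Type} [Group G] (ξ : Ell G) :
    HasSum (fun g : G => ξ g • (delta g : Ell G)) ξ := by
  classical
  have h1 : HasSum (fun w : G => (lp.single 2 w (ξ w) : Ell G)) ξ :=
    lp.hasSum_single (by norm_num) ξ
  refine h1.congr_fun ?_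
  intro w
  ext k
  rw [lp.coeFn_smul, Pi.smul_apply, delta_apply]
  by_cases hk : k = w
  · subst hk
    rw [if_pos rfl, lp.single_apply_self, smul_eq_mul, mul_one]
  · rw [if_neg hk, lp.single_apply_ne _ _ _ hk, smul_zero]

theorem t_SUP (hcom : S_COM) : S_SUP := by
  intro G _ x S X ξ hS hX h hne
  have hT : ∀ g, (x : Op G) * rho g = rho g * (x : Op G) := hcom G x
  have h1 := (x : Op G).hasSum (hasSum_delta' ξ)
  have h2 := (innerSL ℂ (delta h : Ell G)).hasSum h1
  have e : (fun g : G => (innerSL ℂ (delta h : Ell G)) ((x : Op G) (ξ g • (delta g : Ell G)))) =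
      fun _ => (0 : ℂ) := by
    funext g
    rw [innerSL_apply_apply, inner_delta, map_smul]
    show ξ g • ((x : Op G) (delta g)) h = 0
    by_cases hg : g ∈ X
    · rw [coef_apply (x : Op G) hT g h]
      by_cases hs : h * g⁻¹ ∈ S
      · exact absurd (by group) (hne _ hs _ hg)
      · rw [hS _ hs, smul_zero]
    · rw [hX g hg, zero_smul]
  have h3 := h2.unique (by
    show HasSum (fun g : G => (innerSL ℂ (delta h : Ell G))
      ((x : Op G) (ξ g • (delta g : Ell G)))) 0
    rw [e]
    exact hasSum_zero)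
  rwa [innerSL_apply_apply, inner_delta] at h3

end Pool.Agent.H678SG.TSUP
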