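import Pool.Agent.H678SG.Stubs

set_option autoImplicit false

namespace Pool.Agent.H678SG.TSW

open Pool.Agent.H678SG

section
variable {H G : Type} [Group H] [Group G]

noncomputable def liftZ (f : H →* G) (x : G) : PZ H →* G :=
  HNNExtension.lift f x (by
    rintro ⟨a, ha⟩
    have h1 : a = 1 := Subgroup.mem_bot.1 ha
    subst h1
    simp)

theorem liftZ_of (f : H →* G) (x : G) (h : H) :
    liftZ f x (HNNExtension.of h : PZ H) = f h := by
  simp [liftZ]

theorem liftZ_t (f : H →* G) (x : G) : liftZ f x (HNNExtension.t : PZ H) = x := by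
  simp [liftZ]

theorem extZ {f g : PZ H →* G} (h1 : ∀ h, f (HNNExtension.of h) = g (HNNExtension.of h))
    (h2 : f HNNExtension.t = g HNNExtension.t) : f = g :=
  HNNExtension.hom_ext (MonoidHom.ext h1) h2

noncomputable def lift2 (f : H →* G) (x : Bool → G) : P2 H →* G :=
  liftZ (liftZ f (x false)) (x true)

theorem lift2_i (f : H →* G) (x : Bool → G) (h : H) : lift2 f x (i2 H h) = f h := by
  show liftZ (liftZ f (x false)) (x true) (HNNExtension.of (HNNExtension.of h)) = f h
  rw [liftZ_of, liftZ_of]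

theorem lift2_l (f : H →* G) (x : Bool → G) (b : Bool) : lift2 f x (l2 H b) = x b := by
  cases b
  · show liftZ (liftZ f (x false)) (x true) (HNNExtension.of HNNExtension.t) = x false
    rw [liftZ_of, liftZ_t]
  · exact liftZ_t _ _

theorem ext2 {f g : P2 H →* G} (h1 : ∀ h, f (i2 H h) = g (i2 H h))
    (h2 : ∀ b, f (l2 H b) = g (l2 H b)) : f = g := by
  apply extZ
  · intro h
    have h3 : f.comp (HNNExtension.of : PZ H →* P2 H) = g.comp (HNNExtension.of : PZ H →* P2 H) :=
      extZ (fun h => h1 h) (h2 false)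
    exact DFunLike.congr_fun h3 h
  · exact h2 true

noncomputable def lift4 (f : H →* G) (x : Bool ⊕ Bool → G) : P4 H →* G :=
  lift2 (lift2 f fun b => x (.inl b)) fun b => x (.inr b)

theorem lift4_i (f : H →* G) (x : Bool ⊕ Bool → G) (h : H) : lift4 f x (i4 H h) = f h := by
  show lift2 (lift2 f fun b => x (.inl b)) (fun b => x (.inr b)) (i2 (P2 H) (i2 H h)) = f h
  rw [lift2_i, lift2_i]

theorem lift4_l (f : H →* G) (x : Bool ⊕ Bool → G) (i : Bool ⊕ Bool) :
    lift4 f x (l4 H i) = x i := by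
  rcases i with b | b
  · show lift2 (lift2 f fun b => x (.inl b)) (fun b => x (.inr b)) (i2 (P2 H) (l2 H b)) = _
    rw [lift2_i, lift2_l]
  · show lift2 (lift2 f fun b => x (.inl b)) (fun b => x (.inr b)) (l2 (P2 H) b) = _
    rw [lift2_l]

theorem ext4 {f g : P4 H →* G} (h1 : ∀ h, f (i4 H h) = g (i4 H h))
    (h2 : ∀ i, f (l4 H i) = g (l4 H i)) : f = g := by
  apply ext2
  · intro h
    have h3 : f.comp (i2 (P2 H)) = g.comp (i2 (P2 H)) :=
      ext2 (fun h => h1 h) (fun b => h2 (.inl b))
    exact DFunLike.congr_fun h3 h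
  · exact fun b => h2 (.inr b)

end

theorem t_SW : S_SW := by
  intro H _
  let F : P4 H →* P4 H := lift4 (i4 H) fun i => l4 H i.swap
  have hF : F.comp F = MonoidHom.id _ := by
    apply ext4
    · intro h
      show F (F (i4 H h)) = i4 H h
      rw [show F (i4 H h) = i4 H h from lift4_i _ _ _, show F (i4 H h) = i4 H h from lift4_i _ _ _]
    · intro i
      show F (F (l4 H i)) = l4 H i
      rw [show F (l4 H i) = l4 H i.swap from lift4_l _ _ _,
        show F (l4 H i.swap) = l4 H i.swap.swap from lift4_l _ _ _, Sum.swap_swap]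
  refine ⟨MonoidHom.toMulEquiv F F hF hF, fun h => ?_, fun b => ⟨?_, ?_⟩⟩
  · show F (i4 H h) = i4 H h
    exact lift4_i _ _ _
  · show F (l4 H (.inl b)) = l4 H (.inr b)
    exact lift4_l _ _ _
  · show F (l4 H (.inr b)) = l4 H (.inl b)
    exact lift4_l _ _ _

end Pool.Agent.H678SG.TSW
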