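import Pool.Agent.H678SG.Stubs2

set_option autoImplicit false

namespace Pool.Agent.H678SG.TT1

open Pool.Agent.H678SG HNNExtension

/-- conjugates of elements of the stabiliser of `v0` are the elements with a fixed vertex -/
theorem fix_of_con {E V G : Type} [Group E] [Group G] [MulAction E V] (f : G →* E) (v0 : V)
    (h : ∀ g : E, g • v0 = v0 ↔ ∃ x, f x = g) {x : E} (hx : Con f x) : ∃ v : V, x • v = v := by
  obtain ⟨a, g, rfl⟩ := hx
  refine ⟨g • v0, ?_⟩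
  rw [mul_smul, mul_smul, inv_smul_smul, (h (f a)).mpr ⟨a, rfl⟩]

theorem con_of_fix {E V G : Type} [Group E] [Group G] [MulAction E V] (f : G →* E) (v0 : V)
    (h : ∀ g : E, g • v0 = v0 ↔ ∃ x, f x = g) {x g : E} (hx : x • (g • v0) = g • v0) :
    ∃ a : G, x = g * f a * g⁻¹ := by
  have h1 : (g⁻¹ * x * g) • v0 = v0 := by
    rw [mul_smul, mul_smul, hx, inv_smul_smul]
  obtain ⟨a, ha⟩ := (h _).mp h1
  refine ⟨a, ?_⟩
  rw [ha]
  group

/-- Serre's lemma for HNN extensions -/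
theorem t_T1 (hT : S_TREE) (h1 : S_GT1) : S_T1 := by
  intro G _ A B φ x y hx hy hxy
  obtain ⟨V, inst, T, v0, hAct, htr, hst, -⟩ := hT G A B φ
  obtain ⟨v, hv1, hv2⟩ := h1 _ V T hAct x y (fix_of_con of v0 hst hx) (fix_of_con of v0 hst hy)
    (fix_of_con of v0 hst hxy)
  obtain ⟨g, rfl⟩ := htr v
  obtain ⟨a, ha⟩ := con_of_fix of v0 hst hv1
  obtain ⟨b, hb⟩ := con_of_fix of v0 hst hv2
  exact ⟨g, a, b, ha, hb⟩

end Pool.Agent.H678SG.TT1
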