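import Pool.Agent.H678SG.TT1

set_option autoImplicit false

namespace Pool.Agent.H678SG.TT2

open Pool.Agent.H678SG HNNExtension

/-- powers -/
theorem t_T2 (hT : S_TREE) (h2 : S_GT2) : S_T2 := by
  intro G _ A B φ x n hn hx
  obtain ⟨V, inst, T, v0, hAct, htr, hst, -⟩ := hT G A B φ
  obtain ⟨v, hv⟩ := h2 _ V T hAct x n hn (TT1.fix_of_con of v0 hst hx)
  obtain ⟨g, rfl⟩ := htr v
  obtain ⟨a, ha⟩ := TT1.con_of_fix of v0 hst hv
  exact ⟨a, g, ha⟩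

end Pool.Agent.H678SG.TT2
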