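import Pool.Agent.H678SG.TT1

set_option autoImplicit false

namespace Pool.Agent.H678SG.TT3

open Pool.Agent.H678SG HNNExtension

/-- divisible elements -/
theorem t_T3 (hT : S_TREE) (h3 : S_GT3) : S_T3 := by
  intro G _ A B φ p x hp hx
  obtain ⟨V, inst, T, v0, hAct, htr, hst, -⟩ := hT G A B φ
  obtain ⟨v, hv⟩ := h3 _ V T hAct p x hp hx
  obtain ⟨g, rfl⟩ := htr v
  obtain ⟨a, ha⟩ := TT1.con_of_fix of v0 hst hv
  exact ⟨a, g, ha⟩

end Pool.Agent.H678SG.TT3
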