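import Pool.Agent.H678SG.Stubs

set_option autoImplicit false

namespace Pool.Agent.H678SG

theorem t_TC : S_TC := by
  refine ⟨fun G G' _ _ P => ?_, fun G G' G'' _ _ _ P Q => ?_⟩
  · refine ⟨⟨P.e.symm, fun x => ?_⟩, fun x => ?_, fun x => ?_⟩
    · have h := P.tr_e (P.e.symm x)
      rw [StarAlgEquiv.apply_symm_apply] at h
      exact h.symm
    · exact P.e.symm_apply_apply x
    · exact P.e.apply_symm_apply x
  · refine ⟨⟨P.e.trans Q.e, fun x => ?_⟩, fun x => ?_⟩
    · rw [StarAlgEquiv.trans_apply, Q.tr_e, P.tr_e]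
    · rfl

end Pool.Agent.H678SG
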