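import Pool.Agent.H678SG.Stubs2

set_option autoImplicit false

namespace Pool.Agent.H678SG.TTF4

open Pool.Agent.H678SG HNNExtension

/-- `P2 H` and `P4 H` are torsion-free -/
theorem t_TF4 (h : S_TFH) : S_TF4 := by
  intro H _ hH
  have h1 : TF (P2 H) := h _ _ _ _ (h _ _ _ _ hH)
  exact ⟨h1, h _ _ _ _ (h _ _ _ _ h1)⟩

end Pool.Agent.H678SG.TTF4
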