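import Pool.Agent.H678SG.Stubs2

set_option autoImplicit false

namespace Pool.Agent.H678SG.TTFH

open Pool.Agent.H678SG HNNExtension

/-- HNN extensions of torsion-free groups are torsion-free -/
theorem t_TFH (h2 : S_T2) : S_TFH := by
  intro G _ A B φ hG x hx hfin
  obtain ⟨n, hn, hxn⟩ := isOfFinOrder_iff_pow_eq_one.mp hfin
  have hc : Con (of : G →* HNNExtension G A B φ) (x ^ n) := ⟨1, 1, by rw [hxn]; simp⟩
  obtain ⟨a, g, rfl⟩ := h2 G A B φ x n hn.ne' hc
  have ha : a ≠ 1 := by
    rintro rfl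
    exact hx (by simp)
  refine hG a ha (isOfFinOrder_iff_pow_eq_one.mpr ⟨n, hn, ?_⟩)
  rw [conj_pow] at hxn
  have h3 : (of a : HNNExtension G A B φ) ^ n = 1 := by
    have h4 := congrArg (fun z => g⁻¹ * z * g) hxn
    simpa [mul_assoc] using h4
  rw [← map_pow] at h3
  exact of_injective φ (h3.trans (map_one _).symm)

end Pool.Agent.H678SG.TTFH
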