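import Pool.Agent.H678SG.Stubs

/-! Isomorphisms of groups give trace preserving isomorphisms of the reduced C*-algebras. -/

set_option autoImplicit false

namespace Pool.Agent.H678SG.TTG

open Pool.Agent.H678SG
open Pool.Agent.H667R2.FG (Ell permOp lam rho delta LG EltG tau)

theorem tr_lc {G : Type} [Group G] (g : G) (hg : g ≠ 1) : tr (lc g) = 0 := by
  classical
  have h : tr (lc g) = (lam g (delta 1) : Ell G) 1 := rfl
  rw [h, Pool.Agent.H667R2.FG.TL2.lam_delta, mul_one, Pool.Agent.H667R2.FG.TL2.delta_apply,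
    if_neg (Ne.symm hg)]

theorem t_TG (h : S_TIX) : S_TG := by
  intro G G' _ _ e
  obtain ⟨P, hP⟩ := h G G' ((lamC G').comp e.toMonoidHom) (by
    intro g hg
    have h1 : e g ≠ 1 := fun h2 => hg (e.injective (by rw [h2, map_one]))
    exact tr_lc (e g) h1) (by
    intro g'
    apply StarSubalgebra.le_topologicalClosure
    apply StarAlgebra.subset_adjoin ℂ _
    refine ⟨e.symm g', ?_⟩
    have h1 : e (e.symm g') = g' := e.apply_symm_apply g'
    show lc (e (e.symm g')) = lc g'
    rw [h1])
  exact ⟨P, fun g => hP g⟩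

end Pool.Agent.H678SG.TTG
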