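import Pool.Agent.H678SG.Stubs

/-! TIX: a generating unitary representation with the law of the left regular one extends. -/

set_option autoImplicit false

namespace Pool.Agent.H678SG.TTIX

open Pool.Agent.H678SG
open Pool.Agent.H667R2.FG (Ell permOp lam rho delta LG EltG tau)
open Pool.Agent.H667R2.FG.TL2
open scoped InnerProductSpace

theorem op_ext {G : Type} [Group G] {E : Type*} [NormedAddCommGroup E] [NormedSpace ℂ E]
    {A B : Ell G →L[ℂ] E} (h : ∀ g, A (delta g) = B (delta g)) : A = B := by
  classical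
  ext ξ
  have h0 := lp.hasSum_single (p := 2) (E := fun _ : G => ℂ) (by norm_num) ξ
  have h1 : HasSum (fun g => ξ g • (delta g : Ell G)) ξ := by
    convert h0 using 2 with g
    have : (delta g : Ell G) = lp.single 2 g (1 : ℂ) := by
      unfold delta
      congr 1
    rw [this, ← lp.single_smul]
    simp
  have hA := h1.mapL A
  have hB := h1.mapL B
  have e : (fun g => A (ξ g • (delta g : Ell G))) = fun g => B (ξ g • (delta g : Ell G)) := by
    funext g
    rw [map_smul, map_smul, h]
  rw [e] at hA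
  exact hA.unique hB

theorem clos_le {A B : Type} [CStarAlgebra A] [CStarAlgebra B]
    (φ : A →⋆ₐ[ℂ] B) (hφ : Continuous φ) (S : StarSubalgebra ℂ B) (hS : IsClosed (S : Set B))
    (s : Set A) (hs : ∀ a ∈ s, φ a ∈ S) :
    ∀ x ∈ (StarAlgebra.adjoin ℂ s).topologicalClosure, φ x ∈ S := by
  have h : (StarAlgebra.adjoin ℂ s).topologicalClosure ≤ S.comap φ := by
    apply StarSubalgebra.topologicalClosure_minimal
    · apply StarAlgebra.adjoin_le
      intro a ha
      exact hs a ha
    · exact hS.preimage hφ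
  intro x hx
  exact h hx

section

variable {G G' : Type} [Group G] [Group G'] (π : G →* unitary (CR G'))

/-- the vectors `π(g) δ₁` -/
noncomputable def vv (g : G) : Ell G' := ((π g : CR G') : Op G') (delta 1)

theorem pi_mul (g h : G) : (((π (g * h) : unitary (CR G')) : CR G') : Op G') =
    ((π g : CR G') : Op G') * ((π h : CR G') : Op G') := by
  rw [map_mul]
  rfl

theorem pi_vv (g h : G) : ((π g : CR G') : Op G') (vv π h) = vv π (g * h) := by
  unfold vv
  rw [pi_mul]
  rfl

theorem star_pi (g : G) : star ((π g : CR G') : Op G') = ((π g⁻¹ : CR G') : Op G') := by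
  have h1 : ((π g⁻¹ : unitary (CR G')) : CR G') = star (π g : CR G') := by
    rw [map_inv]
    rfl
  rw [h1]
  rfl

theorem vv_one : vv π 1 = delta 1 := by
  unfold vv
  rw [map_one]
  rfl

theorem orth (h0 : ∀ g, g ≠ 1 → tr (π g : CR G') = 0) : Orthonormal ℂ (vv π) := by
  classical
  rw [orthonormal_iff_ite]
  intro g h
  have e1 : ⟪vv π g, vv π h⟫_ℂ = tr (π (g⁻¹ * h) : CR G') := by
    have e2 : vv π g = ((π g : CR G') : Op G') (vv π 1) := by
      rw [pi_vv, mul_one]
    rw [e2, ← ContinuousLinearMap.adjoint_inner_right, ← ContinuousLinearMap.star_eq_adjoint,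
      star_pi, pi_vv, vv_one, inner_delta]
    rfl
  rw [e1]
  by_cases hgh : g = h
  · subst hgh
    rw [if_pos rfl, inv_mul_cancel, map_one]
    show tau ((1 : Op G')) = 1
    unfold tau
    rw [one_apply_eq_self, delta_apply, if_pos rfl]
  · rw [if_neg hgh]
    apply h0
    intro h1
    exact hgh (inv_mul_eq_one.1 h1)

theorem adj (x : CR G')
    (hx : x ∈ StarAlgebra.adjoin ℂ (Set.range fun g => (π g : CR G'))) :
    (∀ v ∈ Submodule.span ℂ (Set.range (vv π)), (x : Op G') v ∈
      Submodule.span ℂ (Set.range (vv π))) ∧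
    (∀ v ∈ Submodule.span ℂ (Set.range (vv π)), (star (x : Op G')) v ∈
      Submodule.span ℂ (Set.range (vv π))) := by
  have hpi : ∀ g : G, ∀ v ∈ Submodule.span ℂ (Set.range (vv π)),
      ((π g : CR G') : Op G') v ∈ Submodule.span ℂ (Set.range (vv π)) := by
    intro g v hv
    induction hv using Submodule.span_induction with
    | mem v hv =>
      obtain ⟨h, rfl⟩ := hv
      rw [pi_vv]
      exact Submodule.subset_span ⟨_, rfl⟩
    | zero => rw [map_zero]; exact Submodule.zero_mem _
    | add v w _ _ h1 h2 => rw [map_add]; exact Submodule.add_mem _ h1 h2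
    | smul c v _ h1 => rw [map_smul]; exact Submodule.smul_mem _ _ h1
  induction hx using StarAlgebra.adjoin_induction with
  | mem x hx =>
    obtain ⟨g, rfl⟩ := hx
    refine ⟨hpi g, ?_⟩
    rw [star_pi]
    exact hpi g⁻¹
  | algebraMap r =>
    have e : ((algebraMap ℂ (CR G') r : CR G') : Op G') = r • (1 : Op G') := by
      rw [Algebra.algebraMap_eq_smul_one]
      rfl
    rw [e, star_smul, star_one]
    refine ⟨fun v hv => ?_, fun v hv => ?_⟩
    · exact Submodule.smul_mem _ _ hv
    · exact Submodule.smul_mem _ _ hv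
  | add x y _ _ hx hy =>
    have e : ((x + y : CR G') : Op G') = (x : Op G') + (y : Op G') := rfl
    rw [e, star_add]
    exact ⟨fun v hv => Submodule.add_mem _ (hx.1 v hv) (hy.1 v hv),
      fun v hv => Submodule.add_mem _ (hx.2 v hv) (hy.2 v hv)⟩
  | mul x y _ _ hx hy =>
    have e : ((x * y : CR G') : Op G') = (x : Op G') * (y : Op G') := rfl
    rw [e, star_mul]
    exact ⟨fun v hv => hx.1 _ (hy.1 v hv), fun v hv => hy.2 _ (hx.2 v hv)⟩
  | star x _ hx =>
    have e : ((star x : CR G') : Op G') = star (x : Op G') := rfl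
    rw [e, star_star]
    exact ⟨hx.2, hx.1⟩

theorem dense (hgen : ∀ g' : G', lc g' ∈
    (StarAlgebra.adjoin ℂ (Set.range fun g => (π g : CR G'))).topologicalClosure) :
    (Submodule.span ℂ (Set.range (vv π)))ᗮ = ⊥ := by
  rw [eq_bot_iff]
  intro v hv
  rw [Submodule.mem_bot]
  have h1 : ∀ g' : G', (delta g' : Ell G') ∈
      closure (Submodule.span ℂ (Set.range (vv π)) : Set (Ell G')) := by
    intro g'
    have hc : Continuous fun x : CR G' => (x : Op G') (delta 1) :=
      (ContinuousLinearMap.apply ℂ (Ell G') (delta 1 : Ell G')).continuous.comp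
        continuous_subtype_val
    have h2 : lc g' ∈ closure ((StarAlgebra.adjoin ℂ
        (Set.range fun g => (π g : CR G'))) : Set (CR G')) := by
      rw [← StarSubalgebra.topologicalClosure_coe]
      exact hgen g'
    have h3 := map_mem_closure hc h2
      (t := (Submodule.span ℂ (Set.range (vv π)) : Set (Ell G'))) (by
        intro x hx
        have h4 := (adj π x hx).1 (vv π 1) (Submodule.subset_span ⟨1, rfl⟩)
        rw [vv_one] at h4
        exact h4)
    have h5 : ((lc g' : CR G') : Op G') (delta 1) = delta g' := by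
      have : ((lc g' : CR G') : Op G') = lam g' := rfl
      rw [this, lam_delta, mul_one]
    rw [h5] at h3
    exact h3
  have h6 : ∀ w ∈ closure (Submodule.span ℂ (Set.range (vv π)) : Set (Ell G')),
      ⟪w, v⟫_ℂ = 0 := by
    intro w hw
    have hcl : IsClosed {w : Ell G' | ⟪w, v⟫_ℂ = 0} :=
      isClosed_eq (continuous_id.inner continuous_const) continuous_const
    exact closure_minimal (fun w hw => (Submodule.mem_orthogonal _ v).1 hv w hw) hcl hw
  ext g'
  have h7 := h6 _ (h1 g')
  rw [inner_delta] at h7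
  exact h7

end

set_option maxHeartbeats 1000000 in
theorem t_TIX : S_TIX := by
  classical
  intro G G' _ _ π h0 hgen
  let b : HilbertBasis G ℂ (Ell G') := HilbertBasis.mkOfOrthogonalEqBot (orth π h0) (dense π hgen)
  have hb : ∀ g, b g = vv π g := by
    intro g
    have := HilbertBasis.coe_mkOfOrthogonalEqBot (orth π h0) (dense π hgen)
    exact congrFun this g
  let W : Ell G ≃ₗᵢ[ℂ] Ell G' := b.repr.symm
  have hW : ∀ g, W (delta g) = vv π g := by
    intro g
    rw [← hb]
    have : (delta g : Ell G) = lp.single 2 g (1 : ℂ) := by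
      unfold delta
      congr 1
    rw [this]
    exact b.repr_symm_single g
  have hW' : ∀ g, W.symm (vv π g) = delta g := by
    intro g
    rw [← hW, W.symm_apply_apply]
  let Φ : Op G ≃⋆ₐ[ℂ] Op G' := W.conjStarAlgEquiv
  have hΦ : ∀ (x : Op G) (y : Ell G'), Φ x y = W (x (W.symm y)) := fun x y => rfl
  have hΦ' : ∀ (x : Op G') (y : Ell G), Φ.symm x y = W.symm (x (W y)) := fun x y => rfl
  have hlam' : ∀ g, Φ.symm ((π g : CR G') : Op G') = lam g := by
    intro g
    apply op_ext
    intro h
    rw [hΦ', hW, pi_vv, hW', lam_delta]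
  have hlam : ∀ g, Φ (lam g) = ((π g : CR G') : Op G') := by
    intro g
    rw [← hlam', StarAlgEquiv.apply_symm_apply]
  have hc : Continuous (Φ : Op G → Op G') :=
    (NonUnitalStarAlgHom.isometry Φ Φ.injective).continuous
  have hc' : Continuous (Φ.symm : Op G' → Op G) :=
    (NonUnitalStarAlgHom.isometry Φ.symm Φ.symm.injective).continuous
  -- forward
  have hfw : ∀ x ∈ CR G, Φ x ∈ CR G' := by
    apply clos_le (Φ : Op G →⋆ₐ[ℂ] Op G') hc (CR G') inferInstance
    rintro _ ⟨g, rfl⟩
    have h1 : Φ (lam g) ∈ CR G' := by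
      rw [hlam]
      exact ((π g : CR G')).2
    exact h1
  -- backward
  let ψ : CR G' →⋆ₐ[ℂ] Op G := (Φ.symm : Op G' →⋆ₐ[ℂ] Op G).comp (CR G').subtype
  have hψ : ∀ x : CR G', ψ x = Φ.symm (x : Op G') := fun x => rfl
  have hψc : Continuous ψ := hc'.comp continuous_subtype_val
  have hbw1 : ∀ x ∈ (StarAlgebra.adjoin ℂ
      (Set.range fun g => (π g : CR G'))).topologicalClosure, ψ x ∈ CR G := by
    apply clos_le ψ hψc (CR G) inferInstance
    rintro _ ⟨g, rfl⟩
    have h1 : Φ.symm ((π g : CR G') : Op G') ∈ CR G := by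
      rw [hlam']
      exact lam_mem_CR g
    exact h1
  have hbw2 : ∀ g' : G', Φ.symm (lam g') ∈ CR G := by
    intro g'
    have h1 := hbw1 (lc g') (hgen g')
    rw [hψ] at h1
    exact h1
  have hbw : ∀ x ∈ CR G', Φ.symm x ∈ CR G := by
    apply clos_le (Φ.symm : Op G' →⋆ₐ[ℂ] Op G) hc' (CR G) inferInstance
    rintro _ ⟨g', rfl⟩
    exact hbw2 g'
  let f : CR G →⋆ₐ[ℂ] CR G' := StarAlgHom.codRestrict
    ((Φ : Op G →⋆ₐ[ℂ] Op G').comp (CR G).subtype) (CR G') (fun x => hfw x.1 x.2)
  have hf : ∀ x : CR G, ((f x : CR G') : Op G') = Φ (x : Op G) := fun x => rfl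
  have hfb : Function.Bijective f := by
    constructor
    · intro x y hxy
      apply Subtype.ext
      have h1 : Φ (x : Op G) = Φ (y : Op G) := by
        rw [← hf, ← hf, hxy]
      have h2 := congrArg Φ.symm h1
      rw [Φ.symm_apply_apply, Φ.symm_apply_apply] at h2
      exact h2
    · intro y
      refine ⟨⟨Φ.symm (y : Op G'), hbw y.1 y.2⟩, ?_⟩
      apply Subtype.ext
      rw [hf]
      exact Φ.apply_symm_apply _
  refine ⟨⟨StarAlgEquiv.ofBijective f hfb, ?_⟩, ?_⟩
  · intro x
    show tau ((f x : CR G') : Op G') = tau (x : Op G)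
    rw [hf]
    unfold tau
    rw [hΦ]
    have e1 : W.symm (delta 1) = delta 1 := by
      rw [← vv_one π, hW']
    have e2 : W (delta 1) = delta 1 := by
      rw [hW, vv_one]
    rw [e1, ← inner_delta (1 : G'), ← e2, W.inner_map_map, inner_delta]
  · intro g
    apply Subtype.ext
    show ((f (lc g) : CR G') : Op G') = _
    rw [hf]
    exact hlam g

end Pool.Agent.H678SG.TTIX
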