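import Pool.Agent.H678SG.Stubs

/-! Task TRC: basic properties of the canonical trace of `C*_r(G)`. -/

set_option autoImplicit false

namespace Pool.Agent.H678SG.TTRC

open Pool.Agent.H667R2.FG (Ell permOp lam rho delta LG EltG tau)
open Pool.Agent.H667R2.FG.TL2
open scoped ComplexConjugate InnerProductSpace

variable {G : Type} [Group G]

theorem TRC_tau_inner (x : Op G) : tau x = ⟪(delta 1 : Ell G), x (delta 1)⟫_ℂ := by
  rw [inner_delta]
  rfl

theorem TRC_tau_mul (x y : Op G) : tau (x * y) = ⟪(star x) (delta 1), y (delta 1)⟫_ℂ := by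
  rw [TRC_tau_inner, ContinuousLinearMap.star_eq_adjoint, ContinuousLinearMap.adjoint_inner_left]
  rfl

theorem TRC_tau_comm (x y : Op G) (hx : ∀ g, x * rho g = rho g * x)
    (hy : ∀ g, y * rho g = rho g * y) : tau (x * y) = tau (y * x) := by
  rw [TRC_tau_mul, TRC_tau_mul]
  have h1 := lp.hasSum_inner (𝕜 := ℂ) ((star x) (delta (1 : G))) (y (delta 1))
  have h2 := lp.hasSum_inner (𝕜 := ℂ) ((star y) (delta (1 : G))) (x (delta 1))
  have h3 := ((Equiv.inv G).hasSum_iff (f := fun i => ⟪((star y) (delta (1 : G))) i,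
    (x (delta 1)) i⟫_ℂ) (a := ⟪(star y) (delta (1 : G)), x (delta 1)⟫_ℂ)).2 h2
  refine h1.unique (h3.congr_fun ?_)
  intro i
  show ⟪((star x) (delta (1 : G))) i, (y (delta 1)) i⟫_ℂ =
    ⟪((star y) (delta (1 : G))) i⁻¹, (x (delta 1)) i⁻¹⟫_ℂ
  rw [star_coef x hx, star_coef y hy, inv_inv]
  simp only [RCLike.inner_apply, RingHom.id_apply, Complex.conj_conj]
  ring

theorem t_TRC (hC : S_COM) : S_TRC := by
  intro G _
  classical
  refine ⟨fun x y => rfl, fun s x => rfl, fun x y => ?_, ?_, ?_, fun g hg => ?_, fun x => ?_,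
    fun x hx => ?_, fun x g => ?_⟩
  · exact TRC_tau_comm (x : Op G) (y : Op G) (hC G x) (hC G y)
  · show (delta 1 : Ell G) 1 = 1
    rw [delta_apply, if_pos rfl]
  · have h1 : (tr : CR G → ℂ) = fun x : CR G => ⟪(delta 1 : Ell G), (x : Op G) (delta 1)⟫_ℂ := by
      funext x
      exact TRC_tau_inner _
    rw [h1]
    have h2 : Continuous fun x : CR G => (x : Op G) (delta 1) :=
      (ContinuousLinearMap.apply ℂ (Ell G) (delta (1 : G))).continuous.comp continuous_subtype_val
    exact continuous_const.inner h2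
  · show (lam g (delta 1) : Ell G) 1 = 0
    rw [lam_delta, mul_one, delta_apply, if_neg (Ne.symm hg)]
  · show tau (star (x : Op G) * (x : Op G)) = _
    rw [TRC_tau_mul, star_star, inner_self_eq_norm_sq_to_K]
    push_cast
    rfl
  · have hs := hC G x
    apply Subtype.ext
    show (x : Op G) = 0
    ext f h
    show ((x : Op G) f) h = (0 : Ell G) h
    have h1 : (star (x : Op G)) (delta h) = 0 := by
      ext k
      rw [coef_apply _ (star_comm_rho _ hs) h k, star_coef _ hs, hx]
      simp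
    rw [← inner_delta h]
    have h2 : ⟪(delta h : Ell G), (x : Op G) f⟫_ℂ = ⟪(star (x : Op G)) (delta h), f⟫_ℂ := by
      rw [ContinuousLinearMap.star_eq_adjoint, ContinuousLinearMap.adjoint_inner_left]
    rw [h2, h1, inner_zero_left]
    rfl
  · show ((x : Op G) (delta 1)) g = (lam g⁻¹ ((x : Op G) (delta 1)) : Ell G) 1
    show _ = ((x : Op G) (delta 1)) ((g⁻¹)⁻¹ * 1)
    rw [inv_inv, mul_one]

end Pool.Agent.H678SG.TTRC
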