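import Pool.Agent.H678SG.Stubs2

set_option autoImplicit false

namespace Pool.Agent.H678SG.TTREE

open HNNExtension HNNExtension.NormalWord

variable {G : Type} [Group G] {A B : Subgroup G} (φ : A ≃* B)

/-- vertices -/
abbrev VV (φ : A ≃* B) : Type :=
  HNNExtension G A B φ ⧸ (MonoidHom.range (of : G →* HNNExtension G A B φ))

/-- the exponent homomorphism -/
noncomputable def expo : HNNExtension G A B φ →* Multiplicative ℤ :=
  lift (1 : G →* Multiplicative ℤ) (Multiplicative.ofAdd 1) (by intro a; simp)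

theorem expo_of (g : G) : expo φ (of g) = 1 := by simp [expo]

theorem expo_t : expo φ t = Multiplicative.ofAdd 1 := by simp [expo]

/-- adjacency -/
def adj (v w : VV φ) : Prop :=
  ∃ (g : HNNExtension G A B φ) (u : ℤˣ), v = QuotientGroup.mk g ∧
    w = QuotientGroup.mk (g * t ^ (u : ℤ))

theorem expo_mk {g h : HNNExtension G A B φ}
    (e : (QuotientGroup.mk g : VV φ) = QuotientGroup.mk h) : expo φ g = expo φ h := by
  rw [QuotientGroup.eq] at e
  obtain ⟨x, hx⟩ := e
  have h1 := congrArg (expo φ) hx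
  rw [expo_of, map_mul, map_inv] at h1
  exact (inv_mul_eq_one.1 h1.symm)

theorem expo_tpow (u : ℤ) : expo φ (t ^ u) = Multiplicative.ofAdd u := by
  rw [map_zpow, expo_t, ← ofAdd_zsmul]; simp

/-- the tree -/
def TT : SimpleGraph (VV φ) where
  Adj := adj φ
  symm := ⟨by
    rintro v w ⟨g, u, rfl, rfl⟩
    refine ⟨g * t ^ (u : ℤ), -u, rfl, ?_⟩
    rw [mul_assoc, ← zpow_add]; simp⟩
  loopless := ⟨by
    rintro v ⟨g, u, h1, h2⟩
    have h3 := expo_mk φ (h1.symm.trans h2)
    rw [map_mul, expo_tpow] at h3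
    have h4 : Multiplicative.ofAdd (u : ℤ) = 1 := left_eq_mul.1 h3
    have h5 : (u : ℤ) = 0 := ofAdd_eq_one.1 h4
    rcases Int.units_eq_one_or u with rfl | rfl <;> simp at h5⟩

theorem TT_adj (v w : VV φ) : (TT φ).Adj v w ↔ ∃ (g : HNNExtension G A B φ) (u : ℤˣ),
    v = QuotientGroup.mk g ∧ w = QuotientGroup.mk (g * t ^ (u : ℤ)) := Iff.rfl

theorem adj_smul (x : HNNExtension G A B φ) {v w : VV φ} (h : (TT φ).Adj v w) :
    (TT φ).Adj (x • v) (x • w) := by
  obtain ⟨g, u, rfl, rfl⟩ := h
  exact ⟨x * g, u, rfl, by rw [mul_assoc]; rfl⟩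

theorem reach_smul (x : HNNExtension G A B φ) {v w : VV φ} (h : (TT φ).Reachable v w) :
    (TT φ).Reachable (x • v) (x • w) := by
  let f : (TT φ) →g (TT φ) := ⟨fun v => x • v, fun h => adj_smul φ x h⟩
  exact h.map f

theorem reach (g : HNNExtension G A B φ) :
    (TT φ).Reachable (QuotientGroup.mk 1) (QuotientGroup.mk g) := by
  induction g using HNNExtension.induction_on with
  | of g =>
    have : (QuotientGroup.mk 1 : VV φ) = QuotientGroup.mk (of g) := by
      rw [QuotientGroup.eq]; exact ⟨g, by simp⟩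
    rw [← this]
  | t =>
    exact SimpleGraph.Adj.reachable ⟨1, 1, rfl, by simp⟩
  | mul x y hx hy =>
    refine hx.trans ?_
    have := reach_smul φ x hy
    simpa using this
  | inv x hx =>
    have := reach_smul φ x⁻¹ hx
    have e1 : x⁻¹ • (QuotientGroup.mk 1 : VV φ) = QuotientGroup.mk x⁻¹ := by
      change QuotientGroup.mk (x⁻¹ * 1) = _
      rw [mul_one]
    have e2 : x⁻¹ • (QuotientGroup.mk x : VV φ) = QuotientGroup.mk 1 := by
      change QuotientGroup.mk (x⁻¹ * x) = _
      rw [inv_mul_cancel]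
    rw [e1, e2] at this
    exact this.symm

theorem connected : (TT φ).Connected := by
  have : Nonempty (VV φ) := ⟨QuotientGroup.mk 1⟩
  refine ⟨?_⟩
  intro v w
  obtain ⟨g, rfl⟩ := QuotientGroup.mk_surjective v
  obtain ⟨h, rfl⟩ := QuotientGroup.mk_surjective w
  exact (reach φ g).symm.trans (reach φ h)

theorem no_inv (x : HNNExtension G A B φ) {v w : VV φ} (h : (TT φ).Adj v w) :
    ¬ (x • v = w ∧ x • w = v) := by
  rintro ⟨h1, h2⟩
  obtain ⟨g, u, rfl, rfl⟩ := h
  have e1 := expo_mk φ (show (QuotientGroup.mk (x * g) : VV φ) = QuotientGroup.mk (g * t ^ (u : ℤ))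
    from h1)
  have e2 := expo_mk φ (show (QuotientGroup.mk (x * (g * t ^ (u : ℤ))) : VV φ) =
    QuotientGroup.mk g from h2)
  rw [map_mul, map_mul, expo_tpow] at e1
  rw [map_mul, map_mul, expo_tpow] at e2
  have e3 := congrArg Multiplicative.toAdd e1
  have e4 := congrArg Multiplicative.toAdd e2
  simp only [toAdd_mul, toAdd_ofAdd] at e3 e4
  have h5 : (u : ℤ) = 0 := by omega
  rcases Int.units_eq_one_or u with rfl | rfl <;> simp at h5

/-- the element of a list of syllables -/
def lp (L : List (ℤˣ × G)) : HNNExtension G A B φ :=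
  (L.map (fun x => t ^ (x.1 : ℤ) * of x.2)).prod

/-- commuting a subgroup element across a stable letter -/
theorem cross (u : ℤˣ) (x : G) (hx : x ∈ toSubgroup A B u) :
    (QuotientGroup.mk (t ^ (u : ℤ) * of x * t ^ ((-u : ℤˣ) : ℤ)) : VV φ) = QuotientGroup.mk 1 := by
  rw [QuotientGroup.eq]
  rcases Int.units_eq_one_or u with rfl | rfl
  · refine ⟨((φ ⟨x, hx⟩ : B) : G)⁻¹, ?_⟩
    have := equiv_eq_conj (φ := φ) ⟨x, hx⟩
    rw [map_inv, this]
    simp
  · refine ⟨((φ.symm ⟨x, hx⟩ : A) : G)⁻¹, ?_⟩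
    have := equiv_symm_eq_conj (φ := φ) ⟨x, hx⟩
    rw [map_inv, this]
    simp

theorem units_ne {u u2 : ℤˣ} (h : ¬ u = u2) : u2 = -u := by
  rcases Int.units_eq_one_or u with h1 | h1 <;>
  rcases Int.units_eq_one_or u2 with h2 | h2 <;> subst h1 <;> subst h2 <;> simp_all

theorem walk_word {v w : VV φ} (p : (TT φ).Walk v w) (hp : p.IsTrail) :
    ∀ g : HNNExtension G A B φ, v = QuotientGroup.mk g →
    ∃ (x : G) (L : List (ℤˣ × G)), L.IsChain (fun a b => a.2 ∈ toSubgroup A B a.1 → a.1 = b.1) ∧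
      L.length = p.length ∧ w = QuotientGroup.mk (g * of x * lp φ L) ∧
      ∀ u y L', L = (u, y) :: L' → p.getVert 1 = QuotientGroup.mk (g * of x * t ^ (u : ℤ)) := by
  induction p with
  | nil =>
    intro g hg
    exact ⟨1, [], List.isChain_nil, rfl, by simp [lp, hg], by simp⟩
  | @cons v v1 w h p ih =>
    intro g hg
    rw [SimpleGraph.Walk.isTrail_cons] at hp
    obtain ⟨g', u, h1, h2⟩ := (TT_adj φ _ _).1 h
    have h3 : (QuotientGroup.mk g : VV φ) = QuotientGroup.mk g' := hg.symm.trans h1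
    rw [QuotientGroup.eq] at h3
    obtain ⟨x, hx⟩ := h3
    have hg' : g' = g * of x := by rw [hx]; group
    subst hg'
    obtain ⟨x1, L1, hc, hl, hw, hs⟩ := ih hp.1 _ h2
    refine ⟨x, (u, x1) :: L1, ?_, by simp [hl], ?_, ?_⟩
    · rcases L1 with _ | ⟨⟨u2, x2⟩, L2⟩
      · exact List.isChain_singleton _
      · refine List.isChain_cons_cons.2 ⟨?_, hc⟩
        intro hmem
        by_contra hne
        have hu2 : u2 = -u := by
          exact units_ne hne
        have h4 := hs u2 x2 L2 rfl
        have h5 : p.getVert 1 = v := by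
          rw [h4, h1, hu2]
          have h6 := cross φ u x1 hmem
          rw [QuotientGroup.eq] at h6 ⊢
          obtain ⟨y, hy⟩ := h6
          refine ⟨y, ?_⟩
          rw [hy]
          group
        apply hp.2
        rcases p with _ | ⟨h7, p2⟩
        · simp at hl
        · simp only [SimpleGraph.Walk.getVert_cons_succ, SimpleGraph.Walk.getVert_zero] at h5
          subst h5
          rw [SimpleGraph.Walk.edges_cons, Sym2.eq_swap]
          exact List.mem_cons_self
    · rw [hw]
      simp only [lp, List.map_cons, List.prod_cons, mul_assoc]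
    · intro u' y L' he
      simp only [List.cons.injEq, Prod.mk.injEq] at he
      rw [← he.1.1, ← h2]
      have h8 := SimpleGraph.Walk.getVert_cons_succ (n := 0) p h
      rw [SimpleGraph.Walk.getVert_zero] at h8
      exact h8

theorem acyclic : (TT φ).IsAcyclic := by
  intro v c hc
  obtain ⟨g, rfl⟩ := QuotientGroup.mk_surjective v
  obtain ⟨x, L, hch, hl, hw, -⟩ := walk_word φ c hc.isTrail g rfl
  rw [QuotientGroup.eq] at hw
  have h1 : of x * lp φ L ∈ (of.range : Subgroup (HNNExtension G A B φ)) := by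
    have : g⁻¹ * (g * of x * lp φ L) = of x * lp φ L := by group
    rwa [this] at hw
  have h2 := ReducedWord.toList_eq_nil_of_mem_of_range φ ⟨x, L, hch⟩ h1
  have h3 : L = [] := h2
  rw [h3] at hl
  have := hc.three_le_length
  simp at hl
  omega

theorem isTree : (TT φ).IsTree := ⟨connected φ, acyclic φ⟩

theorem t_TREE : S_TREE := by
  intro G _ A B φ
  refine ⟨VV φ, inferInstance, TT φ, QuotientGroup.mk 1, ⟨isTree φ, ?_, ?_⟩, ?_, ?_, ?_⟩
  · intro g v w h
    exact adj_smul φ g h
  · intro g v w h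
    exact no_inv φ g h
  · intro v
    obtain ⟨g, rfl⟩ := QuotientGroup.mk_surjective v
    refine ⟨g, ?_⟩
    change QuotientGroup.mk (g * 1) = _
    rw [mul_one]
  · intro g
    have e : g • (QuotientGroup.mk 1 : VV φ) = QuotientGroup.mk g := by
      change QuotientGroup.mk (g * 1) = _
      rw [mul_one]
    rw [e, eq_comm, QuotientGroup.eq, inv_one, one_mul]
    rfl
  · intro w
    constructor
    · rintro ⟨g, u, h1, h2⟩
      rw [QuotientGroup.eq, inv_one, one_mul] at h1
      obtain ⟨x, rfl⟩ := h1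
      refine ⟨x, ?_⟩
      rcases Int.units_eq_one_or u with rfl | rfl
      · left
        rw [h2]
        change _ = QuotientGroup.mk (of x * t * 1)
        simp
      · right
        rw [h2]
        change _ = QuotientGroup.mk (of x * t⁻¹ * 1)
        simp
    · rintro ⟨x, h | h⟩
      · refine ⟨of x, 1, ?_, ?_⟩
        · rw [QuotientGroup.eq, inv_one, one_mul]; exact ⟨x, rfl⟩
        · rw [h]
          change QuotientGroup.mk (of x * t * 1) = _
          simp
      · refine ⟨of x, -1, ?_, ?_⟩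
        · rw [QuotientGroup.eq, inv_one, one_mul]; exact ⟨x, rfl⟩
        · rw [h]
          change QuotientGroup.mk (of x * t⁻¹ * 1) = _
          simp

end Pool.Agent.H678SG.TTREE

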