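import Pool.Agent.H678SG.Stubs2

/-! Tasks Z1, ZIN: products of two conjugates, the words have infinite order. -/

set_option autoImplicit false

namespace Pool.Agent.H678SG.TZ1

open Pool.Agent.H678SG

variable {H : Type} [Group H]

/-- the wreath product -/
abbrev WP (H : Type) : Type := RegularWreathProduct H (Multiplicative ℤ)

/-- the element `h` at the position `k` -/
def emb (k : Multiplicative ℤ) : H →* WP H where
  toFun h := ⟨fun x => if x = k then h else 1, 1⟩
  map_one' := by
    refine RegularWreathProduct.ext ?_ rfl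
    funext x
    simp
  map_mul' a b := by
    refine RegularWreathProduct.ext ?_ ?_
    · funext x
      simp only [RegularWreathProduct.mul_left, Pi.mul_apply, inv_one, one_mul]
      split_ifs
      · rfl
      · simp
    · simp

theorem emb_left (k x : Multiplicative ℤ) (h : H) :
    (emb k h).left x = if x = k then h else 1 := rfl

theorem emb_right (k : Multiplicative ℤ) (h : H) : (emb k h).right = 1 := rfl

/-- conjugates -/
theorem conj_emb (g : WP H) (k : Multiplicative ℤ) (h : H) :
    ∃ h' : H, g * emb k h * g⁻¹ = emb (g.right * k) h' := by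
  refine ⟨g.left (g.right * k) * h * (g.left (g.right * k))⁻¹, ?_⟩
  refine RegularWreathProduct.ext ?_ ?_
  · funext x
    simp only [RegularWreathProduct.mul_left, Pi.mul_apply, emb_left,
      RegularWreathProduct.inv_left, RegularWreathProduct.mul_right, emb_right, mul_one,
      Pi.inv_apply, mul_inv_cancel_left]
    by_cases hx : x = g.right * k
    · have : g.right⁻¹ * x = k := by rw [hx, inv_mul_cancel_left]
      rw [if_pos this, if_pos hx, hx]
    · have : g.right⁻¹ * x ≠ k := by
        intro h1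
        exact hx (by rw [← h1, mul_inv_cancel_left])
      rw [if_neg this, if_neg hx, mul_one, mul_inv_cancel]
  · simp [emb_right]

theorem conj_inl (q k : Multiplicative ℤ) (h : H) :
    RegularWreathProduct.inl q * emb k h * (RegularWreathProduct.inl q)⁻¹ = emb (q * k) h := by
  refine RegularWreathProduct.ext ?_ ?_
  · funext x
    simp only [RegularWreathProduct.mul_left, Pi.mul_apply, emb_left,
      RegularWreathProduct.inv_left, RegularWreathProduct.mul_right, emb_right, mul_one,
      Pi.inv_apply, mul_inv_cancel_left, RegularWreathProduct.left_inl,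
      RegularWreathProduct.right_inl, Pi.one_apply, inv_one, one_mul]
    by_cases hx : x = q * k
    · have : q⁻¹ * x = k := by rw [hx, inv_mul_cancel_left]
      rw [if_pos this, if_pos hx]
    · have : q⁻¹ * x ≠ k := by
        intro h1
        exact hx (by rw [← h1, mul_inv_cancel_left])
      rw [if_neg this, if_neg hx]
  · simp [emb_right]

/-- one step of the construction of the homomorphism -/
noncomputable def stp {G : Type} [Group G] (f : G →* WP H) (n : ℤ) : PZ G →* WP H :=
  HNNExtension.lift f (RegularWreathProduct.inl (Multiplicative.ofAdd n)) (by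
    rintro ⟨a, ha⟩
    rw [Subgroup.mem_bot] at ha
    subst ha
    have : ((MulEquiv.refl (⊥ : Subgroup G)) ⟨1, ha⟩ : G) = 1 := rfl
    rw [this, map_one, mul_one, one_mul])

theorem stp_of {G : Type} [Group G] (f : G →* WP H) (n : ℤ) (g : G) :
    stp f n (HNNExtension.of g) = f g := HNNExtension.lift_of _ _ _ _

theorem stp_t {G : Type} [Group G] (f : G →* WP H) (n : ℤ) :
    stp f n HNNExtension.t = RegularWreathProduct.inl (Multiplicative.ofAdd n) :=
  HNNExtension.lift_t _ _ _

/-- the homomorphism on `P2` -/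
noncomputable def stp2 {G : Type} [Group G] (f : G →* WP H) (m n : ℤ) : P2 G →* WP H :=
  stp (stp f m) n

theorem stp2_i2 {G : Type} [Group G] (f : G →* WP H) (m n : ℤ) (g : G) :
    stp2 f m n (i2 G g) = f g := by
  rw [stp2, i2, MonoidHom.comp_apply, stp_of, stp_of]

theorem stp2_yy {G : Type} [Group G] (f : G →* WP H) (m n : ℤ) (g : G) (h : H)
    (k : Multiplicative ℤ) (hg : f g = emb k h) :
    stp2 f m n (yy g) = emb (Multiplicative.ofAdd m * k) h * emb (Multiplicative.ofAdd n * k) h := by
  have e1 : stp2 f m n (l2 G false) = RegularWreathProduct.inl (Multiplicative.ofAdd m) := by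
    rw [stp2, l2, stp_of, stp_t]
  have e2 : stp2 f m n (l2 G true) = RegularWreathProduct.inl (Multiplicative.ofAdd n) := by
    rw [stp2, l2, stp_t]
  rw [yy, map_mul, map_mul, map_mul, map_mul, map_mul, map_inv, map_inv, e1, e2, stp2_i2, hg,
    conj_inl, conj_inl]

/-- the homomorphism on `P4 H` -/
noncomputable def rr (H : Type) [Group H] : P4 H →* WP H :=
  stp2 (stp2 (emb 1) 1 2) 3 4

theorem rr_i4 (h : H) : rr H (i4 H h) = emb 1 h := by
  rw [rr, i4, MonoidHom.comp_apply, stp2_i2, stp2_i2]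

theorem rr_zz (w u : H) : rr H (zz w u) =
    emb 1 w * (emb (Multiplicative.ofAdd 1) u * emb (Multiplicative.ofAdd 2) u) *
      (emb (Multiplicative.ofAdd 3) u * emb (Multiplicative.ofAdd 4) u) := by
  have e1 : stp2 (emb (1 : Multiplicative ℤ) : H →* WP H) 1 2 (i2 H u) = emb 1 u := stp2_i2 _ _ _ _
  rw [rr, zz, map_mul, stp2_i2, map_mul, stp2_i2, stp2_yy _ _ _ u u 1 rfl,
    stp2_yy _ _ _ (i2 H u) u 1 e1, mul_one, mul_one, mul_one, mul_one]

theorem rr_z0 (c e : H) : rr H (z0 c e) =
    emb 1 c * (emb (Multiplicative.ofAdd 1) e * emb (Multiplicative.ofAdd 2) e) := by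
  rw [rr, z0, stp2_i2, map_mul, stp2_i2, stp2_yy _ _ _ e e 1 rfl, mul_one, mul_one]

/-! ### powers -/

theorem zpow_left (x : WP H) (hx : x.right = 1) (i : ℤ) (k : Multiplicative ℤ) :
    (x ^ i).left k = x.left k ^ i := by
  let K : Subgroup (WP H) := RegularWreathProduct.rightHom.ker
  let ev : K →* H :=
    { toFun := fun y => (y : WP H).left k
      map_one' := rfl
      map_mul' := by
        rintro ⟨a, ha⟩ ⟨b, hb⟩
        have ha' : a.right = 1 := ha
        change (a * b).left k = a.left k * b.left k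
        rw [RegularWreathProduct.mul_left, Pi.mul_apply, ha', inv_one, one_mul] }
  have h1 := map_zpow ev ⟨x, hx⟩ i
  exact h1

theorem mul_left' (x y : WP H) (hx : x.right = 1) (k : Multiplicative ℤ) :
    (x * y).left k = x.left k * y.left k := by
  rw [RegularWreathProduct.mul_left, Pi.mul_apply, hx, inv_one, one_mul]

theorem mul_right' (x y : WP H) (hx : x.right = 1) (hy : y.right = 1) : (x * y).right = 1 := by
  rw [RegularWreathProduct.mul_right, hx, hy, one_mul]

theorem pos_ne {m n : ℤ} (h : m ≠ n) : Multiplicative.ofAdd m ≠ Multiplicative.ofAdd n :=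
  fun h1 => h (Multiplicative.ofAdd.injective h1)

/-- values of the word `zz` -/
theorem zz_left (w u : H) (n : ℤ) (hn : n = 1 ∨ n = 2 ∨ n = 3 ∨ n = 4) :
    (rr H (zz w u)).left (Multiplicative.ofAdd n) = u := by
  have h0 : (1 : Multiplicative ℤ) = Multiplicative.ofAdd 0 := rfl
  rw [rr_zz, mul_left' _ _ (mul_right' _ _ rfl (mul_right' _ _ rfl rfl)), mul_left' _ _ rfl,
    mul_left' _ _ rfl, mul_left' _ _ rfl, emb_left, emb_left, emb_left, emb_left, emb_left, h0]
  simp only [Multiplicative.ofAdd.injective.eq_iff, EmbeddingLike.apply_eq_iff_eq]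
  rcases hn with rfl | rfl | rfl | rfl <;> simp

theorem z0_left (c e : H) (n : ℤ) (hn : n = 1 ∨ n = 2) :
    (rr H (z0 c e)).left (Multiplicative.ofAdd n) = e := by
  have h0 : (1 : Multiplicative ℤ) = Multiplicative.ofAdd 0 := rfl
  rw [rr_z0, mul_left' _ _ rfl, mul_left' _ _ rfl, emb_left, emb_left, emb_left, h0]
  simp only [EmbeddingLike.apply_eq_iff_eq]
  rcases hn with rfl | rfl <;> simp

theorem z0_left0 (c e : H) : (rr H (z0 c e)).left 1 = c := by
  have h0 : (1 : Multiplicative ℤ) = Multiplicative.ofAdd 0 := rfl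
  rw [rr_z0, mul_left' _ _ rfl, mul_left' _ _ rfl, emb_left, emb_left, emb_left, h0]
  simp only [EmbeddingLike.apply_eq_iff_eq]
  simp

theorem zz_right (w u : H) : (rr H (zz w u)).right = 1 := by
  rw [rr_zz]
  exact mul_right' _ _ (mul_right' _ _ rfl (mul_right' _ _ rfl rfl)) (mul_right' _ _ rfl rfl)

theorem z0_right (c e : H) : (rr H (z0 c e)).right = 1 := by
  rw [rr_z0]
  exact mul_right' _ _ rfl (mul_right' _ _ rfl rfl)

theorem tf_zpow (hT : TF H) {u : H} (hu : u ≠ 1) {i : ℤ} (hi : i ≠ 0) : u ^ i ≠ 1 := by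
  intro h
  exact hT u hu (isOfFinOrder_iff_zpow_eq_one.2 ⟨i, hi, h⟩)

theorem t_ZIN : S_ZIN := by
  intro H _ hT z hz hf
  obtain ⟨i, hi, h⟩ := isOfFinOrder_iff_zpow_eq_one.1 hf
  have h1 : (rr H z) ^ i = 1 := by rw [← map_zpow, h, map_one]
  rcases hz with ⟨w, u, hu, rfl⟩ | ⟨c, e, he, rfl⟩
  · have h2 := zpow_left _ (zz_right w u) i (Multiplicative.ofAdd 1)
    rw [h1, zz_left w u 1 (Or.inl rfl)] at h2
    exact tf_zpow hT hu hi h2.symm
  · have h2 := zpow_left _ (z0_right c e) i (Multiplicative.ofAdd 1)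
    rw [h1, z0_left c e 1 (Or.inl rfl)] at h2
    exact tf_zpow hT he hi h2.symm

/-- the main statement on products of two conjugates -/
theorem main (hT : TF H) (z : P4 H)
    (hz : (∃ w u : H, u ≠ 1 ∧ z = zz w u) ∨ (∃ c e : H, c ≠ 1 ∧ e ≠ 1 ∧ z = z0 c e))
    (i : ℤ) (hi : i ≠ 0) (x y : P4 H) (hx : Con (i4 H) x) (hy : Con (i4 H) y) :
    z ^ i ≠ x * y := by
  intro h
  have key : ∀ x : P4 H, Con (i4 H) x → ∃ (p : Multiplicative ℤ) (h : H), rr H x = emb p h := by
    rintro x ⟨a, g, rfl⟩
    rw [map_mul, map_mul, map_inv, rr_i4]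
    obtain ⟨h', hh⟩ := conj_emb (rr H g) 1 a
    exact ⟨_, h', hh⟩
  obtain ⟨p, a, hp⟩ := key x hx
  obtain ⟨p', b, hp'⟩ := key y hy
  have h1 : (rr H z) ^ i = emb p a * emb p' b := by rw [← map_zpow, h, map_mul, hp, hp']
  have h3 : ∀ k : Multiplicative ℤ, k ≠ p → k ≠ p' → ((rr H z) ^ i).left k = 1 := by
    intro k h4 h5
    rw [h1, mul_left' _ _ rfl, emb_left, emb_left, if_neg h4, if_neg h5, mul_one]
  -- three positions with nontrivial values
  have h6 : ∃ a b c : Multiplicative ℤ, a ≠ b ∧ a ≠ c ∧ b ≠ c ∧ ((rr H z) ^ i).left a ≠ 1 ∧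
      ((rr H z) ^ i).left b ≠ 1 ∧ ((rr H z) ^ i).left c ≠ 1 := by
    rcases hz with ⟨w, u, hu, rfl⟩ | ⟨c, e, hc, he, rfl⟩
    · refine ⟨Multiplicative.ofAdd 1, Multiplicative.ofAdd 2, Multiplicative.ofAdd 3,
        pos_ne (by norm_num), pos_ne (by norm_num), pos_ne (by norm_num), ?_, ?_, ?_⟩
      · rw [zpow_left _ (zz_right w u), zz_left w u 1 (by simp)]
        exact tf_zpow hT hu hi
      · rw [zpow_left _ (zz_right w u), zz_left w u 2 (by simp)]
        exact tf_zpow hT hu hi
      · rw [zpow_left _ (zz_right w u), zz_left w u 3 (by simp)]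
        exact tf_zpow hT hu hi
    · refine ⟨Multiplicative.ofAdd 0, Multiplicative.ofAdd 1, Multiplicative.ofAdd 2,
        pos_ne (by norm_num), pos_ne (by norm_num), pos_ne (by norm_num), ?_, ?_, ?_⟩
      · rw [zpow_left _ (z0_right c e)]
        have : (rr H (z0 c e)).left (Multiplicative.ofAdd 0) = c := z0_left0 c e
        rw [this]
        exact tf_zpow hT hc hi
      · rw [zpow_left _ (z0_right c e), z0_left c e 1 (by simp)]
        exact tf_zpow hT he hi
      · rw [zpow_left _ (z0_right c e), z0_left c e 2 (by simp)]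
        exact tf_zpow hT he hi
  obtain ⟨a1, a2, a3, h12, h13, h23, n1, n2, n3⟩ := h6
  have m1 : a1 = p ∨ a1 = p' := by
    by_contra hcon
    push_neg at hcon
    exact n1 (h3 _ hcon.1 hcon.2)
  have m2 : a2 = p ∨ a2 = p' := by
    by_contra hcon
    push_neg at hcon
    exact n2 (h3 _ hcon.1 hcon.2)
  have m3 : a3 = p ∨ a3 = p' := by
    by_contra hcon
    push_neg at hcon
    exact n3 (h3 _ hcon.1 hcon.2)
  rcases m1 with rfl | rfl <;> rcases m2 with h | h <;> rcases m3 with h' | h' <;>
    simp_all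

theorem t_Z1 : S_Z1 := fun _ _ hT z hz i hi x y hx hy => main hT z hz i hi x y hx hy

end Pool.Agent.H678SG.TZ1
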