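import Pool.Agent.H678SG.Stubs

set_option autoImplicit false

namespace Pool.Agent.H678SG.TZEQ

open Pool.Agent.H678SG

theorem zeq_equiv (G : Type) [Group G] (a : G) (ha : ¬ IsOfFinOrder a) :
    ∃ e : Multiplicative ℤ ≃* Subgroup.zpowers a,
      e (Multiplicative.ofAdd 1) = ⟨a, Subgroup.mem_zpowers a⟩ := by
  let fa : Multiplicative ℤ →* Subgroup.zpowers a :=
    (zpowersHom G a).codRestrict (Subgroup.zpowers a) (fun n => ⟨n.toAdd, rfl⟩)
  have hinj : Function.Injective fa := by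
    intro m n hmn
    have h1 : a ^ m.toAdd = a ^ n.toAdd := congrArg Subtype.val hmn
    exact Multiplicative.toAdd.injective (injective_zpow_iff_not_isOfFinOrder.2 ha h1)
  have hsurj : Function.Surjective fa := by
    rintro ⟨x, n, hn⟩
    exact ⟨Multiplicative.ofAdd n, Subtype.ext hn⟩
  refine ⟨MulEquiv.ofBijective fa ⟨hinj, hsurj⟩, ?_⟩
  apply Subtype.ext
  show a ^ (1 : ℤ) = a
  exact zpow_one a

theorem t_ZEQ : S_ZEQ := by
  intro G G' _ _ a b ha hb
  obtain ⟨ea, hea⟩ := zeq_equiv G a ha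
  obtain ⟨eb, heb⟩ := zeq_equiv G' b hb
  refine ⟨ea.symm.trans eb, ?_⟩
  have : ea.symm ⟨a, Subgroup.mem_zpowers a⟩ = Multiplicative.ofAdd 1 := by
    rw [← hea, MulEquiv.symm_apply_apply]
  rw [MulEquiv.trans_apply, this, heb]

end Pool.Agent.H678SG.TZEQ
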